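import Pool.Agent.RIG.PwB

/-!
# FSub: finite subgraphs

PROOF of `exists_finite_RG` (compare `Pool.Agent.AUE.CondK`, `exists_finite_KG`, which is proved: aue_CondK.lean in the
store, with reusable lemmas `CondK_app`, `CondK_ret`, `CondK_split`, `CondKDat`, `CondK_reach`; copy what you need
and rename it with the prefix `FSub_`). For a vertex `v` which lies on a closed path (nonempty path from `v` to `v`)
there is a return path at `v` (a shortest closed path). Either there are two different return paths `α v ≠ β v` at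
`v` (neither is a prefix of the other), or there is exactly one, `γ v`, `OnlyReturn G v (γ v)`. Let `V₀'` be `V0`
with the sources and ranges of `E0`; `E1 = E0 ∪` the edges of `α v`, `β v` resp. of `γ v`, over the `v ∈ V₀'` which lie
on a closed path in `G`; `V1 = V₀' ∪` sources and ranges of `E1`. Let `e ∈ E1` with `Reach (r e) (s e)` in the
subgraph. There is `v ∈ V₀'`, on a closed path, mutually reachable with `s e` in the subgraph: (1) `e ∈ E0`: `v = s e`;
(2) `e` is an edge of `α v`, `β v` or `γ v`: the closed path runs through `s e`. If `v` has two return paths: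
`α v = δ f …`, `β v = δ f' …`, `f ≠ f'` with common prefix `δ`: `s f = s f'`, reachable from `v`, and `v` is reachable
from `r f`, `r f'`. If `v` has only one: the second alternative with `l = γ v` (as a list in the subtype:
`List.attach`-like, `List.pmap`; `l.map Subtype.val = γ v`).
-/

namespace Pool.Agent.RIG

open Pool.Agent.AUE Pool.Agent.GHT

theorem FSub_app (G : DGraph) (l1 l2 : List G.E) : ∀ (u w : G.V),
    IsPath G u (l1 ++ l2) w ↔ ∃ v, IsPath G u l1 v ∧ IsPath G v l2 w := by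
  induction l1 with
  | nil =>
    intro u w
    simp only [List.nil_append, IsPath, exists_eq_left']
  | cons e l ih =>
    intro u w
    simp only [List.cons_append, IsPath]
    rw [ih]
    constructor
    · rintro ⟨h, v, h1, h2⟩; exact ⟨v, ⟨h, h1⟩, h2⟩
    · rintro ⟨v, ⟨h, h1⟩, h2⟩; exact ⟨h, v, h1, h2⟩

theorem FSub_ret (G : DGraph) (v : G.V) (h : ∃ l, l ≠ [] ∧ IsPath G v l v) : ∃ l, IsReturn G v l := by
  classical
  have h2 : ∃ n, ∃ l : List G.E, l ≠ [] ∧ IsPath G v l v ∧ l.length = n := by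
    obtain ⟨l, h1, h2⟩ := h
    exact ⟨_, l, h1, h2, rfl⟩
  obtain ⟨l, h3, h4, h5⟩ := Nat.find_spec h2
  refine ⟨l, h3, h4, ?_⟩
  intro l1 l2 he hl1 hl2 hp
  have h6 := Nat.find_min' h2 ⟨l1, hl1, hp, rfl⟩
  rw [← h5, he, List.length_append] at h6
  have h7 : 0 < l2.length := List.length_pos_iff.2 hl2
  omega

theorem FSub_split {α : Type} : ∀ (l l' : List α), (¬ ∃ t, l' = l ++ t) → (¬ ∃ t, l = l' ++ t) →
    ∃ γ f f' t t', f ≠ f' ∧ l = γ ++ f :: t ∧ l' = γ ++ f' :: t' := by
  intro l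
  induction l with
  | nil => intro l' h1 h2; exact absurd ⟨l', rfl⟩ h1
  | cons x l ih =>
    intro l' h1 h2
    cases l' with
    | nil => exact absurd ⟨x :: l, rfl⟩ h2
    | cons y l' =>
      by_cases hxy : x = y
      · subst hxy
        obtain ⟨γ, f, f', t, t', h3, h4, h5⟩ := ih l' (fun ⟨t, ht⟩ => h1 ⟨t, by rw [ht]; rfl⟩)
          (fun ⟨t, ht⟩ => h2 ⟨t, by rw [ht]; rfl⟩)
        exact ⟨x :: γ, f, f', t, t', h3, by rw [h4]; rfl, by rw [h5]; rfl⟩
      · exact ⟨[], x, y, l, l', hxy, rfl, rfl⟩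

/-- two branching closed paths at `v`, or the only return path -/
def FSubDat (G : DGraph) (v : G.V) (l l' : List G.E) : Prop :=
  IsPath G v l v ∧ IsPath G v l' v ∧
    ((∃ γ f f' t t', f ≠ f' ∧ l = γ ++ f :: t ∧ l' = γ ++ f' :: t') ∨ OnlyReturn G v l)

theorem FSub_dat (G : DGraph) (v : G.V) (h : ∃ l, l ≠ [] ∧ IsPath G v l v) :
    ∃ l l', FSubDat G v l l' := by
  obtain ⟨l, hl⟩ := FSub_ret G v h
  by_cases h' : ∃ l', IsReturn G v l' ∧ l' ≠ l
  · obtain ⟨l', hl', hne⟩ := h'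
    refine ⟨l, l', hl.2.1, hl'.2.1, Or.inl (FSub_split l l' ?_ ?_)⟩
    · rintro ⟨t, ht⟩
      refine hl'.2.2 l t ht hl.1 ?_ hl.2.1
      rintro rfl
      exact hne (by rw [ht, List.append_nil])
    · rintro ⟨t, ht⟩
      refine hl.2.2 l' t ht hl'.1 ?_ hl'.2.1
      rintro rfl
      exact hne (by rw [ht, List.append_nil])
  · refine ⟨l, l, hl.2.1, hl.2.1, Or.inr ⟨hl, fun l' hl' => ?_⟩⟩
    by_contra hne
    exact h' ⟨l', hl', hne⟩

theorem FSub_sub {α : Type} {E1 : Finset α} : ∀ l : List α, (∀ x ∈ l, x ∈ E1) →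
    ∃ l' : List {e : α // e ∈ E1}, l'.map Subtype.val = l
  | [], _ => ⟨[], rfl⟩
  | x :: l, h => by
    obtain ⟨l', hl'⟩ := FSub_sub l (fun y hy => h y (List.mem_cons_of_mem _ hy))
    exact ⟨⟨x, h x List.mem_cons_self⟩ :: l', by rw [List.map_cons, hl']⟩

section
variable (G : DGraph) (V1 : Finset G.V) (E1 : Finset G.E) (hs : ∀ e ∈ E1, G.s e ∈ V1)
    (hr : ∀ e ∈ E1, G.r e ∈ V1)

theorem FSub_reach (l : List G.E) (hl : ∀ e ∈ l, e ∈ E1) : ∀ (u w : G.V) (hu : u ∈ V1) (hw : w ∈ V1),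
    IsPath G u l w → (subG G V1 E1 hs hr).Reach ⟨u, hu⟩ ⟨w, hw⟩ := by
  induction l with
  | nil =>
    intro u w hu hw h
    simp only [IsPath] at h
    subst h
    exact Relation.ReflTransGen.refl
  | cons e l ih =>
    intro u w hu hw h
    have he := hl e (List.mem_cons_self ..)
    have h2 := ih (fun x hx => hl x (List.mem_cons_of_mem _ hx)) (G.r e) w (hr e he) hw h.2
    refine Relation.ReflTransGen.head ?_ h2
    exact ⟨⟨e, he⟩, Subtype.ext h.1, rfl⟩

theorem FSub_path (u w : {v : G.V // v ∈ V1}) (h : (subG G V1 E1 hs hr).Reach u w) :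
    ∃ l, IsPath G u.1 l w.1 := by
  induction h with
  | refl => exact ⟨[], rfl⟩
  | tail _ hst ih =>
    obtain ⟨l, hl⟩ := ih
    obtain ⟨e, he1, he2⟩ := hst
    refine ⟨l ++ [e.1], (FSub_app G _ _ _ _).2 ⟨_, hl, ?_⟩⟩
    exact ⟨congrArg Subtype.val he1, congrArg Subtype.val he2⟩
end

theorem exists_finite_RG (G : DGraph) (V0 : Finset G.V) (E0 : Finset G.E) :
    ∃ (V1 : Finset G.V) (E1 : Finset G.E), V0 ⊆ V1 ∧ E0 ⊆ E1 ∧
      ∃ (hs : ∀ e ∈ E1, G.s e ∈ V1) (hr : ∀ e ∈ E1, G.r e ∈ V1),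
        ∀ e : (subG G V1 E1 hs hr).Ed,
          (subG G V1 E1 hs hr).Reach ((subG G V1 E1 hs hr).r e) ((subG G V1 E1 hs hr).s e) →
          (∃ f f' : (subG G V1 E1 hs hr).Ed, f ≠ f' ∧
            (subG G V1 E1 hs hr).s f = (subG G V1 E1 hs hr).s f' ∧
            (subG G V1 E1 hs hr).Reach ((subG G V1 E1 hs hr).s e) ((subG G V1 E1 hs hr).s f) ∧
            (subG G V1 E1 hs hr).Reach ((subG G V1 E1 hs hr).r f) ((subG G V1 E1 hs hr).s e) ∧
            (subG G V1 E1 hs hr).Reach ((subG G V1 E1 hs hr).r f')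
              ((subG G V1 E1 hs hr).s e)) ∨
          ∃ (v : {v : G.V // v ∈ V1}) (l : List {e : G.E // e ∈ E1}),
            OnlyReturn G v.1 (l.map Subtype.val) ∧
            (subG G V1 E1 hs hr).Reach v ((subG G V1 E1 hs hr).s e) ∧
            (subG G V1 E1 hs hr).Reach ((subG G V1 E1 hs hr).s e) v := by
  classical
  have hch : ∀ v : G.V, ∃ l l' : List G.E, (∃ m m', FSubDat G v m m') → FSubDat G v l l' := by
    intro v
    by_cases h : ∃ m m', FSubDat G v m m'
    · obtain ⟨l, l', hl⟩ := h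
      exact ⟨l, l', fun _ => hl⟩
    · exact ⟨[], [], fun h' => absurd h' h⟩
  choose al be hab using hch
  let D : G.V → Prop := fun v => ∃ m m', FSubDat G v m m'
  let F : G.V → Finset G.E := fun v => if D v then (al v).toFinset ∪ (be v).toFinset else ∅
  let V0' : Finset G.V := V0 ∪ (E0.image G.s ∪ E0.image G.r)
  let E1 : Finset G.E := E0 ∪ V0'.biUnion F
  let V1 : Finset G.V := V0' ∪ (E1.image G.s ∪ E1.image G.r)
  have hs : ∀ e ∈ E1, G.s e ∈ V1 := fun e he =>
    Finset.mem_union_right _ (Finset.mem_union_left _ (Finset.mem_image_of_mem _ he))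
  have hr : ∀ e ∈ E1, G.r e ∈ V1 := fun e he =>
    Finset.mem_union_right _ (Finset.mem_union_right _ (Finset.mem_image_of_mem _ he))
  refine ⟨V1, E1, ?_, Finset.subset_union_left, hs, hr, ?_⟩
  · intro v hv
    exact Finset.mem_union_left _ (Finset.mem_union_left _ hv)
  rintro ⟨e, he⟩ hre
  have hV : ∀ v ∈ V0', v ∈ V1 := fun v hv => Finset.mem_union_left _ hv
  have hE : ∀ v ∈ V0', D v → (∀ x ∈ al v, x ∈ E1) ∧ (∀ x ∈ be v, x ∈ E1) := by
    intro v hv hD
    have h1 : ∀ x ∈ F v, x ∈ E1 := fun x hx =>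
      Finset.mem_union_right _ (Finset.mem_biUnion.2 ⟨v, hv, hx⟩)
    have h2 : F v = (al v).toFinset ∪ (be v).toFinset := if_pos hD
    rw [h2] at h1
    exact ⟨fun x hx => h1 x (Finset.mem_union_left _ (List.mem_toFinset.2 hx)),
      fun x hx => h1 x (Finset.mem_union_right _ (List.mem_toFinset.2 hx))⟩
  -- the vertex `v`
  have key : ∃ (v : G.V) (hv : v ∈ V0'), D v ∧
      (subG G V1 E1 hs hr).Reach ⟨G.s e, hs e he⟩ ⟨v, hV v hv⟩ ∧
      (subG G V1 E1 hs hr).Reach ⟨v, hV v hv⟩ ⟨G.s e, hs e he⟩ := by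
    rcases Finset.mem_union.1 he with h0 | h1
    · have hv : G.s e ∈ V0' :=
        Finset.mem_union_right _ (Finset.mem_union_left _ (Finset.mem_image_of_mem _ h0))
      refine ⟨G.s e, hv, ?_, Relation.ReflTransGen.refl, Relation.ReflTransGen.refl⟩
      apply FSub_dat G
      obtain ⟨l, hl⟩ := FSub_path G V1 E1 hs hr _ _ hre
      exact ⟨e :: l, List.cons_ne_nil _ _, rfl, hl⟩
    · obtain ⟨v, hv, hx⟩ := Finset.mem_biUnion.1 h1
      have hD : D v := by
        by_contra hD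
        have h2 : F v = ∅ := if_neg hD
        rw [h2] at hx
        exact absurd hx (Finset.notMem_empty _)
      have h2 : F v = (al v).toFinset ∪ (be v).toFinset := if_pos hD
      rw [h2] at hx
      have hd := hab v hD
      have hEE := hE v hv hD
      have gen : ∀ l : List G.E, IsPath G v l v → (∀ x ∈ l, x ∈ E1) → e ∈ l →
          (subG G V1 E1 hs hr).Reach ⟨G.s e, hs e he⟩ ⟨v, hV v hv⟩ ∧
          (subG G V1 E1 hs hr).Reach ⟨v, hV v hv⟩ ⟨G.s e, hs e he⟩ := by
        intro l hp hl hel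
        obtain ⟨l1, l2, hl12⟩ := List.append_of_mem hel
        rw [hl12] at hp
        obtain ⟨w, hw1, hw2⟩ := (FSub_app G _ _ _ _).1 hp
        have hw3 : G.s e = w := hw2.1
        subst hw3
        refine ⟨FSub_reach G V1 E1 hs hr (e :: l2) ?_ _ _ _ _ hw2,
          FSub_reach G V1 E1 hs hr l1 ?_ _ _ _ _ hw1⟩
        · intro x hx
          exact hl x (by rw [hl12]; exact List.mem_append_right _ hx)
        · intro x hx
          exact hl x (by rw [hl12]; exact List.mem_append_left _ hx)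
      rcases Finset.mem_union.1 hx with hx | hx
      · have := gen (al v) hd.1 hEE.1 (List.mem_toFinset.1 hx)
        exact ⟨v, hv, hD, this⟩
      · have := gen (be v) hd.2.1 hEE.2 (List.mem_toFinset.1 hx)
        exact ⟨v, hv, hD, this⟩
  obtain ⟨v, hv, hD, hr1, hr2⟩ := key
  obtain ⟨hp1, hp2, hcase⟩ := hab v hD
  have hEE := hE v hv hD
  rcases hcase with ⟨γ, f, f', t, t', hff, hl, hl'⟩ | honly
  swap
  · right
    obtain ⟨l, hl⟩ := FSub_sub (al v) hEE.1
    exact ⟨⟨v, hV v hv⟩, l, by rw [hl]; exact honly, hr2, hr1⟩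
  left
  rw [hl] at hp1
  rw [hl'] at hp2
  obtain ⟨w, hw1, hw2⟩ := (FSub_app G _ _ _ _).1 hp1
  obtain ⟨w', hw1', hw2'⟩ := (FSub_app G _ _ _ _).1 hp2
  have hfE : f ∈ E1 := hEE.1 f (by rw [hl]; simp)
  have hfE' : f' ∈ E1 := hEE.2 f' (by rw [hl']; simp)
  have hww : w = w' := by
    have uniq : ∀ (l : List G.E) (u a b : G.V), IsPath G u l a → IsPath G u l b → a = b := by
      intro l
      induction l with
      | nil => intro u a b h1 h2; exact h1.symm.trans h2
      | cons x l ih => intro u a b h1 h2; exact ih _ _ _ h1.2 h2.2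
    exact uniq γ v w w' hw1 hw1'
  subst hww
  have hsf : G.s f = w := hw2.1
  have hsf' : G.s f' = w := hw2'.1
  refine ⟨⟨f, hfE⟩, ⟨f', hfE'⟩, ?_, ?_, ?_, ?_, ?_⟩
  · intro h
    exact hff (congrArg Subtype.val h)
  · exact Subtype.ext (hsf.trans hsf'.symm)
  · refine hr1.trans ?_
    refine FSub_reach G V1 E1 hs hr γ ?_ _ _ _ _ ?_
    · intro x hx
      exact hEE.1 x (by rw [hl]; exact List.mem_append_left _ hx)
    · rw [hsf]; exact hw1
  · refine Relation.ReflTransGen.trans ?_ hr2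
    refine FSub_reach G V1 E1 hs hr t ?_ _ _ _ _ hw2.2
    intro x hx
    exact hEE.1 x (by rw [hl]; exact List.mem_append_right _ (List.mem_cons_of_mem _ hx))
  · refine Relation.ReflTransGen.trans ?_ hr2
    refine FSub_reach G V1 E1 hs hr t' ?_ _ _ _ _ hw2'.2
    intro x hx
    exact hEE.2 x (by rw [hl']; exact List.mem_append_right _ (List.mem_cons_of_mem _ hx))

end Pool.Agent.RIG
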