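import Pool.Agent.RIG.Defs
import Pool.Agent.AUE.NearF

/-!
# HomT: homotopic homomorphisms differ by a unitary and a cocycle on a finite subgraph

PROOF of `hom_cocycle`. Let `H` be the homotopy, `H 0 = φ`, `H 1 = ψ`. For `t : I` put `P^t v = inr (H t (Φ.p v))`,
`S^t e = inr (H t (Φ.s e))` in the unital C*-algebra `Unitization ℂ B`: `IsPrj P^t`, `Fam (subG …) P^t`. They depend
continuously on `t ∈ I` (compact), so uniformly: for every `δ > 0` there is `n > 0` with `‖P^{(i+1)/n} v - P^{i/n} v‖ ≤ δ`,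
`‖S^{(i+1)/n} e - S^{i/n} e‖ ≤ δ` for `i < n`, `v ∈ V1`, `e ∈ E1` (finitely many) (compare the proof of `homotopic_appU`,
aue_HomK.lean in the store). Choose `δ` with `2 * card V1 * δ ≤ 1/4` and
`12 * card E1 * (16 * card V1 * δ + δ) ≤ 1`.
Claim by induction on `i ≤ n`: there are a unitary `U` and `C` with `Ch P^{i/n} C`, `U P^0 v U* = P^{i/n} v`,
`C * (U S^0 e U*) = S^{i/n} e`. `i = 0`: `U = C = 1`. Step: let `P = P^{i/n}`, `P' = P^{(i+1)/n}`, same for `S`. `near_prj`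
gives `u` with `u P v u* = P' v`, `‖u - 1‖ ≤ 8 card V1 δ`. `u S e u*` is a family with projections `P'` and
`‖u S e u* - S' e‖ ≤ 2 ‖u - 1‖ + δ` (`‖S e‖ ≤ 1`). `near_fam` gives `c` with `Ch P' c`, `c * (u S e u*) = S' e`. So
`S' e = c u S e u* = c u C U S^0 e U* u* = (c * (u C u*)) * ((u U) S^0 e (u U)* )`, and `Ch P' (u C u*)` (conjugate
the chain), `Ch.mul`. At `i = n`: `c₀ = star C`: `U S^0 e U* = star C * S^1 e`.
`inr (adU u b) = u * inr b * star u` (`inr_adU`), `inr` is injective.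
-/

namespace Pool.Agent.RIG

open Pool.Agent.AUE Pool.Agent.GHT
open scoped unitInterval

/-- Conjugation of a chain. -/
theorem HomT_conj {V B : Type} [CStarAlgebra B] {P P' : V → B} {w c : B} (b1 : star w * w = 1)
    (b2 : w * star w = 1) (b3 : ∀ v, w * P v * star w = P' v) (hc : Ch P c) :
    Ch P' (w * c * star w) := by
  have hw : w ∈ UD (fun _ : Empty => (0 : B)) := ⟨b1, b2, fun v => v.elim⟩
  have hw' : star w ∈ UD (fun _ : Empty => (0 : B)) :=
    ⟨by rw [star_star]; exact b2, by rw [star_star]; exact b1, fun v => v.elim⟩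
  intro δ hδ
  obtain ⟨n, ζ, h0, hn, hζ, hs⟩ := hc δ hδ
  refine ⟨n, fun i => w * ζ i * star w, ?_, ?_, fun i => ?_, fun i hi => ?_⟩
  · show w * ζ 0 * star w = 1
    rw [h0, mul_one, b2]
  · show w * ζ n * star w = _
    rw [hn]
  · obtain ⟨q1, q2, q3⟩ := hζ i
    refine ⟨?_, ?_, fun v => ?_⟩
    · rw [star_mul, star_mul, star_star]
      calc w * (star (ζ i) * star w) * (w * ζ i * star w)
          = w * (star (ζ i) * (star w * w) * ζ i) * star w := by simp only [mul_assoc]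
        _ = 1 := by rw [b1, mul_one, q1, mul_one, b2]
    · rw [star_mul, star_mul, star_star]
      calc w * ζ i * star w * (w * (star (ζ i) * star w))
          = w * (ζ i * (star w * w) * star (ζ i)) * star w := by simp only [mul_assoc]
        _ = 1 := by rw [b1, mul_one, q2, mul_one, b2]
    · rw [← b3 v]
      calc w * P v * star w * (w * ζ i * star w)
          = w * (P v * (star w * w) * ζ i) * star w := by simp only [mul_assoc]
        _ = w * (ζ i * (star w * w) * P v) * star w := by rw [b1, mul_one, mul_one, q3]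
        _ = _ := by simp only [mul_assoc]
  · show ‖w * ζ (i + 1) * star w - w * ζ i * star w‖ ≤ δ
    rw [← sub_mul, ← mul_sub, norm_mul_UD hw', norm_UD_mul hw]
    exact hs i hi

theorem HomT_step {V : Type} [Fintype V] (G : Gr V) : ∃ δ > 0,
    ∀ (B : Type) [CStarAlgebra B] (P P' : V → B), IsPrj P → IsPrj P' → ∀ (F : Fam G P)
      (F' : Fam G P'), (∀ v, ‖P v - P' v‖ ≤ δ) → (∀ e, ‖F.S e - F'.S e‖ ≤ δ) →
      ∃ u c : B, star u * u = 1 ∧ u * star u = 1 ∧ (∀ v, u * P v * star u = P' v) ∧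
        Ch P' c ∧ ∀ e, c * (u * F.S e * star u) = F'.S e := by
  classical
  set nV : ℝ := ((Fintype.card V : ℕ) : ℝ) with hnV
  set nE : ℝ := ((Fintype.card G.Ed : ℕ) : ℝ) with hnE
  have hV0 : 0 ≤ nV := Nat.cast_nonneg _
  have hE0 : 0 ≤ nE := Nat.cast_nonneg _
  set δ : ℝ := 1 / (12 * (nE + 1) * (16 * nV + 1)) with hδ
  have hden : 0 < 12 * (nE + 1) * (16 * nV + 1) := by positivity
  have hδ0 : 0 < δ := by positivity
  have hδ1 : 12 * (nE + 1) * (16 * nV + 1) * δ = 1 := by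
    rw [hδ]; field_simp
  refine ⟨δ, hδ0, ?_⟩
  intro B _ P P' hP hP' F F' hPd hSd
  have hb1 : 2 * Fintype.card V * δ ≤ 1 / 4 := by
    rw [← hnV]
    have : 0 ≤ nE * nV * δ := by positivity
    have : 0 ≤ nE * δ := by positivity
    have : 0 ≤ nV * δ := by positivity
    nlinarith
  obtain ⟨u₀, hu1, hu2, hu3, hu4⟩ := near_prj hP hP' hb1 hPd
  have hun : ‖u₀‖ ≤ 1 := by
    have hmem : u₀ ∈ UD (fun _ : Empty => (0 : B)) := ⟨hu1, hu2, fun v => v.elim⟩
    exact UD_norm hmem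
  have husn : ‖star u₀‖ ≤ 1 := by rw [norm_star]; exact hun
  let F₁ : Fam G P' :=
    { S := fun e => u₀ * F.S e * star u₀
      star_mul := fun e => by
        rw [← hu4 (G.r e), ← F.star_mul e, star_mul, star_mul, star_star]
        calc u₀ * (star (F.S e) * star u₀) * (u₀ * F.S e * star u₀)
            = u₀ * star (F.S e) * (star u₀ * u₀) * F.S e * star u₀ := by noncomm_ring
          _ = _ := by rw [hu1]; noncomm_ring
      orth := fun e f hef => by
        rw [star_mul, star_mul, star_star]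
        calc u₀ * (star (F.S e) * star u₀) * (u₀ * F.S f * star u₀)
            = u₀ * star (F.S e) * (star u₀ * u₀) * F.S f * star u₀ := by noncomm_ring
          _ = u₀ * (star (F.S e) * F.S f) * star u₀ := by rw [hu1]; noncomm_ring
          _ = 0 := by rw [F.orth e f hef]; simp
      P_mul := fun e => by
        rw [← hu4 (G.s e)]
        calc u₀ * P (G.s e) * star u₀ * (u₀ * F.S e * star u₀)
            = u₀ * P (G.s e) * (star u₀ * u₀) * F.S e * star u₀ := by noncomm_ring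
          _ = u₀ * (P (G.s e) * F.S e) * star u₀ := by rw [hu1]; noncomm_ring
          _ = _ := by rw [F.P_mul] }
  have hF₁ : ∀ e, ‖F₁.S e - F'.S e‖ ≤ 2 * (8 * nV * δ) + δ := by
    intro e
    have e1 : F₁.S e - F'.S e = (u₀ - 1) * F.S e * star u₀ + F.S e * star (u₀ - 1)
        + (F.S e - F'.S e) := by
      show u₀ * F.S e * star u₀ - F'.S e = _
      rw [star_sub, star_one]
      noncomm_ring
    have e2 : ‖(u₀ - 1) * F.S e * star u₀‖ ≤ 8 * nV * δ := by
      calc ‖(u₀ - 1) * F.S e * star u₀‖ ≤ ‖(u₀ - 1) * F.S e‖ * ‖star u₀‖ := norm_mul_le _ _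
        _ ≤ ‖(u₀ - 1) * F.S e‖ * 1 := mul_le_mul_of_nonneg_left husn (norm_nonneg _)
        _ ≤ (‖u₀ - 1‖ * ‖F.S e‖) * 1 := mul_le_mul_of_nonneg_right (norm_mul_le _ _) zero_le_one
        _ ≤ (‖u₀ - 1‖ * 1) * 1 := by
          refine mul_le_mul_of_nonneg_right ?_ zero_le_one
          exact mul_le_mul_of_nonneg_left (F.norm_S_le hP e) (norm_nonneg _)
        _ ≤ 8 * nV * δ := by rw [mul_one, mul_one]; exact hu3
    have e3 : ‖F.S e * star (u₀ - 1)‖ ≤ 8 * nV * δ := by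
      calc ‖F.S e * star (u₀ - 1)‖ ≤ ‖F.S e‖ * ‖star (u₀ - 1)‖ := norm_mul_le _ _
        _ ≤ 1 * ‖star (u₀ - 1)‖ := mul_le_mul_of_nonneg_right (F.norm_S_le hP e) (norm_nonneg _)
        _ ≤ _ := by rw [one_mul, norm_star]; exact hu3
    rw [e1]
    calc _ ≤ ‖(u₀ - 1) * F.S e * star u₀ + F.S e * star (u₀ - 1)‖ + ‖F.S e - F'.S e‖ :=
          norm_add_le _ _
      _ ≤ (‖(u₀ - 1) * F.S e * star u₀‖ + ‖F.S e * star (u₀ - 1)‖) + ‖F.S e - F'.S e‖ :=
          add_le_add_left (norm_add_le _ _) _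
      _ ≤ _ := by linarith [hSd e]
  have hb2 : 12 * Fintype.card G.Ed * (2 * (8 * nV * δ) + δ) ≤ 1 := by
    rw [← hnE]
    have : 12 * nE * (2 * (8 * nV * δ) + δ) = 12 * nE * (16 * nV + 1) * δ := by ring
    rw [this]
    have : 0 ≤ (16 * nV + 1) * δ := by positivity
    nlinarith
  obtain ⟨c, hc, hcS⟩ := near_fam hP' F₁ F' hb2 hF₁
  exact ⟨u₀, c, hu1, hu2, hu4, hc, hcS⟩

section
variable {G : DGraph} {A : Type} [NonUnitalCStarAlgebra A] (Φ : CKFam G A) {B : Type}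
  [NonUnitalCStarAlgebra B] (f : A →⋆ₙₐ[ℂ] B) {V1 : Finset G.V} {E1 : Finset G.E}
  (hs : ∀ e ∈ E1, G.s e ∈ V1) (hr : ∀ e ∈ E1, G.r e ∈ V1)

noncomputable def HomT_P (V1 : Finset G.V) (v : {v : G.V // v ∈ V1}) : Unitization ℂ B :=
  ((f (Φ.p v.1) : B) : Unitization ℂ B)

theorem HomT_P_isPrj : IsPrj (HomT_P Φ f V1) where
  star_eq v := by
    show star ((f (Φ.p v.1) : B) : Unitization ℂ B) = _
    rw [← Unitization.inr_star, ← map_star, Φ.p_star]
    rfl
  mul_self v := by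
    show ((f (Φ.p v.1) : B) : Unitization ℂ B) * ((f (Φ.p v.1) : B) : Unitization ℂ B) = _
    rw [← Unitization.inr_mul, ← map_mul, Φ.p_mul]
    rfl
  orth v w h := by
    show ((f (Φ.p v.1) : B) : Unitization ℂ B) * ((f (Φ.p w.1) : B) : Unitization ℂ B) = _
    rw [← Unitization.inr_mul, ← map_mul, Φ.p_orth v.1 w.1 (fun h' => h (Subtype.ext h')), map_zero,
      Unitization.inr_zero]

noncomputable def HomT_F : Fam (subG G V1 E1 hs hr) (HomT_P Φ f V1) where
  S e := ((f (Φ.s e.1) : B) : Unitization ℂ B)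
  star_mul e := by
    show star ((f (Φ.s e.1) : B) : Unitization ℂ B) * ((f (Φ.s e.1) : B) : Unitization ℂ B) =
      ((f (Φ.p (G.r e.1)) : B) : Unitization ℂ B)
    rw [← Unitization.inr_star, ← map_star, ← Unitization.inr_mul, ← map_mul, Φ.s_star_s]
  orth e e' h := by
    show star ((f (Φ.s e.1) : B) : Unitization ℂ B) * ((f (Φ.s e'.1) : B) : Unitization ℂ B) = 0
    rw [← Unitization.inr_star, ← map_star, ← Unitization.inr_mul, ← map_mul,
      Φ.s_orth e.1 e'.1 (fun h' => h (Subtype.ext h')), map_zero, Unitization.inr_zero]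
  P_mul e := by
    show ((f (Φ.p (G.s e.1)) : B) : Unitization ℂ B) * ((f (Φ.s e.1) : B) : Unitization ℂ B) =
      ((f (Φ.s e.1) : B) : Unitization ℂ B)
    rw [← Unitization.inr_mul, ← map_mul, Φ.p_s]

end


theorem HomT_unif {X : Type} (F : Finset X) {B : Type} [NonUnitalCStarAlgebra B] (g : X → I → B)
    (hg : ∀ x ∈ F, Continuous (g x)) {δ : ℝ} (hδ : 0 < δ) :
    ∃ η > 0, ∀ x ∈ F, ∀ t t' : I, |(t : ℝ) - t'| < η → ‖g x t - g x t'‖ ≤ δ := by
  classical
  induction F using Finset.induction_on with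
  | empty => exact ⟨1, one_pos, fun x hx => absurd hx (Finset.notMem_empty x)⟩
  | insert a F _ ih =>
    obtain ⟨η, hη, h⟩ := ih (fun x hx => hg x (Finset.mem_insert_of_mem hx))
    have hc := CompactSpace.uniformContinuous_of_continuous (hg a (Finset.mem_insert_self a F))
    obtain ⟨η', hη', h'⟩ := Metric.uniformContinuous_iff.1 hc δ hδ
    refine ⟨min η η', lt_min hη hη', fun x hx t t' ht => ?_⟩
    rcases Finset.mem_insert.1 hx with rfl | hx
    · have : dist t t' < η' := by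
        rw [Subtype.dist_eq, Real.dist_eq]
        exact lt_of_lt_of_le ht (min_le_right _ _)
      have := h' this
      rw [dist_eq_norm] at this
      exact this.le
    · exact h x hx t t' (lt_of_lt_of_le ht (min_le_left _ _))

theorem hom_cocycle {G : DGraph} {A B : Type} [NonUnitalCStarAlgebra A] [NonUnitalCStarAlgebra B]
    (Φ : CKFam G A) {φ ψ : A →⋆ₙₐ[ℂ] B} (h : Homotopic φ ψ) (V1 : Finset G.V) (E1 : Finset G.E)
    (hs : ∀ e ∈ E1, G.s e ∈ V1) (hr : ∀ e ∈ E1, G.r e ∈ V1) :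
    ∃ (u : unitary (Unitization ℂ B)) (c : Unitization ℂ B),
      Ch (fun v : {v : G.V // v ∈ V1} => ((ψ (Φ.p v.1) : B) : Unitization ℂ B)) c ∧
      (∀ v ∈ V1, adU u (φ (Φ.p v)) = ψ (Φ.p v)) ∧
      ∀ e ∈ E1, ((adU u (φ (Φ.s e)) : B) : Unitization ℂ B) =
        c * ((ψ (Φ.s e) : B) : Unitization ℂ B) := by
  classical
  obtain ⟨H, hH0, hH1, hHc⟩ := h
  obtain ⟨δ, hδ, hnear⟩ := HomT_step (subG G V1 E1 hs hr)
  obtain ⟨η₁, hη₁, hu₁⟩ := HomT_unif V1 (fun v t => H t (Φ.p v)) (fun v _ => hHc _) hδ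
  obtain ⟨η₂, hη₂, hu₂⟩ := HomT_unif E1 (fun e t => H t (Φ.s e)) (fun v _ => hHc _) hδ
  obtain ⟨n, hn⟩ := exists_nat_one_div_lt (lt_min hη₁ hη₂)
  have hn0 : (0 : ℝ) < (n : ℝ) + 1 := by positivity
  let t : ℕ → I := fun i => Set.projIcc 0 1 zero_le_one ((i : ℝ) / ((n : ℝ) + 1))
  have ht : ∀ i, |((t (i + 1) : I) : ℝ) - ((t i : I) : ℝ)| < min η₁ η₂ := by
    intro i
    refine lt_of_le_of_lt (Set.abs_projIcc_sub_projIcc zero_le_one) ?_
    have : ((i + 1 : ℕ) : ℝ) / ((n : ℝ) + 1) - (i : ℝ) / ((n : ℝ) + 1) = 1 / ((n : ℝ) + 1) := by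
      push_cast
      ring
    rw [this, abs_of_pos (by positivity)]
    exact hn
  have ht0 : t 0 = 0 := by
    show Set.projIcc 0 1 zero_le_one (((0 : ℕ) : ℝ) / ((n : ℝ) + 1)) = 0
    rw [Nat.cast_zero, zero_div]
    exact Set.projIcc_left _
  have ht1 : t (n + 1) = 1 := by
    show Set.projIcc 0 1 zero_le_one (((n + 1 : ℕ) : ℝ) / ((n : ℝ) + 1)) = 1
    rw [Nat.cast_add, Nat.cast_one, div_self hn0.ne']
    exact Set.projIcc_right _
  have key : ∀ k : ℕ, ∃ u c : Unitization ℂ B, star u * u = 1 ∧ u * star u = 1 ∧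
      (∀ v, u * HomT_P Φ (H (t 0)) V1 v * star u = HomT_P Φ (H (t k)) V1 v) ∧
      Ch (HomT_P Φ (H (t k)) V1) c ∧
      ∀ e, c * (u * (HomT_F Φ (H (t 0)) hs hr).S e * star u) = (HomT_F Φ (H (t k)) hs hr).S e := by
    intro k
    induction k with
    | zero =>
      refine ⟨1, 1, by simp, by simp, fun v => by simp, Ch_one, fun e => ?_⟩
      simp
    | succ k ih =>
      obtain ⟨u, c, a1, a2, a3, ac, a4⟩ := ih
      have hP : ∀ v : {v : G.V // v ∈ V1},
          ‖HomT_P Φ (H (t k)) V1 v - HomT_P Φ (H (t (k + 1))) V1 v‖ ≤ δ := by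
        intro v
        show ‖((H (t k) (Φ.p v.1) : B) : Unitization ℂ B) -
          ((H (t (k + 1)) (Φ.p v.1) : B) : Unitization ℂ B)‖ ≤ δ
        rw [← Unitization.inr_sub, Unitization.norm_inr, norm_sub_rev]
        exact hu₁ v.1 v.2 _ _ (lt_of_lt_of_le (ht k) (min_le_left _ _))
      have hS : ∀ e : (subG G V1 E1 hs hr).Ed, ‖(HomT_F Φ (H (t k)) hs hr).S e -
          (HomT_F Φ (H (t (k + 1))) hs hr).S e‖ ≤ δ := by
        intro e
        show ‖((H (t k) (Φ.s e.1) : B) : Unitization ℂ B) -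
          ((H (t (k + 1)) (Φ.s e.1) : B) : Unitization ℂ B)‖ ≤ δ
        rw [← Unitization.inr_sub, Unitization.norm_inr, norm_sub_rev]
        exact hu₂ e.1 e.2 _ _ (lt_of_lt_of_le (ht k) (min_le_right _ _))
      obtain ⟨w, d, b1, b2, b3, bc, b4⟩ := hnear (Unitization ℂ B) (HomT_P Φ (H (t k)) V1)
        (HomT_P Φ (H (t (k + 1))) V1) (HomT_P_isPrj Φ _) (HomT_P_isPrj Φ _)
        (HomT_F Φ (H (t k)) hs hr) (HomT_F Φ (H (t (k + 1))) hs hr) hP hS
      refine ⟨w * u, d * (w * c * star w), ?_, ?_, ?_, ?_, ?_⟩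
      · rw [star_mul, mul_assoc, ← mul_assoc (star w), b1, one_mul, a1]
      · rw [star_mul, mul_assoc, ← mul_assoc u, a2, one_mul, b2]
      · intro v
        rw [← b3 v, ← a3 v, star_mul]
        simp only [mul_assoc]
      · exact bc.mul (HomT_conj b1 b2 b3 ac)
      · intro e
        rw [← b4 e, ← a4 e, star_mul]
        calc d * (w * c * star w) * (w * u * (HomT_F Φ (H (t 0)) hs hr).S e * (star u * star w))
            = d * (w * (c * ((star w * w) * (u * (HomT_F Φ (H (t 0)) hs hr).S e * star u))) *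
                star w) := by simp only [mul_assoc]
          _ = _ := by rw [b1, one_mul]
  obtain ⟨u, c, a1, a2, a3, ac, a4⟩ := key (n + 1)
  rw [ht0, ht1] at a3 a4
  rw [ht1] at ac
  rw [hH0, hH1] at a3 a4
  rw [hH1] at ac
  refine ⟨⟨u, Unitary.mem_iff.2 ⟨a1, a2⟩⟩, star c, ac.star (HomT_P_isPrj Φ ψ), ?_, ?_⟩
  · intro v hv
    apply Unitization.inr_injective (R := ℂ)
    rw [inr_adU]
    exact a3 ⟨v, hv⟩
  · intro e he
    rw [inr_adU]
    have h5 : c * (u * ((φ (Φ.s e) : B) : Unitization ℂ B) * star u) =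
        ((ψ (Φ.s e) : B) : Unitization ℂ B) := a4 ⟨e, he⟩
    show u * ((φ (Φ.s e) : B) : Unitization ℂ B) * star u = _
    rw [← h5, ← mul_assoc (star c), ac.mem.1, one_mul]

end Pool.Agent.RIG
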