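import Pool.Agent.RIG.AppL
import Pool.Agent.RIG.HomT
import Pool.Agent.RIG.FSub

/-!
# AppF: rigid homomorphisms homotopic to the identity are approximately inner

PROOF of `appU_id`. `AppU.of_gens` with `genBy_of_universal Φ hΦ`. Let `s` be a finite set of generators, `ε > 0`. There are
finite `V0`, `E0` with `s ⊆ p '' V0 ∪ s '' E0`. `exists_finite_RG` gives `V1, E1, hs, hr, hG`; `hom_cocycle Φ hψ V1 E1`
gives `u, c`; `sol_fin` gives `SolY`, so `W` with `Ch P W`, `‖(star W * c * th W - 1) * P v‖ ≤ ε` for all `v`. Let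
`u' = star W * u` (unitary). `adU u' = adU (star W) ∘ adU u` (`adU_mul`; `star W` as a unitary). For `v ∈ V1`:
`adU u' (ψ (p v)) = adU (star W) (p v) = p v` (`W` commutes with `inr (p v)`; `inr_adU`, `inr` injective). For `e ∈ E1`, with
`S_e = inr (s e)`: `inr (adU u' (ψ (s e))) = star W * (c * S_e) * W = star W * c * (th W * S_e)` (`th_S`), so
`inr (adU u' (ψ (s e)) - s e) = (star W * c * th W - 1) * S_e = ((star W * c * th W - 1) * P (s e)) * S_e`, norm `≤ ε`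
(`P_mul`, `‖S_e‖ ≤ 1`, `Unitization.norm_inr`).
-/

namespace Pool.Agent.RIG

open Pool.Agent.AUE Pool.Agent.GHT

theorem appU_id {G : DGraph} {A : Type} [NonUnitalCStarAlgebra A] (Φ : CKFam G A)
    (hΦ : Φ.IsUniversal) {ψ : A →⋆ₙₐ[ℂ] A} (hψ : Homotopic ψ (NonUnitalStarAlgHom.id ℂ A))
    (hR : Rgd Φ ψ) : AppU ψ (NonUnitalStarAlgHom.id ℂ A) := by
  classical
  refine AppU.of_gens (genBy_of_universal Φ hΦ) fun s hsX ε hε => ?_
  obtain ⟨V0, hV0⟩ : ∃ V0 : Finset G.V, V0.image Φ.p = s.filter (· ∈ Set.range Φ.p) := by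
    have : ((s.filter (· ∈ Set.range Φ.p) : Finset A) : Set A) ⊆ Φ.p '' Set.univ := by
      intro x hx
      rw [Set.image_univ]
      exact (Finset.mem_filter.1 hx).2
    obtain ⟨V0, -, h0⟩ := Finset.subset_set_image_iff.1 this
    exact ⟨V0, h0⟩
  obtain ⟨E0, hE0⟩ : ∃ E0 : Finset G.E, E0.image Φ.s = s.filter (· ∈ Set.range Φ.s) := by
    have : ((s.filter (· ∈ Set.range Φ.s) : Finset A) : Set A) ⊆ Φ.s '' Set.univ := by
      intro x hx
      rw [Set.image_univ]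
      exact (Finset.mem_filter.1 hx).2
    obtain ⟨E0, -, h0⟩ := Finset.subset_set_image_iff.1 this
    exact ⟨E0, h0⟩
  obtain ⟨V1, E1, hV01, hE01, hs, hr, hG⟩ := exists_finite_RG G V0 E0
  obtain ⟨u, c, hc, hc1, hc2⟩ := hom_cocycle Φ hψ V1 E1 hs hr
  have hc1' : ∀ v ∈ V1, adU u (ψ (Φ.p v)) = Φ.p v := hc1
  have hc2' : ∀ e ∈ E1, ((adU u (ψ (Φ.s e)) : A) : Unitization ℂ A) =
      c * ((Φ.s e : A) : Unitization ℂ A) := hc2
  obtain ⟨W, hW, hWε⟩ := sol_fin Φ hΦ hR hs hr hG u hc hc1' hc2' ε hε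
  obtain ⟨w1, w2, w3⟩ := hW.mem
  have hPrj := canF_isPrj Φ V1
  have hWs : star W ∈ unitary (Unitization ℂ A) :=
    Unitary.mem_iff.2 ⟨by rw [star_star]; exact w2, by rw [star_star]; exact w1⟩
  refine ⟨⟨star W, hWs⟩ * u, fun a ha => ?_⟩
  rw [← Unitization.norm_inr (𝕜 := ℂ), Unitization.inr_sub, adU_mul,
    NonUnitalStarAlgHom.comp_apply, inr_adU]
  show ‖star W * ((adU u (ψ a) : A) : Unitization ℂ A) * star (star W) -
    ((a : A) : Unitization ℂ A)‖ ≤ ε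
  rw [star_star]
  rcases hsX a ha with hp | hp
  · have : a ∈ V0.image Φ.p := by
      rw [hV0]
      exact Finset.mem_filter.2 ⟨ha, hp⟩
    obtain ⟨v, hv, rfl⟩ := Finset.mem_image.1 this
    have e1 : ((Φ.p v : A) : Unitization ℂ A) * W = W * ((Φ.p v : A) : Unitization ℂ A) :=
      w3 ⟨v, hV01 hv⟩
    rw [hc1' v (hV01 hv), mul_assoc, e1, ← mul_assoc, w1, one_mul, sub_self, norm_zero]
    exact hε.le
  · have : a ∈ E0.image Φ.s := by
      rw [hE0]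
      exact Finset.mem_filter.2 ⟨ha, hp⟩
    obtain ⟨e, he, rfl⟩ := Finset.mem_image.1 this
    have he1 := hE01 he
    let F := canF Φ V1 E1 hs hr
    have e2 : F.th W * F.S ⟨e, he1⟩ = F.S ⟨e, he1⟩ * W := F.th_S hPrj w3 ⟨e, he1⟩
    have e3 : ((Φ.s e : A) : Unitization ℂ A) = F.S ⟨e, he1⟩ := rfl
    have e4 : star W * (c * F.S ⟨e, he1⟩) * W - F.S ⟨e, he1⟩ =
        (star W * c * F.th W - 1) * ((Φ.p (G.s e) : A) : Unitization ℂ A) * F.S ⟨e, he1⟩ := by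
      have e5 : ((Φ.p (G.s e) : A) : Unitization ℂ A) * F.S ⟨e, he1⟩ = F.S ⟨e, he1⟩ :=
        F.P_mul ⟨e, he1⟩
      rw [mul_assoc _ _ (F.S ⟨e, he1⟩), e5, sub_mul, one_mul, mul_assoc (star W * c), e2]
      simp only [mul_assoc]
    rw [hc2' e he1, e3, e4]
    have n1 : ‖(star W * c * F.th W - 1) * ((Φ.p (G.s e) : A) : Unitization ℂ A)‖ ≤ ε :=
      hWε ⟨G.s e, hs e he1⟩ (Set.mem_univ _)
    have n2 : ‖F.S ⟨e, he1⟩‖ ≤ 1 := F.norm_S_le hPrj ⟨e, he1⟩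
    calc ‖(star W * c * F.th W - 1) * ((Φ.p (G.s e) : A) : Unitization ℂ A) * F.S ⟨e, he1⟩‖
        ≤ ‖(star W * c * F.th W - 1) * ((Φ.p (G.s e) : A) : Unitization ℂ A)‖ *
          ‖F.S ⟨e, he1⟩‖ := norm_mul_le _ _
      _ ≤ ε * 1 := mul_le_mul n1 n2 (norm_nonneg _) hε.le
      _ = ε := mul_one ε

end Pool.Agent.RIG
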