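import Pool.Agent.RIG.RepC

/-!
# Chi: the evaluation of a rigid cycle

PROOF of `exists_chi`. `exists_rep` gives `H, Ξ, δ`; `D = C(Circle, H →L[ℂ] H)`; `hΦ` gives `π : A →⋆ₙₐ[ℂ] D` with
`π (Φ.p w) = Ξ.p w`, `π (Φ.s e) = Ξ.s e`; `π' = Unitization.starLift π : Unitization ℂ A →⋆ₐ[ℂ] D`,
`π' (inr a) = π a`, contractive (`NonUnitalStarAlgHom.norm_apply_le`). `χ y = (t ↦ ⟪δ, (π' y) t δ⟫)`
(continuous; linear). `‖⟪δ, (π' y) t δ⟫‖ ≤ ‖(π' y) t‖ ≤ ‖π' y‖ ≤ ‖y‖` (`ContinuousMap.norm_le`).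
`χ (star y) = star (χ y)`: `⟪δ, (star S) δ⟫ = ⟪S δ, δ⟫ = conj ⟪δ, S δ⟫`. `χ (y * p * y')`: `(π' p) t ξ = ⟪δ, ξ⟫ • δ`, so
`⟪δ, S (P (S' δ))⟫ = ⟪δ, S' δ⟫ ⟪δ, S δ⟫`. `χ p = ⟪δ, δ⟫ ⟪δ, δ⟫ = 1`. `χ (sp Φ l) = ⟪δ, t • δ⟫ = t`:
`π' (sp Φ l) = (l.map Ξ.s).prod` (`map_list_prod`).
`IsLoop`: `star p = p`, `p p = p`; for a path `l` from `u` to `w`, `l ≠ []`: `star (sp Φ l) * sp Φ l = inr (Φ.p w)`
(induction on `l`: `star (s e * x) * (s e * x) = star x * p (r e) * x`, and `p u * s e = s e` for `u = s e`),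
`inr (Φ.p u) * sp Φ l = sp Φ l`. So with `u = w = v`.
Second: `π y = 0 → π' (inr y) = 0 → χ = 0`. Third: `(π (p y p)) t ξ = ⟪δ, ξ⟫ χ(y)(t) • δ`, so two such operators
commute. Fourth: (`exists_rep`) apply `π`.
-/

namespace Pool.Agent.RIG

open Pool.Agent.AUE Pool.Agent.GHT

theorem Chi_sp_nil {G : DGraph} {A : Type} [NonUnitalCStarAlgebra A] (Φ : CKFam G A) :
    sp Φ [] = 1 := rfl

theorem Chi_sp_cons {G : DGraph} {A : Type} [NonUnitalCStarAlgebra A] (Φ : CKFam G A) (e : G.E)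
    (l : List G.E) : sp Φ (e :: l) = ((Φ.s e : A) : Unitization ℂ A) * sp Φ l := by
  unfold sp
  rw [List.map_cons, List.prod_cons]

theorem Chi_sr {G : DGraph} {A : Type} [NonUnitalCStarAlgebra A] (Ψ : CKFam G A) (e : G.E) :
    Ψ.s e * Ψ.p (G.r e) = Ψ.s e := by
  have h : star (Ψ.s e * Ψ.p (G.r e) - Ψ.s e) * (Ψ.s e * Ψ.p (G.r e) - Ψ.s e) = 0 := by
    rw [star_sub, star_mul, Ψ.p_star]
    have : (Ψ.p (G.r e) * star (Ψ.s e) - star (Ψ.s e)) * (Ψ.s e * Ψ.p (G.r e) - Ψ.s e) =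
      Ψ.p (G.r e) * (star (Ψ.s e) * Ψ.s e) * Ψ.p (G.r e) - Ψ.p (G.r e) * (star (Ψ.s e) * Ψ.s e)
      - (star (Ψ.s e) * Ψ.s e) * Ψ.p (G.r e) + star (Ψ.s e) * Ψ.s e := by noncomm_ring
    rw [this, Ψ.s_star_s, Ψ.p_mul, Ψ.p_mul]
    abel
  rw [CStarRing.star_mul_self_eq_zero_iff] at h
  exact sub_eq_zero.1 h

theorem Chi_path {G : DGraph} {A : Type} [NonUnitalCStarAlgebra A] (Φ : CKFam G A) :
    ∀ (l : List G.E) (u w : G.V), l ≠ [] → IsPath G u l w →
      star (sp Φ l) * sp Φ l = ((Φ.p w : A) : Unitization ℂ A) ∧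
      ((Φ.p u : A) : Unitization ℂ A) * sp Φ l = sp Φ l
  | [], u, w, h, _ => absurd rfl h
  | [e], u, w, _, hp => by
    obtain ⟨h1, h2⟩ := hp
    have h3 : G.r e = w := h2
    rw [Chi_sp_cons, Chi_sp_nil, mul_one, ← h1, ← h3]
    refine ⟨?_, ?_⟩
    · rw [← Unitization.inr_star, ← Unitization.inr_mul, Φ.s_star_s]
    · rw [← Unitization.inr_mul, Φ.p_s]
  | e :: f :: l, u, w, _, hp => by
    obtain ⟨h1, h2⟩ := hp
    obtain ⟨h3, h4⟩ := Chi_path Φ (f :: l) (G.r e) w (by simp) h2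
    rw [Chi_sp_cons Φ e (f :: l), ← h1]
    refine ⟨?_, ?_⟩
    · rw [star_mul, mul_assoc, ← mul_assoc (star ((Φ.s e : A) : Unitization ℂ A)), ← Unitization.inr_star,
        ← Unitization.inr_mul, Φ.s_star_s, h4, h3]
    · rw [← mul_assoc, ← Unitization.inr_mul, Φ.p_s]

theorem isLoop_sp {G : DGraph} {v : G.V} {l : List G.E} (hl : l ≠ []) (h : IsPath G v l v)
    {A : Type} [NonUnitalCStarAlgebra A] (Φ : CKFam G A) :
    IsLoop ((Φ.p v : A) : Unitization ℂ A) (sp Φ l) := by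
  obtain ⟨h1, h2⟩ := Chi_path Φ l v v hl h
  refine ⟨?_, ?_, h1, h2⟩
  · rw [← Unitization.inr_star, Φ.p_star]
  · rw [← Unitization.inr_mul, Φ.p_mul]

/-- the evaluation -/
noncomputable def Chi_chi {H : Type} [NormedAddCommGroup H] [InnerProductSpace ℂ H] [CompleteSpace H]
    {B : Type} [CStarAlgebra B] (π : B →⋆ₐ[ℂ] C(Circle, H →L[ℂ] H)) (δ : H) : B →ₗ[ℂ] C(Circle, ℂ) where
  toFun y := ⟨fun t => inner ℂ δ ((π y) t δ),
    Continuous.inner continuous_const ((π y).continuous.clm_apply continuous_const)⟩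
  map_add' y y' := by
    ext t
    simp
  map_smul' c y := by
    ext t
    simp

theorem Chi_apply {H : Type} [NormedAddCommGroup H] [InnerProductSpace ℂ H] [CompleteSpace H]
    {B : Type} [CStarAlgebra B] (π : B →⋆ₐ[ℂ] C(Circle, H →L[ℂ] H)) (δ : H) (y : B) (t : Circle) :
    Chi_chi π δ y t = inner ℂ δ ((π y) t δ) := rfl

theorem exists_chi {G : DGraph} {v : G.V} {l : List G.E} (h : OnlyReturn G v l) {A : Type}
    [NonUnitalCStarAlgebra A] (Φ : CKFam G A) (hΦ : Φ.IsUniversal) :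
    ∃ (D : Type) (_ : CStarAlgebra D) (π : A →⋆ₙₐ[ℂ] D)
      (E : Ev ((Φ.p v : A) : Unitization ℂ A) (sp Φ l)),
      (∀ y : A, π y = 0 → E.χ (y : Unitization ℂ A) = 0) ∧
      (∀ y y' : A, π (Φ.p v * y * Φ.p v) * π (Φ.p v * y' * Φ.p v) =
        π (Φ.p v * y' * Φ.p v) * π (Φ.p v * y * Φ.p v)) ∧
      ∀ e ∈ l, π (Φ.p (G.s e)) = π (Φ.s e * star (Φ.s e)) := by
  obtain ⟨H, i1, i2, i3, Ξ, δ, hδ, hp, hl, he⟩ := exists_rep h
  obtain ⟨π, ⟨hπp, hπs⟩, -⟩ := hΦ C(Circle, H →L[ℂ] H) Ξ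
  have hπ' : ∀ a : A, Unitization.starLift π (a : Unitization ℂ A) = π a := by
    intro a
    have h1 := Unitization.starLift_symm_apply_apply (R := ℂ) (Unitization.starLift π) a
    rw [Equiv.symm_apply_apply] at h1
    exact h1.symm
  have hdd : inner ℂ δ δ = (1 : ℂ) := by
    rw [inner_self_eq_norm_sq_to_K, hδ]
    simp
  have hsp : ∀ m : List G.E, Unitization.starLift π (sp Φ m) = (m.map Ξ.s).prod := by
    intro m
    induction m with
    | nil => rw [Chi_sp_nil, map_one]; rfl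
    | cons e m ih => rw [Chi_sp_cons, map_mul, ih, hπ', hπs, List.map_cons, List.prod_cons]
  have hpp : ∀ t ξ, (Unitization.starLift π ((Φ.p v : A) : Unitization ℂ A)) t ξ = inner ℂ δ ξ • δ := by
    intro t ξ
    rw [hπ', hπp]
    exact hp t ξ
  refine ⟨C(Circle, H →L[ℂ] H), inferInstance, π,
    { toIsLoop := isLoop_sp h.1.1 h.1.2.1 Φ
      χ := Chi_chi (Unitization.starLift π) δ
      norm_le := ?_
      map_star := ?_
      map_mul := ?_
      map_p := ?_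
      map_T := ?_ }, ?_, ?_, ?_⟩
  · intro y
    rw [ContinuousMap.norm_le _ (norm_nonneg y)]
    intro t
    rw [Chi_apply]
    calc ‖inner ℂ δ ((Unitization.starLift π y) t δ)‖ ≤ ‖δ‖ * ‖(Unitization.starLift π y) t δ‖ :=
          norm_inner_le_norm _ _
      _ ≤ ‖(Unitization.starLift π y) t‖ * ‖δ‖ := by
          rw [hδ, one_mul]
          have := ((Unitization.starLift π y) t).le_opNorm δ
          rwa [hδ] at this
      _ = ‖(Unitization.starLift π y) t‖ := by rw [hδ, mul_one]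
      _ ≤ ‖Unitization.starLift π y‖ := ContinuousMap.norm_coe_le_norm _ t
      _ ≤ ‖y‖ := NonUnitalStarAlgHom.norm_apply_le (Unitization.starLift π) y
  · intro y
    ext t
    rw [Chi_apply, map_star]
    show inner ℂ δ ((star ((Unitization.starLift π y) t)) δ) = star (inner ℂ δ ((Unitization.starLift π y) t δ))
    rw [ContinuousLinearMap.star_eq_adjoint, ContinuousLinearMap.adjoint_inner_right]
    exact (inner_conj_symm _ _).symm
  · intro y y'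
    ext t
    rw [ContinuousMap.mul_apply, Chi_apply, Chi_apply, Chi_apply, map_mul, map_mul, ContinuousMap.mul_apply,
      ContinuousMap.mul_apply]
    show inner ℂ δ (((Unitization.starLift π y) t) (((Unitization.starLift π (Φ.p v : A)) t)
      (((Unitization.starLift π y') t) δ))) = _
    rw [hpp, map_smul, inner_smul_right, mul_comm]
  · ext t
    rw [Chi_apply, hpp, hdd, one_smul, hdd]
    rfl
  · ext t
    rw [Chi_apply, hsp, hl, inner_smul_right, hdd, mul_one]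
    rfl
  · intro y hy
    show Chi_chi (Unitization.starLift π) δ _ = 0
    ext t
    rw [Chi_apply, hπ', hy]
    simp
  · intro y y'
    have h1 : ∀ (y : A) (t : Circle) (ξ : H), (π (Φ.p v * y * Φ.p v)) t ξ =
        (inner ℂ δ ξ * inner ℂ δ ((π y) t δ)) • δ := by
      intro y t ξ
      rw [map_mul, map_mul, hπp]
      show (Ξ.p v t) ((π y t) ((Ξ.p v t) ξ)) = _
      rw [hp, hp, map_smul, inner_smul_right]
    ext t ξ
    show (π (Φ.p v * y * Φ.p v)) t ((π (Φ.p v * y' * Φ.p v)) t ξ) =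
      (π (Φ.p v * y' * Φ.p v)) t ((π (Φ.p v * y * Φ.p v)) t ξ)
    rw [h1, h1, h1, h1, inner_smul_right, inner_smul_right, hdd]
    congr 1
    ring
  · intro e hel
    rw [hπp, he e hel, map_mul, map_star, hπs]

end Pool.Agent.RIG
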