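import Pool.Agent.RIG.PwB
import Pool.Agent.AUE.Univ

/-!
# Mon: the span of the monomials is dense

`mon Φ μ w ν = s_μ p_w s_ν*` (in the unitization), for paths `μ, ν` ending at `w`.

PROOF of `mon_dense`. Let `M` be the span of the monomials in `Unitization ℂ A`. (1) `M` is closed under
`x ↦ star x` (`star (mon μ w ν) = mon ν w μ`). (2) Left multiplication by generators: `inr (p u) * M ⊆ M`
(`p u * mon μ w ν = mon μ w ν` or `0`: for `μ = []`: `p u * p w`; for `μ = e :: μ'`: `p u * s e = s e` if `u = s e`,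
`0` otherwise). `inr (s e) * mon μ w ν`: `μ` is a path from some `u`; if `u = r e` it is `mon (e :: μ) w ν`,
otherwise it is `0` (`s e * p (r e) * p u * …`, where `s e = s e * p (r e)`). `inr (star (s e)) * mon μ w ν`:
`μ = f :: μ'`: `0` if `e ≠ f`, `p (r e) * mon μ' w ν ∈ M` if `e = f`; `μ = []`: `star (s e) * p w * star (s_ν)`:
`0` if `w ≠ s e`, otherwise `star (s e) * star (s_ν) = star (s_ν * s e) = mon [] (r e) (ν ++ [e])`
(`s_ν s_e = s_ν s_e p (r e)`).
(3) For `x` in `adjoin (range p ∪ range s)`: the predicate `inr x ∈ M ∧ inr (star x) ∈ M ∧ (∀ m ∈ M, inr x * m ∈ M ∧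
inr (star x) * m ∈ M)` holds for generators (`s e = mon [e] (r e) []`, `p w = mon [] w []`), is closed under sums,
scalars, star and products: `NonUnitalStarAlgebra.adjoin_induction`.
(4) `adjoin` is dense in `A` (`genBy_of_universal`), `inr` is continuous (isometric), so `inr A ⊆ closure M`, and
with `1` in the set every `c • 1 + inr a` is in the closure of `span ({1} ∪ monomials)`.
`mon_dense` is stated with a closed subspace: if a closed submodule contains `1` and all monomials then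
it is everything.
-/

namespace Pool.Agent.RIG

open Pool.Agent.AUE Pool.Agent.GHT

/-- The monomials. -/
noncomputable def mon {G : DGraph} {A : Type} [NonUnitalCStarAlgebra A] (Φ : CKFam G A)
    (μ : List G.E) (w : G.V) (ν : List G.E) : Unitization ℂ A :=
  sp Φ μ * ((Φ.p w : A) : Unitization ℂ A) * star (sp Φ ν)

theorem Mon_sp_cons {G : DGraph} {A : Type} [NonUnitalCStarAlgebra A] (Φ : CKFam G A) (e : G.E)
    (l : List G.E) : sp Φ (e :: l) = ((Φ.s e : A) : Unitization ℂ A) * sp Φ l := by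
  unfold sp
  rw [List.map_cons, List.prod_cons]

theorem Mon_sp_snoc {G : DGraph} {A : Type} [NonUnitalCStarAlgebra A] (Φ : CKFam G A) (e : G.E)
    (l : List G.E) : sp Φ (l ++ [e]) = sp Φ l * ((Φ.s e : A) : Unitization ℂ A) := by
  unfold sp
  rw [List.map_append, List.prod_append, List.map_singleton, List.prod_singleton]

theorem Mon_sr {G : DGraph} {A : Type} [NonUnitalCStarAlgebra A] (Ψ : CKFam G A) (e : G.E) :
    Ψ.s e * Ψ.p (G.r e) = Ψ.s e := by
  have h : star (Ψ.s e * Ψ.p (G.r e) - Ψ.s e) * (Ψ.s e * Ψ.p (G.r e) - Ψ.s e) = 0 := by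
    rw [star_sub, star_mul, Ψ.p_star]
    have : (Ψ.p (G.r e) * star (Ψ.s e) - star (Ψ.s e)) * (Ψ.s e * Ψ.p (G.r e) - Ψ.s e) =
      Ψ.p (G.r e) * (star (Ψ.s e) * Ψ.s e) * Ψ.p (G.r e) - Ψ.p (G.r e) * (star (Ψ.s e) * Ψ.s e)
      - (star (Ψ.s e) * Ψ.s e) * Ψ.p (G.r e) + star (Ψ.s e) * Ψ.s e := by noncomm_ring
    rw [this, Ψ.s_star_s, Ψ.p_mul, Ψ.p_mul]
    abel
  rw [CStarRing.star_mul_self_eq_zero_iff] at h
  exact sub_eq_zero.1 h

/-- the set of monomials -/
def Mon_S {G : DGraph} {A : Type} [NonUnitalCStarAlgebra A] (Φ : CKFam G A) :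
    Submodule ℂ (Unitization ℂ A) :=
  Submodule.span ℂ {m | ∃ u w u' μ ν, IsPath G u μ w ∧ IsPath G u' ν w ∧ m = mon Φ μ w ν}

theorem Mon_mem {G : DGraph} {A : Type} [NonUnitalCStarAlgebra A] (Φ : CKFam G A) {u w u' : G.V}
    {μ ν : List G.E} (h : IsPath G u μ w) (h' : IsPath G u' ν w) : mon Φ μ w ν ∈ Mon_S Φ :=
  Submodule.subset_span ⟨u, w, u', μ, ν, h, h', rfl⟩

theorem Mon_pl {G : DGraph} {A : Type} [NonUnitalCStarAlgebra A] (Φ : CKFam G A) {u w : G.V}
    {μ : List G.E} (h : IsPath G u μ w) (ν : List G.E) :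
    ((Φ.p u : A) : Unitization ℂ A) * mon Φ μ w ν = mon Φ μ w ν := by
  unfold mon
  cases μ with
  | nil =>
    have h1 : u = w := h
    rw [h1]
    have h2 : sp Φ [] = 1 := rfl
    rw [h2, one_mul, ← mul_assoc, ← Unitization.inr_mul, Φ.p_mul]
  | cons e l =>
    rw [Mon_sp_cons, ← h.1, ← mul_assoc, ← mul_assoc, ← mul_assoc, ← Unitization.inr_mul, Φ.p_s]

theorem Mon_p {G : DGraph} {A : Type} [NonUnitalCStarAlgebra A] (Φ : CKFam G A) {u w u' : G.V}
    {μ ν : List G.E} (h : IsPath G u μ w) (h' : IsPath G u' ν w) (v : G.V) :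
    ((Φ.p v : A) : Unitization ℂ A) * mon Φ μ w ν ∈ Mon_S Φ := by
  by_cases hv : v = u
  · rw [hv, Mon_pl Φ h]
    exact Mon_mem Φ h h'
  · rw [← Mon_pl Φ h, ← mul_assoc, ← Unitization.inr_mul, Φ.p_orth v u hv, Unitization.inr_zero, zero_mul]
    exact Submodule.zero_mem _

theorem Mon_s {G : DGraph} {A : Type} [NonUnitalCStarAlgebra A] (Φ : CKFam G A) {u w u' : G.V}
    {μ ν : List G.E} (h : IsPath G u μ w) (h' : IsPath G u' ν w) (e : G.E) :
    ((Φ.s e : A) : Unitization ℂ A) * mon Φ μ w ν ∈ Mon_S Φ := by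
  by_cases hv : G.r e = u
  · have h1 : ((Φ.s e : A) : Unitization ℂ A) * mon Φ μ w ν = mon Φ (e :: μ) w ν := by
      unfold mon
      rw [Mon_sp_cons, mul_assoc, mul_assoc, mul_assoc]
    rw [h1]
    refine Mon_mem Φ (u := G.s e) ⟨rfl, ?_⟩ h'
    rw [hv]
    exact h
  · rw [← Mon_pl Φ h, ← Mon_sr Φ e, Unitization.inr_mul, mul_assoc, ← mul_assoc ((Φ.p (G.r e) : A) : Unitization ℂ A),
      ← Unitization.inr_mul, Φ.p_orth _ u hv, Unitization.inr_zero, zero_mul, mul_zero]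
    exact Submodule.zero_mem _

theorem Mon_t {G : DGraph} {A : Type} [NonUnitalCStarAlgebra A] (Φ : CKFam G A) {u w u' : G.V}
    {μ ν : List G.E} (h : IsPath G u μ w) (h' : IsPath G u' ν w) (e : G.E) :
    ((star (Φ.s e) : A) : Unitization ℂ A) * mon Φ μ w ν ∈ Mon_S Φ := by
  cases μ with
  | cons f l =>
    by_cases hef : e = f
    · have h1 : ((star (Φ.s e) : A) : Unitization ℂ A) * mon Φ (f :: l) w ν =
          ((Φ.p (G.r e) : A) : Unitization ℂ A) * mon Φ l w ν := by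
        unfold mon
        rw [Mon_sp_cons, ← hef, ← mul_assoc, ← mul_assoc, ← mul_assoc, ← Unitization.inr_mul, Φ.s_star_s, ← mul_assoc,
          ← mul_assoc]
      rw [h1]
      exact Mon_p Φ h.2 h' _
    · have h1 : ((star (Φ.s e) : A) : Unitization ℂ A) * mon Φ (f :: l) w ν = 0 := by
        unfold mon
        rw [Mon_sp_cons, ← mul_assoc, ← mul_assoc, ← mul_assoc, ← Unitization.inr_mul, Φ.s_orth e f hef,
          Unitization.inr_zero, zero_mul, zero_mul, zero_mul]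
      rw [h1]
      exact Submodule.zero_mem _
  | nil =>
    have h2 : sp Φ [] = 1 := rfl
    by_cases hw : G.s e = w
    · have h1 : ((star (Φ.s e) : A) : Unitization ℂ A) * mon Φ [] w ν = mon Φ [] (G.r e) (ν ++ [e]) := by
        unfold mon
        have h3 : star (Φ.s e) * Φ.p (G.s e) = star (Φ.s e) := by
          have := congrArg star (Φ.p_s e)
          rwa [star_mul, Φ.p_star] at this
        have h4 : Φ.p (G.r e) * star (Φ.s e) = star (Φ.s e) := by
          have := congrArg star (Mon_sr Φ e)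
          rwa [star_mul, Φ.p_star] at this
        rw [h2, one_mul, one_mul, ← hw, ← mul_assoc, ← Unitization.inr_mul, h3, Mon_sp_snoc, star_mul,
          ← Unitization.inr_star, ← mul_assoc, ← Unitization.inr_mul, h4]
      rw [h1]
      refine Mon_mem Φ (u := G.r e) (u' := u') (show IsPath G (G.r e) [] (G.r e) from rfl) ?_
      rw [ip_append]
      exact ⟨w, h', hw, rfl⟩
    · have h1 : ((star (Φ.s e) : A) : Unitization ℂ A) * mon Φ [] w ν = 0 := by
        unfold mon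
        have h3 : star (Φ.s e) * Φ.p w = 0 := by
          have := congrArg star (Φ.p_s e)
          rw [star_mul, Φ.p_star] at this
          rw [← this, mul_assoc, Φ.p_orth _ _ hw, mul_zero]
        rw [h2, one_mul, ← mul_assoc, ← Unitization.inr_mul, h3, Unitization.inr_zero, zero_mul]
      rw [h1]
      exact Submodule.zero_mem _

theorem Mon_mul {G : DGraph} {A : Type} [NonUnitalCStarAlgebra A] (Φ : CKFam G A) {x : Unitization ℂ A}
    (h : ∀ u w u' μ ν, IsPath G u μ w → IsPath G u' ν w → x * mon Φ μ w ν ∈ Mon_S Φ) {m : Unitization ℂ A}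
    (hm : m ∈ Mon_S Φ) : x * m ∈ Mon_S Φ := by
  refine Submodule.span_induction (p := fun m _ => x * m ∈ Mon_S Φ) ?_ ?_ ?_ ?_ hm
  · rintro _ ⟨u, w, u', μ, ν, h1, h2, rfl⟩
    exact h u w u' μ ν h1 h2
  · rw [mul_zero]
    exact Submodule.zero_mem _
  · intro a b _ _ ha hb
    rw [mul_add]
    exact Submodule.add_mem _ ha hb
  · intro c a _ ha
    rw [mul_smul_comm]
    exact Submodule.smul_mem _ c ha

theorem Mon_adj {G : DGraph} {A : Type} [NonUnitalCStarAlgebra A] (Φ : CKFam G A) {x : A}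
    (hx : x ∈ NonUnitalStarAlgebra.adjoin ℂ (Set.range Φ.p ∪ Set.range Φ.s)) :
    (x : Unitization ℂ A) ∈ Mon_S Φ ∧ ((star x : A) : Unitization ℂ A) ∈ Mon_S Φ ∧
      (∀ m ∈ Mon_S Φ, (x : Unitization ℂ A) * m ∈ Mon_S Φ) ∧
      ∀ m ∈ Mon_S Φ, ((star x : A) : Unitization ℂ A) * m ∈ Mon_S Φ := by
  refine NonUnitalStarAlgebra.adjoin_induction (R := ℂ) (p := fun (x : A) _ =>
    (x : Unitization ℂ A) ∈ Mon_S Φ ∧ ((star x : A) : Unitization ℂ A) ∈ Mon_S Φ ∧
      (∀ m ∈ Mon_S Φ, (x : Unitization ℂ A) * m ∈ Mon_S Φ) ∧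
      ∀ m ∈ Mon_S Φ, ((star x : A) : Unitization ℂ A) * m ∈ Mon_S Φ) ?_ ?_ ?_ ?_ ?_ ?_ hx
  · rintro x (⟨v, rfl⟩ | ⟨e, rfl⟩)
    · have h1 : ((Φ.p v : A) : Unitization ℂ A) = mon Φ [] v [] := by
        have h2 : sp Φ [] = 1 := rfl
        unfold mon
        rw [h2, one_mul, star_one, mul_one]
      rw [Φ.p_star]
      have h3 : ((Φ.p v : A) : Unitization ℂ A) ∈ Mon_S Φ := by
        rw [h1]
        exact Mon_mem Φ (u := v) (u' := v) rfl rfl
      exact ⟨h3, h3, fun m hm => Mon_mul Φ (fun u w u' μ ν a b => Mon_p Φ a b v) hm,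
        fun m hm => Mon_mul Φ (fun u w u' μ ν a b => Mon_p Φ a b v) hm⟩
    · have h2 : sp Φ [] = 1 := rfl
      have h4 : sp Φ [e] = ((Φ.s e : A) : Unitization ℂ A) := by rw [Mon_sp_cons, h2, mul_one]
      have h1 : ((Φ.s e : A) : Unitization ℂ A) = mon Φ [e] (G.r e) [] := by
        unfold mon
        rw [h4, h2, star_one, mul_one, ← Unitization.inr_mul, Mon_sr]
      have h3 : ((star (Φ.s e) : A) : Unitization ℂ A) = mon Φ [] (G.r e) [e] := by
        unfold mon
        have h5 := congrArg star (Mon_sr Φ e)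
        rw [star_mul, Φ.p_star] at h5
        rw [h4, h2, one_mul, ← Unitization.inr_star, ← Unitization.inr_mul, h5]
      refine ⟨?_, ?_, fun m hm => Mon_mul Φ (fun u w u' μ ν a b => Mon_s Φ a b e) hm,
        fun m hm => Mon_mul Φ (fun u w u' μ ν a b => Mon_t Φ a b e) hm⟩
      · rw [h1]
        exact Mon_mem Φ (u := G.s e) (u' := G.r e) ⟨rfl, rfl⟩ rfl
      · rw [h3]
        exact Mon_mem Φ (u := G.r e) (u' := G.s e) rfl ⟨rfl, rfl⟩
  · rintro x y _ _ ⟨h1, h2, h3, h4⟩ ⟨k1, k2, k3, k4⟩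
    rw [star_add, Unitization.inr_add, Unitization.inr_add]
    refine ⟨Submodule.add_mem _ h1 k1, Submodule.add_mem _ h2 k2, fun m hm => ?_, fun m hm => ?_⟩
    · rw [add_mul]
      exact Submodule.add_mem _ (h3 m hm) (k3 m hm)
    · rw [add_mul]
      exact Submodule.add_mem _ (h4 m hm) (k4 m hm)
  · rw [star_zero, Unitization.inr_zero]
    refine ⟨Submodule.zero_mem _, Submodule.zero_mem _, fun m hm => ?_, fun m hm => ?_⟩
    · rw [zero_mul]
      exact Submodule.zero_mem _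
    · rw [zero_mul]
      exact Submodule.zero_mem _
  · rintro x y _ _ ⟨h1, h2, h3, h4⟩ ⟨k1, k2, k3, k4⟩
    rw [star_mul, Unitization.inr_mul, Unitization.inr_mul]
    refine ⟨h3 _ k1, k4 _ h2, fun m hm => ?_, fun m hm => ?_⟩
    · rw [mul_assoc]
      exact h3 _ (k3 m hm)
    · rw [mul_assoc]
      exact k4 _ (h4 m hm)
  · rintro r x _ ⟨h1, h2, h3, h4⟩
    rw [star_smul, Unitization.inr_smul, Unitization.inr_smul]
    refine ⟨Submodule.smul_mem _ _ h1, Submodule.smul_mem _ _ h2, fun m hm => ?_, fun m hm => ?_⟩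
    · rw [smul_mul_assoc]
      exact Submodule.smul_mem _ _ (h3 m hm)
    · rw [smul_mul_assoc]
      exact Submodule.smul_mem _ _ (h4 m hm)
  · rintro x _ ⟨h1, h2, h3, h4⟩
    rw [star_star]
    exact ⟨h2, h1, h4, h3⟩

theorem mon_dense {G : DGraph} {A : Type} [NonUnitalCStarAlgebra A] (Φ : CKFam G A)
    (hΦ : Φ.IsUniversal) (M : Submodule ℂ (Unitization ℂ A))
    (hM : IsClosed (M : Set (Unitization ℂ A))) (h1 : (1 : Unitization ℂ A) ∈ M)
    (h2 : ∀ u w u' μ ν, IsPath G u μ w → IsPath G u' ν w → mon Φ μ w ν ∈ M)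
    (x : Unitization ℂ A) : x ∈ M := by
  have hS : Mon_S Φ ≤ M := by
    refine Submodule.span_le.2 ?_
    rintro _ ⟨u, w, u', μ, ν, h3, h4, rfl⟩
    exact h2 u w u' μ ν h3 h4
  have hcl : IsClosed {a : A | (a : Unitization ℂ A) ∈ M} :=
    hM.preimage (Unitization.isometry_inr (𝕜 := ℂ)).continuous
  have hall : ∀ a : A, (a : Unitization ℂ A) ∈ M := by
    intro a
    have h3 : closure ((NonUnitalStarAlgebra.adjoin ℂ (Set.range Φ.p ∪ Set.range Φ.s) :
        NonUnitalStarSubalgebra ℂ A) : Set A) ⊆ {a : A | (a : Unitization ℂ A) ∈ M} :=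
      closure_minimal (fun b hb => hS (Mon_adj Φ hb).1) hcl
    exact h3 (genBy_of_universal Φ hΦ a)
  rw [← Unitization.inl_fst_add_inr_snd_eq x]
  refine Submodule.add_mem _ ?_ (hall _)
  have h3 : (Unitization.inl x.fst : Unitization ℂ A) = x.fst • (1 : Unitization ℂ A) := by
    rw [← Algebra.algebraMap_eq_smul_one]
    rfl
  rw [h3]
  exact Submodule.smul_mem _ _ h1

end Pool.Agent.RIG
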