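import Pool.Agent.RIG.EvB
import Pool.Agent.RIG.Mon
import Pool.Agent.RIG.Chi

/-!
# ApxA: monomials far out on the loop of a rigid cycle

NOTATION. `p = inr (Φ.p v)`, `T = sp Φ l` (`IsLoop p T` by `isLoop_sp`), `E_k = Em p T k`.

PROOF of `mon_exact`. (1) If `u ≠ v` or `u' ≠ v`: `p * mon * p = 0`. (2) `u = u' = v`: `p * mon * p = mon`.
If `lpow l b = ν ++ κ` and `lpow l a = μ ++ κ`: `mon * E_k = T^a p star (T^b) E_k` for `k ≥ b` (`ApxA_pre`). If `μ` and `ν`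
both branch off from `lpow l K`: `star (sp μ) T^K = 0`, both products vanish.
-/

namespace Pool.Agent.RIG

open Pool.Agent.AUE Pool.Agent.GHT

theorem sp_append {G : DGraph} {A : Type} [NonUnitalCStarAlgebra A] (Φ : CKFam G A)
    (l l' : List G.E) : sp Φ (l ++ l') = sp Φ l * sp Φ l' := by
  simp [sp]

theorem sp_lpow {G : DGraph} {A : Type} [NonUnitalCStarAlgebra A] (Φ : CKFam G A)
    (l : List G.E) (k : ℕ) : sp Φ (lpow l k) = sp Φ l ^ k := by
  induction k with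
  | zero => simp [lpow, sp]
  | succ k ih => rw [lpow, sp_append, ih, pow_succ']

section

variable {G : DGraph} {A : Type} [NonUnitalCStarAlgebra A] (Φ : CKFam G A)

/-- the projection of a vertex, in the unitization -/
noncomputable def ApxA_P (v : G.V) : Unitization ℂ A := ((Φ.p v : A) : Unitization ℂ A)

/-- the partial isometry of an edge, in the unitization -/
noncomputable def ApxA_S (e : G.E) : Unitization ℂ A := ((Φ.s e : A) : Unitization ℂ A)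

theorem ApxA_PP (v : G.V) : ApxA_P Φ v * ApxA_P Φ v = ApxA_P Φ v := by
  unfold ApxA_P
  rw [← Unitization.inr_mul, Φ.p_mul]

theorem ApxA_Po {v w : G.V} (h : v ≠ w) : ApxA_P Φ v * ApxA_P Φ w = 0 := by
  unfold ApxA_P
  rw [← Unitization.inr_mul, Φ.p_orth v w h, Unitization.inr_zero]

theorem ApxA_star (v : G.V) : star (ApxA_P Φ v) = ApxA_P Φ v := by
  unfold ApxA_P
  rw [← Unitization.inr_star, Φ.p_star]

theorem ApxA_PS (e : G.E) : ApxA_P Φ (G.s e) * ApxA_S Φ e = ApxA_S Φ e := by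
  unfold ApxA_P ApxA_S
  rw [← Unitization.inr_mul, Φ.p_s]

theorem ApxA_SS (e : G.E) : star (ApxA_S Φ e) * ApxA_S Φ e = ApxA_P Φ (G.r e) := by
  unfold ApxA_P ApxA_S
  rw [← Unitization.inr_star, ← Unitization.inr_mul, Φ.s_star_s]

theorem ApxA_So {e f : G.E} (h : e ≠ f) : star (ApxA_S Φ e) * ApxA_S Φ f = 0 := by
  unfold ApxA_S
  rw [← Unitization.inr_star, ← Unitization.inr_mul, Φ.s_orth e f h, Unitization.inr_zero]

theorem ApxA_SP (e : G.E) : ApxA_S Φ e * ApxA_P Φ (G.r e) = ApxA_S Φ e := by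
  have h : star (ApxA_S Φ e * ApxA_P Φ (G.r e) - ApxA_S Φ e) *
      (ApxA_S Φ e * ApxA_P Φ (G.r e) - ApxA_S Φ e) = 0 := by
    rw [star_sub, star_mul, ApxA_star, sub_mul, mul_sub, mul_sub]
    have e1 : ApxA_P Φ (G.r e) * star (ApxA_S Φ e) * (ApxA_S Φ e * ApxA_P Φ (G.r e)) =
        ApxA_P Φ (G.r e) := by
      rw [mul_assoc, ← mul_assoc (star (ApxA_S Φ e)), ApxA_SS, ApxA_PP, ApxA_PP]
    have e2 : ApxA_P Φ (G.r e) * star (ApxA_S Φ e) * ApxA_S Φ e = ApxA_P Φ (G.r e) := by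
      rw [mul_assoc, ApxA_SS, ApxA_PP]
    have e3 : star (ApxA_S Φ e) * (ApxA_S Φ e * ApxA_P Φ (G.r e)) = ApxA_P Φ (G.r e) := by
      rw [← mul_assoc, ApxA_SS, ApxA_PP]
    rw [e1, e2, e3, ApxA_SS]
    simp
  rw [CStarRing.star_mul_self_eq_zero_iff] at h
  exact sub_eq_zero.1 h

theorem ApxA_cons (e : G.E) (μ : List G.E) : sp Φ (e :: μ) = ApxA_S Φ e * sp Φ μ := by
  simp [sp, ApxA_S]

theorem ApxA_nil : sp Φ [] = 1 := by simp [sp]

/-- `P u * sp μ = sp μ * P w` for a path `μ` from `u` to `w` -/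
theorem ApxA_comm {u w : G.V} {μ : List G.E} (h : IsPath G u μ w) :
    ApxA_P Φ u * sp Φ μ = sp Φ μ * ApxA_P Φ w := by
  induction μ generalizing u with
  | nil =>
    have h : u = w := h
    rw [ApxA_nil, h, mul_one, one_mul]
  | cons e μ ih =>
    obtain ⟨h1, h2⟩ := h
    rw [ApxA_cons, ← mul_assoc, ← h1, ApxA_PS, mul_assoc, ← ih h2, ← mul_assoc, ApxA_SP]

/-- `star (sp μ) * (P u * sp μ) = P w` -/
theorem ApxA_iso {u w : G.V} {μ : List G.E} (h : IsPath G u μ w) :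
    star (sp Φ μ) * (ApxA_P Φ u * sp Φ μ) = ApxA_P Φ w := by
  induction μ generalizing u with
  | nil =>
    have h : u = w := h
    rw [ApxA_nil, h, star_one, mul_one, one_mul]
  | cons e μ ih =>
    obtain ⟨h1, h2⟩ := h
    rw [ApxA_cons, ← h1, ← mul_assoc (ApxA_P Φ (G.s e)), ApxA_PS, star_mul, mul_assoc,
      ← mul_assoc (star (ApxA_S Φ e)), ApxA_SS]
    exact ih h2

theorem ApxA_mon (μ ν : List G.E) (w : G.V) : mon Φ μ w ν = sp Φ μ * ApxA_P Φ w * star (sp Φ ν) := rfl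

theorem ApxA_mon_star (μ ν : List G.E) (w : G.V) : star (mon Φ μ w ν) = mon Φ ν w μ := by
  rw [ApxA_mon, ApxA_mon, star_mul, star_mul, star_star, ApxA_star, mul_assoc]

theorem ApxA_mon_left {u w : G.V} {μ ν : List G.E} (h : IsPath G u μ w) :
    ApxA_P Φ u * mon Φ μ w ν = mon Φ μ w ν := by
  rw [ApxA_mon, ← ApxA_comm Φ h, ← mul_assoc, ← mul_assoc, ApxA_PP]

theorem ApxA_mon_right {u w : G.V} {μ ν : List G.E} (h : IsPath G u ν w) :
    mon Φ μ w ν * ApxA_P Φ u = mon Φ μ w ν := by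
  have h1 := congrArg star (ApxA_mon_left Φ (ν := μ) h)
  rw [star_mul, ApxA_mon_star, ApxA_star] at h1
  exact h1

theorem ApxA_mon_left0 {u v w : G.V} {μ ν : List G.E} (h : IsPath G u μ w) (hv : u ≠ v) :
    ApxA_P Φ v * mon Φ μ w ν = 0 := by
  rw [← ApxA_mon_left Φ h, ← mul_assoc, ApxA_Po Φ hv.symm, zero_mul]

theorem ApxA_mon_right0 {u v w : G.V} {μ ν : List G.E} (h : IsPath G u ν w) (hv : u ≠ v) :
    mon Φ μ w ν * ApxA_P Φ v = 0 := by
  rw [← ApxA_mon_right Φ h, mul_assoc, ApxA_Po Φ hv, mul_zero]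

variable {v : G.V} {l : List G.E}

/-- branching paths: `star (sp μ) * T^K = 0` -/
theorem ApxA_br {γ μ' ρ' : List G.E} {e f : G.E} (hf : ∃ w, IsPath G v (γ ++ f :: ρ') w) (he : e ≠ f) :
    star (sp Φ (γ ++ e :: μ')) * (ApxA_P Φ v * sp Φ (γ ++ f :: ρ')) = 0 := by
  obtain ⟨w, hw⟩ := hf
  obtain ⟨x, h1, h2⟩ := ip_append.1 hw
  obtain ⟨h3, h4⟩ := h2
  rw [sp_append, sp_append, ApxA_cons, ApxA_cons, star_mul, star_mul]
  calc star (sp Φ μ') * star (ApxA_S Φ e) * star (sp Φ γ) *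
        (ApxA_P Φ v * (sp Φ γ * (ApxA_S Φ f * sp Φ ρ')))
      = star (sp Φ μ') * (star (ApxA_S Φ e) * ((star (sp Φ γ) * (ApxA_P Φ v * sp Φ γ)) *
        ApxA_S Φ f)) * sp Φ ρ' := by simp only [mul_assoc]
    _ = 0 := by
      rw [ApxA_iso Φ h1, ← h3, ApxA_PS, ApxA_So Φ he, mul_zero, zero_mul]

/-- the main computation: `ν ++ κ = lpow l b`, `μ ++ κ = lpow l a` -/
theorem ApxA_pre {w : G.V} (hl : IsPath G v l v) (hL : IsLoop (ApxA_P Φ v) (sp Φ l))
    {μ ν κ : List G.E} (hμ : IsPath G v μ w) (hν : IsPath G v ν w) (hκ : IsPath G w κ v) {a b : ℕ}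
    (ha : lpow l a = μ ++ κ) (hb : lpow l b = ν ++ κ) {k : ℕ} (hk : b ≤ k) :
    mon Φ μ w ν * Em (ApxA_P Φ v) (sp Φ l) k =
      sp Φ l ^ a * ApxA_P Φ v * star (sp Φ l ^ b) * Em (ApxA_P Φ v) (sp Φ l) k := by
  obtain ⟨j, rfl⟩ := Nat.exists_eq_add_of_le hk
  set p := ApxA_P Φ v with hp
  set T := sp Φ l with hT
  have e1 : star (T ^ b) * (T ^ (b + j) * p) = T ^ j * p := hL.star_pow_add b j
  have e2 : p * (T ^ j * p) = T ^ j * p := hL.pow_p j
  have eR : T ^ a * p * star (T ^ b) * Em p T (b + j) = T ^ a * (T ^ j * p) * star (T ^ (b + j)) := by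
    unfold Em
    calc T ^ a * p * star (T ^ b) * (T ^ (b + j) * p * star (T ^ (b + j)))
        = T ^ a * (p * (star (T ^ b) * (T ^ (b + j) * p))) * star (T ^ (b + j)) := by
          simp only [mul_assoc]
      _ = _ := by rw [e1, e2]
  rw [eR]
  -- the left side
  have f1 : T ^ b = sp Φ ν * sp Φ κ := by rw [hT, ← sp_lpow, hb, sp_append]
  have f2 : T ^ a = sp Φ μ * sp Φ κ := by rw [hT, ← sp_lpow, ha, sp_append]
  have f3 : ApxA_P Φ w * star (sp Φ ν) = star (sp Φ ν) * p := by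
    have := congrArg star (ApxA_comm Φ hν)
    rw [star_mul, star_mul, ApxA_star, ApxA_star] at this
    exact this.symm
  have f4 : ApxA_P Φ w * star (sp Φ ν) * (T ^ (b + j) * p) = ApxA_P Φ w * sp Φ κ * (T ^ j * p) := by
    rw [f3, pow_add, f1]
    calc star (sp Φ ν) * p * (sp Φ ν * sp Φ κ * T ^ j * p)
        = (star (sp Φ ν) * (p * sp Φ ν)) * sp Φ κ * (T ^ j * p) := by simp only [mul_assoc]
      _ = _ := by rw [hp, ApxA_iso Φ hν]
  have f5 : sp Φ μ * (ApxA_P Φ w * sp Φ κ) = T ^ a * p := by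
    rw [ApxA_comm Φ hκ, f2, mul_assoc]
  unfold Em
  calc mon Φ μ w ν * (T ^ (b + j) * p * star (T ^ (b + j)))
      = sp Φ μ * (ApxA_P Φ w * star (sp Φ ν) * (T ^ (b + j) * p)) * star (T ^ (b + j)) := by
        rw [ApxA_mon]
        simp only [mul_assoc]
    _ = (sp Φ μ * (ApxA_P Φ w * sp Φ κ)) * (T ^ j * p) * star (T ^ (b + j)) := by
        rw [f4]
        simp only [mul_assoc]
    _ = T ^ a * (p * (T ^ j * p)) * star (T ^ (b + j)) := by
        rw [f5]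
        simp only [mul_assoc]
    _ = _ := by rw [e2]

/-- both equations -/
theorem ApxA_pre2 {w : G.V} (hl : IsPath G v l v) (hL : IsLoop (ApxA_P Φ v) (sp Φ l))
    {μ ν κ : List G.E} (hμ : IsPath G v μ w) (hν : IsPath G v ν w) (hκ : IsPath G w κ v) {a b : ℕ}
    (ha : lpow l a = μ ++ κ) (hb : lpow l b = ν ++ κ) {k : ℕ} (hk : max a b ≤ k) :
    (mon Φ μ w ν - sp Φ l ^ a * ApxA_P Φ v * star (sp Φ l ^ b)) * Em (ApxA_P Φ v) (sp Φ l) k = 0 ∧
    Em (ApxA_P Φ v) (sp Φ l) k * (mon Φ μ w ν - sp Φ l ^ a * ApxA_P Φ v * star (sp Φ l ^ b)) = 0 := by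
  constructor
  · rw [sub_mul, ApxA_pre Φ hl hL hμ hν hκ ha hb ((le_max_right a b).trans hk), sub_self]
  · have h1 := ApxA_pre Φ hl hL hν hμ hκ hb ha ((le_max_left a b).trans hk)
    have h2 := congrArg star h1
    rw [star_mul, star_mul, ApxA_mon_star, hL.star_Em, star_mul, star_mul, star_star, ApxA_star] at h2
    rw [mul_sub, h2, ← mul_assoc (sp Φ l ^ a), sub_self]

/-- a branching path is killed far out -/
theorem ApxA_kill {w : G.V} (hl : IsPath G v l v) (hL : IsLoop (ApxA_P Φ v) (sp Φ l))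
    {μ ν : List G.E} (hν : IsPath G v ν w) {K : ℕ} {γ ν' ρ' : List G.E} {e f : G.E} (he : e ≠ f)
    (h1 : ν = γ ++ e :: ν') (h2 : lpow l K = γ ++ f :: ρ') {k : ℕ} (hk : K ≤ k) :
    mon Φ μ w ν * Em (ApxA_P Φ v) (sp Φ l) k = 0 := by
  obtain ⟨j, rfl⟩ := Nat.exists_eq_add_of_le hk
  have f3 : ApxA_P Φ w * star (sp Φ ν) = star (sp Φ ν) * ApxA_P Φ v := by
    have := congrArg star (ApxA_comm Φ hν)
    rw [star_mul, star_mul, ApxA_star, ApxA_star] at this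
    exact this.symm
  have f4 : star (sp Φ ν) * (ApxA_P Φ v * sp Φ l ^ K) = 0 := by
    rw [← sp_lpow, h1, h2]
    apply ApxA_br Φ ?_ he
    exact ⟨v, by rw [← h2]; exact ip_lpow hl K⟩
  unfold Em
  calc mon Φ μ w ν * (sp Φ l ^ (K + j) * ApxA_P Φ v * star (sp Φ l ^ (K + j)))
      = sp Φ μ * ((ApxA_P Φ w * star (sp Φ ν)) * sp Φ l ^ K) * (sp Φ l ^ j * ApxA_P Φ v *
          star (sp Φ l ^ (K + j))) := by
        rw [ApxA_mon, pow_add]
        simp only [mul_assoc]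
    _ = 0 := by rw [f3, mul_assoc (star (sp Φ ν)), f4, mul_zero, zero_mul]

end

theorem mon_exact {G : DGraph} {v : G.V} {l : List G.E} (h : OnlyReturn G v l) {A : Type}
    [NonUnitalCStarAlgebra A] (Φ : CKFam G A) {u w u' : G.V} {μ ν : List G.E}
    (hμ : IsPath G u μ w) (hν : IsPath G u' ν w) :
    ∃ (c : ℂ) (a b K : ℕ), ∀ k, K ≤ k →
      (((Φ.p v : A) : Unitization ℂ A) * mon Φ μ w ν * ((Φ.p v : A) : Unitization ℂ A) -
        c • (sp Φ l ^ a * ((Φ.p v : A) : Unitization ℂ A) * star (sp Φ l ^ b))) *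
          Em ((Φ.p v : A) : Unitization ℂ A) (sp Φ l) k = 0 ∧
      Em ((Φ.p v : A) : Unitization ℂ A) (sp Φ l) k *
        (((Φ.p v : A) : Unitization ℂ A) * mon Φ μ w ν * ((Φ.p v : A) : Unitization ℂ A) -
        c • (sp Φ l ^ a * ((Φ.p v : A) : Unitization ℂ A) * star (sp Φ l ^ b))) = 0 := by
  have hl : IsPath G v l v := h.1.2.1
  have hl0 : l ≠ [] := h.1.1
  have hL : IsLoop (ApxA_P Φ v) (sp Φ l) := isLoop_sp hl0 hl Φ
  have hlen : 1 ≤ l.length := List.length_pos_iff.2 hl0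
  change ∃ (c : ℂ) (a b K : ℕ), ∀ k, K ≤ k →
      (ApxA_P Φ v * mon Φ μ w ν * ApxA_P Φ v -
        c • (sp Φ l ^ a * ApxA_P Φ v * star (sp Φ l ^ b))) * Em (ApxA_P Φ v) (sp Φ l) k = 0 ∧
      Em (ApxA_P Φ v) (sp Φ l) k * (ApxA_P Φ v * mon Φ μ w ν * ApxA_P Φ v -
        c • (sp Φ l ^ a * ApxA_P Φ v * star (sp Φ l ^ b))) = 0
  by_cases hu : u = v
  swap
  · refine ⟨0, 0, 0, 0, fun k _ => ?_⟩
    rw [ApxA_mon_left0 Φ hμ hu]
    simp
  by_cases hu' : u' = v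
  swap
  · refine ⟨0, 0, 0, 0, fun k _ => ?_⟩
    rw [mul_assoc, ApxA_mon_right0 Φ hν hu']
    simp
  subst hu
  subst hu'
  have hmon : ApxA_P Φ u' * mon Φ μ w ν * ApxA_P Φ u' = mon Φ μ w ν := by
    rw [ApxA_mon_left Φ hμ, ApxA_mon_right Φ hν]
  rw [hmon]
  set K := max μ.length ν.length with hK
  have hKl : K ≤ (lpow l K).length := by
    rw [lpow_length]
    exact Nat.le_mul_of_pos_right K hlen
  have hLK := ip_lpow hl K
  rcases prefix_or (μ := ν) (ρ := lpow l K) ((le_max_right _ _).trans hKl) with ⟨κ, hκ⟩ | hbν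
  · -- `ν` is a prefix
    have hp := hLK
    rw [hκ, ip_append] at hp
    obtain ⟨x, hx1, hx2⟩ := hp
    obtain rfl := ip_end hx1 hν
    obtain ⟨a, ha⟩ := only_closed h (μ := μ ++ κ) (ip_append.2 ⟨_, hμ, hx2⟩)
    refine ⟨1, a, K, max a K, fun k hk => ?_⟩
    rw [one_smul]
    exact ApxA_pre2 Φ hl hL hμ hν hx2 ha.symm hκ hk
  · rcases prefix_or (μ := μ) (ρ := lpow l K) ((le_max_left _ _).trans hKl) with ⟨κ, hκ⟩ | hbμ
    · have hp := hLK
      rw [hκ, ip_append] at hp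
      obtain ⟨x, hx1, hx2⟩ := hp
      obtain rfl := ip_end hx1 hμ
      obtain ⟨b, hb⟩ := only_closed h (μ := ν ++ κ) (ip_append.2 ⟨_, hν, hx2⟩)
      refine ⟨1, K, b, max K b, fun k hk => ?_⟩
      rw [one_smul]
      exact ApxA_pre2 Φ hl hL hμ hν hx2 hκ hb.symm hk
    · obtain ⟨γ, e, f, ν', ρ', he, h1, h2⟩ := hbν
      obtain ⟨γ₂, e₂, f₂, μ', ρ₂, he₂, h1', h2'⟩ := hbμ
      refine ⟨0, 0, 0, K, fun k hk => ?_⟩
      rw [zero_smul, sub_zero]
      constructor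
      · exact ApxA_kill Φ hl hL hν he h1 h2 hk
      · have h3 := congrArg star (ApxA_kill Φ (μ := ν) hl hL hμ he₂ h1' h2' hk)
        rw [star_mul, ApxA_mon_star, hL.star_Em, star_zero] at h3
        exact h3

end Pool.Agent.RIG
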