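import Pool.Agent.RIG.Tau
import Pool.Agent.RIG.ApxA

/-!
# ApxB: the evaluation of a rigid cycle is good

NOTATION. `E_k = Em p T k`, `τ` from `exists_tau E`. `Appr y`: for all `ε > 0` there is `m` such that for all
`k ≥ m`: `‖(p y p - τ (χ y)) E_k‖ ≤ ε` and `‖E_k (p y p - τ (χ y))‖ ≤ ε`.

PROOF of `good_of_appr`. If `χ y = 0`: `p y E_k = p y p E_k` (`p_Em`), `E_k y p = E_k p y p`, `τ 0 = 0`.

PROOF of `appr_exact`: suppose `(p y p - c • X) E_k = 0 = E_k (p y p - c • X)` for all `k ≥ K`, with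
`X = T^a p star (T^b)`. Let `h = c • z^(a-b)` if `a ≥ b`, `c • star (z^(b-a))` if `a < b`. For `k ≥ a, b`:
`X E_k = T^a p star (T^b) T^k p star (T^k) = T^a T^(k-b) p star (T^k)` (`star_pow_add`, `pow_p`) and this is
`τ (z^(a-b)) E_k = T^(a-b) p T^k p star (T^k)` resp. `τ (star (z^(b-a))) E_k = star (T^(b-a) p) T^k p star (T^k)`
(`star (T^(b-a) p) = p star (T^(b-a))`, `star_pow_add`, `k - (b - a) = a + (k - b)`). Taking stars:
`E_k X = E_k τ(..)` for the same `k` (`star X = T^b p star (T^a)`, `τ (star g) = star (τ g)`). So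
`(p y p - τ h) E_k = 0 = E_k (p y p - τ h)` for `k ≥ max K a b`. `χ y = h`: multiply `(p y p - τ h) E_k = 0` by
`T^k p` from the right (`star (T^k) T^k p = p`, `star_pow_add`): `(p y p - τ h) T^k p = 0`; apply `χ`:
`χ (p y p * (T^k p)) = χ ((p y) * p * (T^k p)) = χ (p y) z^k = χ y z^k`, `χ (τ h * (T^k p)) =
χ (τ h * p * (T^k p)) = h z^k`; `z^k` is invertible (`star (z^k) * z^k = 1`). So `Appr y`.

PROOF of `ev_good`. `{y | Appr y}` is a submodule (sums: maximum of the `m` and `ε/2`; scalars), closed: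
`‖(p y p - τ (χ y)) E_k‖ ≤ ‖(p y' p - τ (χ y')) E_k‖ + 2 ‖y - y'‖`. It contains `1`: `p 1 p = p`, `τ (χ 1) = τ 1 = p`
(`χ_one`), and the monomials (`mon_exact`, `appr_exact`). `mon_dense`.
-/

namespace Pool.Agent.RIG

open Pool.Agent.AUE Pool.Agent.GHT

section

variable {B : Type} [CStarAlgebra B] {p T : B}

/-- the function of the element `T^a p star (T^b)` -/
noncomputable def ApxB_g (a b : ℕ) : C(Circle, ℂ) :=
  if b ≤ a then zC ^ (a - b) else star (zC ^ (b - a))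

theorem ApxB_g_star (a b : ℕ) : star (ApxB_g a b) = ApxB_g b a := by
  unfold ApxB_g
  rcases lt_trichotomy a b with h | h | h
  · rw [if_neg (not_le.2 h), if_pos h.le, star_star]
  · subst h
    rw [if_pos le_rfl, Nat.sub_self, pow_zero, star_one]
  · rw [if_pos h.le, if_neg (not_le.2 h)]

theorem ApxB_zC (k : ℕ) : zC ^ k * star (zC ^ k) = (1 : C(Circle, ℂ)) := by
  have h1 : zC * star zC = (1 : C(Circle, ℂ)) := by
    ext t
    change (t : ℂ) * star (t : ℂ) = 1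
    have h := Complex.mul_conj (t : ℂ)
    rw [Circle.normSq_coe] at h
    simpa using h
  rw [star_pow, ← mul_pow, h1, one_pow]

theorem ApxB_X (hl : IsLoop p T) {a b k : ℕ} (hk : b ≤ k) :
    T ^ a * p * star (T ^ b) * Em p T k = T ^ (a + (k - b)) * p * star (T ^ k) := by
  have h1 := hl.star_pow_add b (k - b)
  have h2 := hl.pow_p (k - b)
  have e : b + (k - b) = k := by omega
  rw [e] at h1
  unfold Em
  calc T ^ a * p * star (T ^ b) * (T ^ k * p * star (T ^ k))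
      = T ^ a * p * (star (T ^ b) * (T ^ k * p)) * star (T ^ k) := by noncomm_ring
    _ = T ^ a * (p * (T ^ (k - b) * p)) * star (T ^ k) := by rw [h1]; noncomm_ring
    _ = _ := by rw [h2, pow_add]; noncomm_ring

theorem ApxB_tau (hl : IsLoop p T) {τ : C(Circle, ℂ) →ₗ[ℂ] B}
    (hs : ∀ h, τ (star h) = star (τ h)) (hk : ∀ k : ℕ, τ (zC ^ k) = T ^ k * p) {a b k : ℕ}
    (hbk : b ≤ k) :
    τ (ApxB_g a b) * Em p T k = T ^ (a + (k - b)) * p * star (T ^ k) := by
  unfold ApxB_g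
  split_ifs with hab
  · rw [hk]
    have h2 := hl.pow_p k
    unfold Em
    have e : a + (k - b) = (a - b) + k := by omega
    calc T ^ (a - b) * p * (T ^ k * p * star (T ^ k))
        = T ^ (a - b) * (p * (T ^ k * p)) * star (T ^ k) := by noncomm_ring
      _ = _ := by rw [h2, e, pow_add]; noncomm_ring
  · rw [hs, hk, star_mul, hl.star_p]
    have h1 := hl.star_pow_add (b - a) (a + (k - b))
    have e : (b - a) + (a + (k - b)) = k := by omega
    rw [e] at h1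
    unfold Em
    calc p * star (T ^ (b - a)) * (T ^ k * p * star (T ^ k))
        = p * (star (T ^ (b - a)) * (T ^ k * p)) * star (T ^ k) := by noncomm_ring
      _ = _ := by rw [h1, hl.pow_p]

theorem ApxB_eq (hl : IsLoop p T) {τ : C(Circle, ℂ) →ₗ[ℂ] B}
    (hs : ∀ h, τ (star h) = star (τ h)) (hk : ∀ k : ℕ, τ (zC ^ k) = T ^ k * p) {a b k : ℕ}
    (hak : a ≤ k) (hbk : b ≤ k) :
    T ^ a * p * star (T ^ b) * Em p T k = τ (ApxB_g a b) * Em p T k ∧
      Em p T k * (T ^ a * p * star (T ^ b)) = Em p T k * τ (ApxB_g a b) := by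
  refine ⟨by rw [ApxB_X hl hbk, ApxB_tau hl hs hk hbk], ?_⟩
  have h1 : T ^ b * p * star (T ^ a) * Em p T k = τ (ApxB_g b a) * Em p T k := by
    rw [ApxB_X hl hak, ApxB_tau hl hs hk hak]
  have h2 : star (T ^ b * p * star (T ^ a) * Em p T k) = star (τ (ApxB_g b a) * Em p T k) :=
    congrArg star h1
  have h3 : star (T ^ b * p * star (T ^ a)) = T ^ a * p * star (T ^ b) := by
    rw [star_mul, star_mul, star_star, hl.star_p, mul_assoc]
  rw [star_mul (T ^ b * p * star (T ^ a)), star_mul (τ (ApxB_g b a)), hl.star_Em, ← hs,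
    ApxB_g_star, h3] at h2
  exact h2

end

set_option linter.unusedVariables false in
theorem appr_exact {B : Type} [CStarAlgebra B] {p T : B} (E : Ev p T)
    {τ : C(Circle, ℂ) →ₗ[ℂ] B} (hs : ∀ h, τ (star h) = star (τ h)) (hp : ∀ h, p * τ h = τ h)
    (hp' : ∀ h, τ h * p = τ h) (hχ : ∀ h, E.χ (τ h) = h) (hk : ∀ k : ℕ, τ (zC ^ k) = T ^ k * p)
    {y : B} {c : ℂ} {a b K : ℕ}
    (h : ∀ k, K ≤ k → (p * y * p - c • (T ^ a * p * star (T ^ b))) * Em p T k = 0 ∧
      Em p T k * (p * y * p - c • (T ^ a * p * star (T ^ b))) = 0) :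
    ∃ m, ∀ k, m ≤ k → (p * y * p - τ (E.χ y)) * Em p T k = 0 ∧
      Em p T k * (p * y * p - τ (E.χ y)) = 0 := by
  have hl := E.toIsLoop
  have key : ∀ k, max K (max a b) ≤ k →
      (p * y * p - τ (c • ApxB_g a b)) * Em p T k = 0 ∧
      Em p T k * (p * y * p - τ (c • ApxB_g a b)) = 0 := by
    intro k hkk
    have k1 : K ≤ k := le_trans (le_max_left _ _) hkk
    have k2 : a ≤ k := le_trans (le_trans (le_max_left _ _) (le_max_right _ _)) hkk
    have k3 : b ≤ k := le_trans (le_trans (le_max_right _ _) (le_max_right _ _)) hkk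
    obtain ⟨e1, e2⟩ := ApxB_eq hl hs hk k2 k3
    obtain ⟨f1, f2⟩ := h k k1
    rw [sub_mul, smul_mul_assoc, e1] at f1
    rw [mul_sub, mul_smul_comm, e2] at f2
    rw [map_smul]
    constructor
    · rw [sub_mul, smul_mul_assoc]
      exact f1
    · rw [mul_sub, mul_smul_comm]
      exact f2
  have hy : E.χ y = c • ApxB_g a b := by
    set k := max K (max a b) with hkd
    have h1 := (key k le_rfl).1
    have h2 : Em p T k * (T ^ k * p) = T ^ k * p := by
      have h3 := hl.star_pow_add k 0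
      rw [add_zero, pow_zero, one_mul] at h3
      unfold Em
      calc T ^ k * p * star (T ^ k) * (T ^ k * p) = T ^ k * p * (star (T ^ k) * (T ^ k * p)) := by
            noncomm_ring
        _ = T ^ k * (p * p) := by rw [h3]; noncomm_ring
        _ = _ := by rw [hl.p_mul]
    have h3 : (p * y * p - τ (c • ApxB_g a b)) * (T ^ k * p) = 0 := by
      rw [← h2, ← mul_assoc, h1, zero_mul]
    rw [sub_mul, sub_eq_zero] at h3
    have h4 := congrArg E.χ h3
    rw [E.map_mul, (E.χ_p_mul y).1, E.χ_pow, ← hp' (c • ApxB_g a b), E.map_mul, hχ, E.χ_pow] at h4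
    have h5 := congrArg (fun f => f * star (zC ^ k)) h4
    simp only [mul_assoc, ApxB_zC, mul_one] at h5
    exact h5
  refine ⟨max K (max a b), fun k hkk => ?_⟩
  rw [hy]
  exact key k hkk

/-- approximation by the section of the evaluation -/
def ApxB_Appr {B : Type} [CStarAlgebra B] {p T : B} (E : Ev p T)
    (τ : C(Circle, ℂ) →ₗ[ℂ] B) (y : B) : Prop :=
  ∀ ε > 0, ∃ m, ∀ k, m ≤ k → ‖(p * y * p - τ (E.χ y)) * Em p T k‖ ≤ ε ∧
    ‖Em p T k * (p * y * p - τ (E.χ y))‖ ≤ ε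

section

variable {B : Type} [CStarAlgebra B] {p T : B} (E : Ev p T) (τ : C(Circle, ℂ) →ₗ[ℂ] B)

theorem ApxB_add {y y' : B} (h : ApxB_Appr E τ y) (h' : ApxB_Appr E τ y') :
    ApxB_Appr E τ (y + y') := by
  intro ε hε
  obtain ⟨m, hm⟩ := h (ε / 2) (by linarith)
  obtain ⟨m', hm'⟩ := h' (ε / 2) (by linarith)
  refine ⟨max m m', fun k hk => ?_⟩
  obtain ⟨a1, a2⟩ := hm k (le_trans (le_max_left _ _) hk)
  obtain ⟨b1, b2⟩ := hm' k (le_trans (le_max_right _ _) hk)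
  have e : p * (y + y') * p - τ (E.χ (y + y')) =
      (p * y * p - τ (E.χ y)) + (p * y' * p - τ (E.χ y')) := by
    rw [map_add, map_add]
    noncomm_ring
  rw [e, add_mul, mul_add]
  exact ⟨le_trans (norm_add_le _ _) (by linarith), le_trans (norm_add_le _ _) (by linarith)⟩

theorem ApxB_smul {y : B} (c : ℂ) (h : ApxB_Appr E τ y) : ApxB_Appr E τ (c • y) := by
  intro ε hε
  have hc : 0 < ‖c‖ + 1 := by positivity
  obtain ⟨m, hm⟩ := h (ε / (‖c‖ + 1)) (by positivity)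
  refine ⟨m, fun k hk => ?_⟩
  obtain ⟨a1, a2⟩ := hm k hk
  have e : p * (c • y) * p - τ (E.χ (c • y)) = c • (p * y * p - τ (E.χ y)) := by
    rw [map_smul, map_smul, mul_smul_comm, smul_mul_assoc, smul_sub]
  have hb : ‖c‖ * (ε / (‖c‖ + 1)) ≤ ε := by
    rw [mul_div_assoc', div_le_iff₀ hc]
    nlinarith [norm_nonneg c]
  rw [e, smul_mul_assoc, mul_smul_comm, norm_smul, norm_smul]
  exact ⟨le_trans (mul_le_mul_of_nonneg_left a1 (norm_nonneg _)) hb,
    le_trans (mul_le_mul_of_nonneg_left a2 (norm_nonneg _)) hb⟩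

theorem ApxB_zero : ApxB_Appr E τ 0 := by
  intro ε hε
  refine ⟨0, fun k _ => ?_⟩
  simp [hε.le]

theorem ApxB_bound (hn : ∀ h, ‖τ h‖ ≤ ‖h‖) (d : B) : ‖p * d * p - τ (E.χ d)‖ ≤ 2 * ‖d‖ := by
  have h1 : ‖p * d * p‖ ≤ ‖d‖ := by
    have hp := E.toIsLoop.norm_p_le
    calc ‖p * d * p‖ ≤ ‖p * d‖ * ‖p‖ := norm_mul_le _ _
      _ ≤ (‖p‖ * ‖d‖) * ‖p‖ := by gcongr; exact norm_mul_le _ _
      _ ≤ (1 * ‖d‖) * 1 := by gcongr
      _ = ‖d‖ := by ring
  have h2 : ‖τ (E.χ d)‖ ≤ ‖d‖ := (hn _).trans (E.norm_le d)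
  calc ‖p * d * p - τ (E.χ d)‖ ≤ ‖p * d * p‖ + ‖τ (E.χ d)‖ := norm_sub_le _ _
    _ ≤ 2 * ‖d‖ := by linarith

theorem ApxB_closed (hn : ∀ h, ‖τ h‖ ≤ ‖h‖) : IsClosed {y : B | ApxB_Appr E τ y} := by
  rw [← isSeqClosed_iff_isClosed]
  intro u y hu hy ε hε
  have := (Metric.tendsto_atTop.1 hy) (ε / 4) (by linarith)
  obtain ⟨N, hN⟩ := this
  have hd := hN N le_rfl
  rw [dist_eq_norm] at hd
  obtain ⟨m, hm⟩ := hu N (ε / 2) (by linarith)
  refine ⟨m, fun k hk => ?_⟩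
  obtain ⟨a1, a2⟩ := hm k hk
  have hE := E.toIsLoop.norm_Em_le k
  have e : p * y * p - τ (E.χ y) =
      (p * u N * p - τ (E.χ (u N))) - (p * (u N - y) * p - τ (E.χ (u N - y))) := by
    rw [map_sub, map_sub]
    noncomm_ring
  have hb := ApxB_bound E τ hn (u N - y)
  have hb1 : ‖(p * (u N - y) * p - τ (E.χ (u N - y))) * Em p T k‖ ≤ ε / 2 := by
    calc _ ≤ ‖p * (u N - y) * p - τ (E.χ (u N - y))‖ * ‖Em p T k‖ := norm_mul_le _ _
      _ ≤ (2 * ‖u N - y‖) * 1 := by gcongr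
      _ ≤ ε / 2 := by linarith
  have hb2 : ‖Em p T k * (p * (u N - y) * p - τ (E.χ (u N - y)))‖ ≤ ε / 2 := by
    calc _ ≤ ‖Em p T k‖ * ‖p * (u N - y) * p - τ (E.χ (u N - y))‖ := norm_mul_le _ _
      _ ≤ 1 * (2 * ‖u N - y‖) := by gcongr
      _ ≤ ε / 2 := by linarith
  rw [e]
  generalize p * (u N - y) * p - τ (E.χ (u N - y)) = d at hb1 hb2
  rw [sub_mul, mul_sub]
  exact ⟨le_trans (norm_sub_le _ _) (by linarith), le_trans (norm_sub_le _ _) (by linarith)⟩

theorem ApxB_good (h : ∀ y, ApxB_Appr E τ y) : E.Good := by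
  intro y hy ε hε
  obtain ⟨m, hm⟩ := h y ε hε
  refine ⟨m, fun k hk => ?_⟩
  obtain ⟨a1, a2⟩ := hm k hk
  obtain ⟨p1, p2⟩ := E.toIsLoop.p_Em k
  rw [hy, map_zero, sub_zero] at a1 a2
  constructor
  · have e : p * y * Em p T k = p * y * p * Em p T k := by
      rw [mul_assoc (p * y) p, p1]
    rw [e]
    exact a1
  · have e : Em p T k * y * p = Em p T k * (p * y * p) := by
      rw [← mul_assoc, ← mul_assoc, p2]
    rw [e]
    exact a2

end

theorem ev_good {G : DGraph} {v : G.V} {l : List G.E} (h : OnlyReturn G v l) {A : Type}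
    [NonUnitalCStarAlgebra A] (Φ : CKFam G A) (hΦ : Φ.IsUniversal)
    (E : Ev ((Φ.p v : A) : Unitization ℂ A) (sp Φ l)) : E.Good := by
  obtain ⟨τ, hn, hs, h1, hp, hp', hχ, hk⟩ := exists_tau E
  refine ApxB_good E τ ?_
  let M : Submodule ℂ (Unitization ℂ A) :=
    { carrier := {y | ApxB_Appr E τ y}
      add_mem' := fun {a b} ha hb => ApxB_add E τ ha hb
      zero_mem' := ApxB_zero E τ
      smul_mem' := fun c x hx => ApxB_smul E τ c hx }
  have hM : IsClosed (M : Set (Unitization ℂ A)) := ApxB_closed E τ hn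
  have h1M : (1 : Unitization ℂ A) ∈ M := by
    change ApxB_Appr E τ 1
    intro ε hε
    refine ⟨0, fun k _ => ?_⟩
    rw [mul_one, E.toIsLoop.p_mul, E.χ_one, h1, sub_self, zero_mul, mul_zero, norm_zero]
    exact ⟨hε.le, hε.le⟩
  refine mon_dense Φ hΦ M hM h1M ?_
  intro u w u' μ ν hμ hν
  obtain ⟨c, a, b, K, hcabK⟩ := mon_exact h Φ hμ hν
  obtain ⟨m, hm⟩ := appr_exact E hs hp hp' hχ hk hcabK
  change ApxB_Appr E τ _
  intro ε hε
  refine ⟨m, fun k hkk => ?_⟩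
  obtain ⟨a1, a2⟩ := hm k hkk
  rw [a1, a2, norm_zero]
  exact ⟨hε.le, hε.le⟩

end Pool.Agent.RIG
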