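import Pool.Agent.RIG.PwB

/-!
# FSubC: the component of a rigid cycle in a finite subgraph

NOTATION. `G₁ = subG G V1 E1 hs hr`. Reachability in `G₁` gives a path in `G` with edges in `E1` (induction).
PROOF of `only_comp`. `Walk`: `IsPath G v (l.map val) v` gives `G₁.Walk v l v` (induction on `l`, generalizing `v`).
`Nodup`: `only_nodup` and injectivity of `Subtype.val`.
`u` with `Reach u0 u`, `Reach u u0`: there are paths `μ` from `v` to `u`, `ν` from `u` to `v` in `G`. If `ν = []` then `u = v`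
is the source of the first edge of `l`. Otherwise the first edge `f` of `ν` has source `u`, `f ∈ l.map val` by
`only_mem`. Conversely let `u = s e`, `e ∈ l`, `l = α ++ e :: β`: `v` reaches `s e` along `α` and `s e` reaches `v` along
`e :: β` in `G₁`. Third: `f ∈ E1` with `s f`, `r f` mutually reachable with `u0`: paths `μ` from `v` to `s f`,
`f :: ν` from `s f` to `v`; `only_mem`: `f.1 ∈ l.map val`.
-/

namespace Pool.Agent.RIG

open Pool.Agent.AUE Pool.Agent.GHT

/-- Reachability in the subgraph gives a path with edges in the subgraph. -/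
theorem FSubC_path {G : DGraph} {V1 : Finset G.V} {E1 : Finset G.E} {hs : ∀ e ∈ E1, G.s e ∈ V1}
    {hr : ∀ e ∈ E1, G.r e ∈ V1} {a b : {v : G.V // v ∈ V1}}
    (h : (subG G V1 E1 hs hr).Reach a b) : ∃ μ : List G.E, IsPath G a.1 μ b.1 := by
  induction h with
  | refl => exact ⟨[], rfl⟩
  | tail _ hbc ih =>
    obtain ⟨μ, hμ⟩ := ih
    obtain ⟨e, he1, he2⟩ := hbc
    have g1 : G.s e.1 = _ := congrArg Subtype.val he1
    have g2 : G.r e.1 = _ := congrArg Subtype.val he2
    exact ⟨μ ++ [e.1], (CondK_app G μ [e.1] _ _).2 ⟨_, hμ, g1, g2⟩⟩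

theorem FSubC_walk {G : DGraph} {V1 : Finset G.V} {E1 : Finset G.E} {hs : ∀ e ∈ E1, G.s e ∈ V1}
    {hr : ∀ e ∈ E1, G.r e ∈ V1} (l : List (subG G V1 E1 hs hr).Ed) :
    ∀ (a b : {v : G.V // v ∈ V1}),
      IsPath G a.1 (List.map (α := {e : G.E // e ∈ E1}) Subtype.val l) b.1 →
      (subG G V1 E1 hs hr).Walk a l b := by
  induction l with
  | nil =>
    intro a b h
    exact Subtype.ext h
  | cons e l ih =>
    intro a b h
    exact ⟨Subtype.ext h.1, ih ((subG G V1 E1 hs hr).r e) b h.2⟩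

theorem FSubC_walk_reach {V : Type} {G : Gr V} (l : List G.Ed) : ∀ (a b : V), G.Walk a l b →
    G.Reach a b := by
  induction l with
  | nil =>
    intro a b h
    have h' : a = b := h
    rw [h']
    exact Relation.ReflTransGen.refl
  | cons e l ih =>
    intro a b h
    exact Relation.ReflTransGen.head ⟨e, h.1, rfl⟩ (ih _ _ h.2)

theorem FSubC_walk_app {V : Type} {G : Gr V} (l₁ l₂ : List G.Ed) : ∀ (a b : V),
    G.Walk a (l₁ ++ l₂) b → ∃ c, G.Walk a l₁ c ∧ G.Walk c l₂ b := by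
  induction l₁ with
  | nil =>
    intro a b h
    exact ⟨a, rfl, h⟩
  | cons e l ih =>
    intro a b h
    obtain ⟨c, h1, h2⟩ := ih _ _ h.2
    exact ⟨c, ⟨h.1, h1⟩, h2⟩

theorem only_comp {G : DGraph} {V1 : Finset G.V} {E1 : Finset G.E} {hs : ∀ e ∈ E1, G.s e ∈ V1}
    {hr : ∀ e ∈ E1, G.r e ∈ V1} {v u0 : {v : G.V // v ∈ V1}} {l : List (subG G V1 E1 hs hr).Ed}
    (h : OnlyReturn G v.1 (List.map (α := {e : G.E // e ∈ E1}) Subtype.val l))
    (h1 : (subG G V1 E1 hs hr).Reach v u0) (h2 : (subG G V1 E1 hs hr).Reach u0 v) :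
    (subG G V1 E1 hs hr).Walk v l v ∧ (l.map (subG G V1 E1 hs hr).s).Nodup ∧
      (∀ u, ((subG G V1 E1 hs hr).Reach u0 u ∧ (subG G V1 E1 hs hr).Reach u u0) ↔
        u ∈ l.map (subG G V1 E1 hs hr).s) ∧
      ∀ f : (subG G V1 E1 hs hr).Ed,
        ((subG G V1 E1 hs hr).Reach u0 ((subG G V1 E1 hs hr).s f) ∧
          (subG G V1 E1 hs hr).Reach ((subG G V1 E1 hs hr).s f) u0) →
        ((subG G V1 E1 hs hr).Reach u0 ((subG G V1 E1 hs hr).r f) ∧
          (subG G V1 E1 hs hr).Reach ((subG G V1 E1 hs hr).r f) u0) → f ∈ l := by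
  have hwalk : (subG G V1 E1 hs hr).Walk v l v := FSubC_walk l v v h.1.2.1
  have hne : l ≠ [] := by
    intro h0
    exact h.1.1 (by rw [h0]; rfl)
  refine ⟨hwalk, ?_, fun u => ⟨fun ⟨hu1, hu2⟩ => ?_, fun hu => ?_⟩, fun f hf1 hf2 => ?_⟩
  · have h3 := only_nodup h
    have h4 : List.map G.s (List.map (α := {e : G.E // e ∈ E1}) Subtype.val l) =
        List.map Subtype.val (l.map (subG G V1 E1 hs hr).s) := by
      rw [List.map_map, List.map_map]
      rfl
    rw [h4] at h3
    exact h3.of_map _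
  · obtain ⟨μ, hμ⟩ := FSubC_path (h1.trans hu1)
    obtain ⟨ν, hν⟩ := FSubC_path (hu2.trans h2)
    cases ν with
    | nil =>
      have huv : u = v := Subtype.ext hν
      cases hl : l with
      | nil => exact absurd hl hne
      | cons e l' =>
        rw [hl] at hwalk
        rw [huv]
        have : (subG G V1 E1 hs hr).s e = v := hwalk.1
        rw [← this]
        simp
    | cons f ν' =>
      have h5 : f ∈ List.map (α := {e : G.E // e ∈ E1}) Subtype.val l :=
        only_mem h hμ hν (Or.inr (List.mem_cons_self))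
      obtain ⟨e, he, rfl⟩ := List.mem_map.1 h5
      have h6 : (subG G V1 E1 hs hr).s e = u := Subtype.ext hν.1
      exact List.mem_map.2 ⟨e, he, h6⟩
  · obtain ⟨e, he, rfl⟩ := List.mem_map.1 hu
    obtain ⟨α, β, hαβ⟩ := List.append_of_mem he
    rw [hαβ] at hwalk
    obtain ⟨c, g1, g2⟩ := FSubC_walk_app α (e :: β) v v hwalk
    have g3 : (subG G V1 E1 hs hr).s e = c := g2.1
    rw [g3]
    exact ⟨h2.trans (FSubC_walk_reach α v c g1), (FSubC_walk_reach (e :: β) c v g2).trans h1⟩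
  · obtain ⟨μ, hμ⟩ := FSubC_path (h1.trans hf1.1)
    obtain ⟨ν, hν⟩ := FSubC_path (hf2.2.trans h2)
    have h5 : f.1 ∈ List.map (α := {e : G.E // e ∈ E1}) Subtype.val l :=
      only_mem h hμ (ν := f.1 :: ν) ⟨rfl, hν⟩ (Or.inr (List.mem_cons_self))
    obtain ⟨e, he, hef⟩ := List.mem_map.1 h5
    have : e = f := Subtype.ext hef
    rw [← this]
    exact he

end Pool.Agent.RIG
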