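import Pool.Agent.AUE.Near
import Pool.Agent.AUE.Pol
import Pool.Agent.LPS.Defs

/-!
# ChFm: chains of unitaries fixing a projection; cutting a unitary

PROOFS. `chF_of_near`: `ch_of_near` for the family `P = fun _ : Unit => f` (`IsPrj`; `u` commutes with `f`: `u f = f`
gives `star u f = f` (multiply by `star u`), so `f u = f` (star)). For a chain `ζ` in `UD P` from `1` to `u` put
`ζ' i = ζ i * (1 - f) + f`: unitary (`ζ i` commutes with `f`), `ζ' i * f = f`, `ζ' 0 = 1`,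
`ζ' n = u (1 - f) + f = u`, steps not larger (`‖1 - f‖ ≤ 1`).
`ChF.mul`: chain for `u` followed by `u *` (chain for `v`), each with `δ`.
`ChF.to_Ch`: `ζ f = f`, `f (1 - p) = 1 - p`: `ζ (1 - p) = ζ f (1 - p) = 1 - p`, so `star ζ (1 - p) = 1 - p`,
`(1 - p) ζ = 1 - p`, `ζ` commutes with `p`.

PROOF of `cut_one`. `z' = (1 - f) ζ (1 - f) + f`, `z' - ζ = - f (ζ - 1) - (1 - f) ((ζ - 1) f)`, norm `≤ 2 η ≤ 1/4`.
`z = star ζ * z'`, `‖z - 1‖ = ‖star ζ (z' - ζ)‖ ≤ 2 η`. `polar_near` gives `u` with `‖u - 1‖ ≤ 8 η`; `w = ζ * u`,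
`‖w - ζ‖ = ‖u - 1‖`. `star z * z * f = star z' ζ star ζ z' f = star z' f = f` (`z' f = f`, `star z' f = f`), so
`u f = z f = star ζ f`, `w f = f`.
-/

namespace Pool.Agent.RIG

open Pool.Agent.AUE Pool.Agent.LPS

variable {B : Type} [CStarAlgebra B]

private theorem ChFm_norm_le {u : B} (hu : star u * u = 1) (hu' : u * star u = 1) : ‖u‖ ≤ 1 :=
  UD_norm (P := fun _ : Unit => (1 : B)) (u := u) ⟨hu, hu', fun _ => by rw [one_mul, mul_one]⟩

private theorem ChFm_prj {f : B} (hf : star f = f) (hff : f * f = f) :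
    IsPrj (fun _ : Unit => f) :=
  ⟨fun _ => hf, fun _ => hff, fun v w h => absurd (Subsingleton.elim v w) h⟩

private theorem ChFm_compl {f : B} (hf : star f = f) (hff : f * f = f) :
    star (1 - f) = 1 - f ∧ (1 - f) * (1 - f) = 1 - f ∧ (1 - f) * f = 0 ∧ f * (1 - f) = 0 ∧
      ‖1 - f‖ ≤ 1 := by
  have h1 : star (1 - f) = 1 - f := by rw [star_sub, star_one, hf]
  have h3 : (1 - f) * f = 0 := by rw [sub_mul, one_mul, hff, sub_self]
  have h4 : f * (1 - f) = 0 := by rw [mul_sub, mul_one, hff, sub_self]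
  have h2 : (1 - f) * (1 - f) = 1 - f := by rw [sub_mul (1 : B) f (1 - f), one_mul, h4, sub_zero]
  exact ⟨h1, h2, h3, h4, (ChFm_prj h1 h2).norm_le ()⟩

private theorem ChFm_cut {f z : B} (hf : star f = f) (hff : f * f = f) (h1 : star z * z = 1)
    (h2 : z * star z = 1) (hc : f * z = z * f) :
    star (z * (1 - f) + f) * (z * (1 - f) + f) = 1 ∧
      (z * (1 - f) + f) * star (z * (1 - f) + f) = 1 ∧ (z * (1 - f) + f) * f = f := by
  obtain ⟨c1, c2, c3, c4, -⟩ := ChFm_compl hf hff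
  have hc' : star z * f = f * star z := by
    have := congrArg star hc
    rw [star_mul, star_mul, hf] at this
    exact this
  have hz : (1 - f) * star z = star z * (1 - f) := by
    rw [sub_mul, mul_sub, one_mul, mul_one, hc']
  have hz2 : (1 - f) * z = z * (1 - f) := by
    rw [sub_mul, mul_sub, one_mul, mul_one, hc]
  have hs : star (z * (1 - f) + f) = star z * (1 - f) + f := by
    rw [star_add, star_mul, c1, hf, hz]
  refine ⟨?_, ?_, ?_⟩
  · rw [hs, add_mul, mul_add, mul_add]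
    have e1 : star z * (1 - f) * (z * (1 - f)) = 1 - f := by
      rw [mul_assoc, ← mul_assoc (1 - f) z (1 - f), hz2, mul_assoc z (1 - f) (1 - f), c2,
        ← mul_assoc, h1, one_mul]
    have e2 : star z * (1 - f) * f = 0 := by rw [mul_assoc, c3, mul_zero]
    have e3 : f * (z * (1 - f)) = 0 := by rw [← hz2, ← mul_assoc, c4, zero_mul]
    rw [e1, e2, e3, hff]
    abel
  · rw [hs, add_mul, mul_add, mul_add]
    have e1 : z * (1 - f) * (star z * (1 - f)) = 1 - f := by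
      rw [mul_assoc, ← mul_assoc (1 - f) (star z) (1 - f), hz, mul_assoc (star z) (1 - f) (1 - f), c2,
        ← mul_assoc, h2, one_mul]
    have e2 : z * (1 - f) * f = 0 := by rw [mul_assoc, c3, mul_zero]
    have e3 : f * (star z * (1 - f)) = 0 := by rw [← hz, ← mul_assoc, c4, zero_mul]
    rw [e1, e2, e3, hff]
    abel
  · rw [add_mul, mul_assoc, c3, mul_zero, hff, zero_add]

theorem chF_of_near {f u : B} (hf : star f = f) (hff : f * f = f) (hu : star u * u = 1)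
    (hu' : u * star u = 1) (huf : u * f = f) (h : ‖u - 1‖ ≤ 1) : ChF f u := by
  have h1 : star u * f = f := by
    rw [← huf, ← mul_assoc, hu, one_mul, huf]
  have h2 : f * u = f := by
    have := congrArg star h1
    rw [star_mul, star_star, hf] at this
    exact this
  have hmem : u ∈ UD (fun _ : Unit => f) := ⟨hu, hu', fun _ => by rw [h2, huf]⟩
  have hch := ch_of_near (ChFm_prj hf hff) hmem h
  intro δ hδ
  obtain ⟨n, ζ, z0, zn, zu, zs⟩ := hch δ hδ
  refine ⟨n, fun i => ζ i * (1 - f) + f, ?_, ?_, ?_, ?_⟩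
  · simp only [z0, one_mul]
    abel
  · simp only [zn]
    rw [mul_sub, mul_one, huf]
    abel
  · intro i
    obtain ⟨g1, g2, g3⟩ := zu i
    exact ChFm_cut hf hff g1 g2 (g3 ())
  · intro i hi
    have e : ζ (i + 1) * (1 - f) + f - (ζ i * (1 - f) + f) = (ζ (i + 1) - ζ i) * (1 - f) := by
      rw [sub_mul]; abel
    simp only [e]
    calc ‖(ζ (i + 1) - ζ i) * (1 - f)‖ ≤ ‖ζ (i + 1) - ζ i‖ * ‖1 - f‖ := norm_mul_le _ _
      _ ≤ δ * 1 := mul_le_mul (zs i hi) (ChFm_compl hf hff).2.2.2.2 (norm_nonneg _) hδ.le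
      _ = δ := mul_one δ

theorem chF_one (f : B) : ChF f 1 := by
  intro δ hδ
  exact ⟨0, fun _ => 1, rfl, rfl, fun i => ⟨by simp, by simp, one_mul f⟩, fun i hi => by omega⟩

private theorem ChFm_mem {f u : B} (hu : ChF f u) : star u * u = 1 ∧ u * star u = 1 ∧ u * f = f := by
  obtain ⟨n, ζ, z0, zn, zu, zs⟩ := hu 1 one_pos
  rw [← zn]
  exact zu n

theorem chF_mul {f u v : B} (hu : ChF f u) (hv : ChF f v) : ChF f (u * v) := by
  obtain ⟨m1, m2, m3⟩ := ChFm_mem hu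
  have hn := ChFm_norm_le m1 m2
  intro δ hδ
  obtain ⟨n, ζ, z0, zn, zu, zs⟩ := hu δ hδ
  obtain ⟨m, ξ, x0, xn, xu, xs⟩ := hv δ hδ
  refine ⟨n + m, fun i => if i ≤ n then ζ i else u * ξ (i - n), ?_, ?_, ?_, ?_⟩
  · simp [z0]
  · by_cases hm : m = 0
    · subst hm
      simp only [Nat.add_zero, le_refl, if_true, zn]
      rw [← xn, x0, mul_one]
    · have a0 : ¬ (n + m ≤ n) := by omega
      simp only [if_neg a0]
      rw [Nat.add_sub_cancel_left, xn]
  · intro i
    by_cases hi : i ≤ n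
    · simp only [if_pos hi]
      exact zu i
    · simp only [if_neg hi]
      obtain ⟨g1, g2, g3⟩ := xu (i - n)
      refine ⟨?_, ?_, ?_⟩
      · rw [star_mul, mul_assoc, ← mul_assoc (star u) u, m1, one_mul, g1]
      · rw [star_mul, mul_assoc, ← mul_assoc (ξ (i - n)) (star (ξ (i - n))), g2, one_mul, m2]
      · rw [mul_assoc, g3, m3]
  · intro i hi
    rcases lt_or_ge i n with h1 | h1
    · have a1 : i + 1 ≤ n := by omega
      have a2 : i ≤ n := by omega
      simp only [if_pos a1, if_pos a2]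
      exact zs i h1
    · have a1 : ¬ (i + 1 ≤ n) := by omega
      have a3 : (if i ≤ n then ζ i else u * ξ (i - n)) = u * ξ (i - n) := by
        by_cases a2 : i ≤ n
        · have a4 : i = n := by omega
          rw [if_pos a2, a4, Nat.sub_self, x0, mul_one, zn]
        · rw [if_neg a2]
      simp only [if_neg a1, a3]
      have a5 : i + 1 - n = (i - n) + 1 := by omega
      rw [a5, ← mul_sub]
      calc ‖u * (ξ (i - n + 1) - ξ (i - n))‖ ≤ ‖u‖ * ‖ξ (i - n + 1) - ξ (i - n)‖ := norm_mul_le _ _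
        _ ≤ 1 * δ := mul_le_mul hn (xs (i - n) (by omega)) (norm_nonneg _) zero_le_one
        _ = δ := one_mul δ

theorem chF_mem {f u : B} (hu : ChF f u) : star u * u = 1 ∧ u * star u = 1 ∧ u * f = f :=
  ChFm_mem hu

private theorem ChFm_fix {p f z : B} (hp : star p = p) (hf : f * (1 - p) = 1 - p)
    (h1 : star z * z = 1) (h3 : z * f = f) : z * (1 - p) = 1 - p ∧ p * z = z * p := by
  have a1 : z * (1 - p) = 1 - p := by
    rw [← hf, ← mul_assoc, h3]
  have a2 : star z * (1 - p) = 1 - p := by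
    conv_lhs => rw [← a1, ← mul_assoc, h1, one_mul]
  have a3 : (1 - p) * z = 1 - p := by
    have := congrArg star a2
    rw [star_mul, star_star, star_sub, star_one, hp] at this
    exact this
  refine ⟨a1, ?_⟩
  have a4 : z * (1 - p) = (1 - p) * z := by rw [a1, a3]
  rw [mul_sub, sub_mul, mul_one, one_mul] at a4
  exact (sub_right_injective a4).symm

theorem chF_to_ch {p f u : B} (hp : star p = p) (hf : f * (1 - p) = 1 - p) (hu : ChF f u) :
    Ch (fun _ : Unit => p) u ∧ u * (1 - p) = 1 - p := by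
  obtain ⟨m1, m2, m3⟩ := ChFm_mem hu
  refine ⟨?_, (ChFm_fix hp hf m1 m3).1⟩
  intro δ hδ
  obtain ⟨n, ζ, z0, zn, zu, zs⟩ := hu δ hδ
  refine ⟨n, ζ, z0, zn, fun i => ?_, zs⟩
  obtain ⟨g1, g2, g3⟩ := zu i
  exact ⟨g1, g2, fun _ => (ChFm_fix hp hf g1 g3).2⟩

theorem cut_one {f ζ : B} (hf : star f = f) (hff : f * f = f) (h1 : star ζ * ζ = 1)
    (h2 : ζ * star ζ = 1) {η : ℝ} (hη : η ≤ 1 / 8) (h3 : ‖(ζ - 1) * f‖ ≤ η)
    (h4 : ‖f * (ζ - 1)‖ ≤ η) :
    ∃ w : B, star w * w = 1 ∧ w * star w = 1 ∧ w * f = f ∧ ‖w - ζ‖ ≤ 8 * η := by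
  obtain ⟨c1, c2, c3, c4, c5⟩ := ChFm_compl hf hff
  have hη0 : 0 ≤ η := (norm_nonneg _).trans h3
  have hζ : ‖ζ‖ ≤ 1 := ChFm_norm_le h1 h2
  have hζ' : ‖star ζ‖ ≤ 1 := by rw [norm_star]; exact hζ
  set z' : B := (1 - f) * ζ * (1 - f) + f with hz'
  have e1 : z' - ζ = -(f * (ζ - 1)) - (1 - f) * ((ζ - 1) * f) := by
    rw [hz']
    have e0 : f * f = f := hff
    noncomm_ring
    simp only [e0]
    abel
  have n1 : ‖z' - ζ‖ ≤ 2 * η := by
    rw [e1]
    calc ‖-(f * (ζ - 1)) - (1 - f) * ((ζ - 1) * f)‖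
        ≤ ‖-(f * (ζ - 1))‖ + ‖(1 - f) * ((ζ - 1) * f)‖ := norm_sub_le _ _
      _ ≤ η + 1 * η := by
          refine add_le_add (by rw [norm_neg]; exact h4) ?_
          exact (norm_mul_le _ _).trans (mul_le_mul c5 h3 (norm_nonneg _) zero_le_one)
      _ = 2 * η := by ring
  have z'f : z' * f = f := by
    rw [hz', add_mul, mul_assoc, c3, mul_zero, hff, zero_add]
  have sz'f : star z' * f = f := by
    rw [hz', star_add, star_mul, star_mul, c1, hf, add_mul, hff]
    rw [← mul_assoc, mul_assoc ((1 - f) * star ζ), c3, mul_zero, zero_add]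
  have e2 : star ζ * z' - 1 = star ζ * (z' - ζ) := by rw [mul_sub, h1]
  have n2 : ‖star ζ * z' - 1‖ ≤ 2 * η := by
    rw [e2]
    calc ‖star ζ * (z' - ζ)‖ ≤ ‖star ζ‖ * ‖z' - ζ‖ := norm_mul_le _ _
      _ ≤ 1 * (2 * η) := mul_le_mul hζ' n1 (norm_nonneg _) zero_le_one
      _ = 2 * η := one_mul _
  obtain ⟨u, u1, u2, u3, -, u5⟩ := polar_near (z := star ζ * z') (by linarith)
  have huf : u * f = star ζ * f := by
    have e3 : star (star ζ * z') * (star ζ * z') * f = f := by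
      rw [star_mul, star_star, mul_assoc, mul_assoc (star ζ), z'f, mul_assoc, ← mul_assoc ζ, h2,
        one_mul, sz'f]
    rw [u5 f e3, mul_assoc, z'f]
  refine ⟨ζ * u, ?_, ?_, ?_, ?_⟩
  · rw [star_mul, mul_assoc, ← mul_assoc (star ζ) ζ, h1, one_mul, u1]
  · rw [star_mul, mul_assoc, ← mul_assoc u (star u), u2, one_mul, h2]
  · rw [mul_assoc, huf, ← mul_assoc, h2, one_mul]
  · have e4 : ζ * u - ζ = ζ * (u - 1) := by rw [mul_sub, mul_one]
    rw [e4]
    calc ‖ζ * (u - 1)‖ ≤ ‖ζ‖ * ‖u - 1‖ := norm_mul_le _ _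
      _ ≤ 1 * (4 * ‖star ζ * z' - 1‖) := mul_le_mul hζ u3 (norm_nonneg _) zero_le_one
      _ ≤ 8 * η := by linarith

end Pool.Agent.RIG
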