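import Pool.Agent.RIG.LiftP
import Pool.Agent.RIG.ChFm
import Pool.Agent.LPS.Loop

/-!
# RSol: the loop equation for a good evaluation

PROOF of `cut_path`. `lift_path` with `δ = 1 / 4` gives `N`, `ζ`. Let `η = min (1 / 32) (ε / 8)`. For each `i ≤ N` apply
`E.Good` to `y = ζ i - p` (`χ y = 1 - 1 = 0`) and `η`; take the maximum `m` of the finitely many bounds. `E_m = Em p T m`,
`f = E_m + (1 - p)` (a projection, `p_Em`). `ζ i` commutes with `p` (`ζ i (1 - p) = 1 - p`, unitary). So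
`(ζ i - 1) * f = (ζ i - 1) E_m = (ζ i - p) E_m = p (ζ i - p) E_m`, norm `≤ η`; similarly `f * (ζ i - 1) =
E_m (ζ i - p) p`. `cut_one` gives `w i` (`i ≤ N`) with `‖w i - ζ i‖ ≤ 8 η ≤ 1/4`; for `i = 0` take `w 0 = 1`.
`‖w (i+1) - w i‖ ≤ 8 η + 1/4 + 8 η ≤ 1`; `ChF f (w i)` by induction: `w (i+1) = w i * (star (w i) * w (i+1))`,
`chF_of_near` for `star (w i) * w (i+1)` (`star (w i) f = f`), `chF_mul`. `w' = w N`, `‖w N - ζ N‖ ≤ 8 η ≤ ε`
(`N = 0`: `w = ζ 0 = 1`).

PROOF of `rigid_sol`. `cut_path` with `ε / 2`: `m`, `w'`. `T~ = T + (1 - p)` is an isometry (`star_one`),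
`T~^m star (T~^m) = Em p T m + (1 - p)` (`pow_star_one`). `loop_sol` with `ε / 2`: `M, z`. With
`f = Em p T M + (1 - p)`, `f (1 - p) = 1 - p`: `chF_to_ch`. `T~ z star T~ + (1 - T~ star T~) = T z star T + (1 - T star T)`:
`z (1 - p) = 1 - p = (1 - p) z` and `T (1 - p) = 0` (`T_q`, `q_T`), so `T~ z star T~ = T z star T + (1 - p)` and
`T~ star T~ = T star T + (1 - p)`. `‖star z w θ - 1‖ ≤ ‖star z w' θ - 1‖ + ‖w - w'‖` (`z`, `θ = T z star T + 1 - T star T`
contractive: `θ` is a unitary or: use `T~`: `star T~ * T~ = 1`, `‖θ‖ ≤ 1` since `star θ * θ = 1`).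
-/

namespace Pool.Agent.RIG

open Pool.Agent.AUE Pool.Agent.GHT Pool.Agent.LPS

theorem RSol_norm_one {B : Type} [CStarAlgebra B] : ‖(1 : B)‖ ≤ 1 := by
  have h1 : ‖star (1 : B) * 1‖ = ‖(1 : B)‖ * ‖(1 : B)‖ := CStarRing.norm_star_mul_self
  rw [star_one, mul_one] at h1
  nlinarith [norm_nonneg (1 : B), h1]

theorem RSol_norm {B : Type} [CStarAlgebra B] {u : B} (h : star u * u = 1) : ‖u‖ ≤ 1 := by
  have h1 : ‖star u * u‖ = ‖u‖ * ‖u‖ := CStarRing.norm_star_mul_self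
  rw [h] at h1
  have h2 := RSol_norm_one (B := B)
  nlinarith [norm_nonneg u]

theorem RSol_comm {B : Type} [CStarAlgebra B] {p u : B} (hp : star p = p) (h1 : star u * u = 1)
    (h2 : u * (1 - p) = 1 - p) : (1 - p) * u = 1 - p ∧ p * u = u * p := by
  have h3 : (1 - p) * star u = 1 - p := by
    have := congrArg star h2
    rwa [star_mul, star_sub, star_one, hp] at this
  have h4 : (1 - p) * u = 1 - p := by
    calc (1 - p) * u = ((1 - p) * star u) * u := by rw [h3]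
      _ = 1 - p := by rw [mul_assoc, h1, mul_one]
  refine ⟨h4, ?_⟩
  have h5 : (1 - p) * u = u * (1 - p) := by rw [h4, h2]
  rw [sub_mul, mul_sub, one_mul, mul_one] at h5
  exact sub_right_injective h5

theorem RSol_proj {B : Type} [CStarAlgebra B] {p T : B} (h : IsLoop p T) (k : ℕ) :
    star (Em p T k + (1 - p)) = Em p T k + (1 - p) ∧
    (Em p T k + (1 - p)) * (Em p T k + (1 - p)) = Em p T k + (1 - p) ∧
    (Em p T k + (1 - p)) * (1 - p) = 1 - p := by
  obtain ⟨h1, h2⟩ := h.p_Em k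
  have h3 := (h.Em_mul_Em (le_refl k)).1
  refine ⟨?_, ?_, ?_⟩
  · rw [star_add, star_sub, star_one, h.star_Em, h.star_p]
  · have h4 : (Em p T k + (1 - p)) * (Em p T k + (1 - p)) = Em p T k * Em p T k + (Em p T k - Em p T k * p) +
        (Em p T k - p * Em p T k) + (1 - p - p + p * p) := by noncomm_ring
    rw [h4, h3, h1, h2, h.p_mul]
    abel
  · have h4 : (Em p T k + (1 - p)) * (1 - p) = (Em p T k - Em p T k * p) + (1 - p - p + p * p) := by noncomm_ring
    rw [h4, h2, h.p_mul]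
    abel

/-- one element -/
theorem RSol_cut {B : Type} [CStarAlgebra B] {p T : B} (E : Ev p T) (hE : E.Good) {ζ : B}
    (h1 : star ζ * ζ = 1) (h2 : ζ * star ζ = 1) (h3 : ζ * (1 - p) = 1 - p) (h4 : E.χ ζ = 1) {η : ℝ}
    (hη : 0 < η) (hη8 : η ≤ 1 / 8) : ∃ m : ℕ, ∀ k, m ≤ k → ∃ w : B, star w * w = 1 ∧ w * star w = 1 ∧
      w * (Em p T k + (1 - p)) = Em p T k + (1 - p) ∧ ‖w - ζ‖ ≤ 8 * η := by
  obtain ⟨m, hm⟩ := hE (ζ - p) (by rw [map_sub, h4, E.map_p, sub_self]) η hη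
  refine ⟨m, fun k hk => ?_⟩
  obtain ⟨h5, h6⟩ := hm k hk
  obtain ⟨h7, h8, -⟩ := RSol_proj E.toIsLoop k
  obtain ⟨h9, h10⟩ := E.toIsLoop.p_Em k
  obtain ⟨h11, h12⟩ := RSol_comm E.star_p h1 h3
  refine cut_one h7 h8 h1 h2 hη8 ?_ ?_
  · have h13 : (ζ - 1) * (Em p T k + (1 - p)) = p * (ζ - p) * Em p T k := by
      have h14 : (ζ - 1) * (Em p T k + (1 - p)) = ζ * Em p T k - Em p T k + (ζ * (1 - p) - (1 - p)) := by
        noncomm_ring
      have h15 : p * (ζ - p) * Em p T k = (p * ζ) * Em p T k - p * (p * Em p T k) := by noncomm_ring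
      rw [h14, h3, h15, h12, mul_assoc, h9, h9, sub_self, add_zero]
    rw [h13]
    exact h5
  · have h13 : (Em p T k + (1 - p)) * (ζ - 1) = Em p T k * (ζ - p) * p := by
      have h14 : (Em p T k + (1 - p)) * (ζ - 1) = Em p T k * ζ - Em p T k + ((1 - p) * ζ - (1 - p)) := by
        noncomm_ring
      have h15 : Em p T k * (ζ - p) * p = Em p T k * (ζ * p) - (Em p T k * p) * p := by noncomm_ring
      rw [h14, h11, h15, ← h12, ← mul_assoc, h10, h10, sub_self, add_zero]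
    rw [h13]
    exact h6

theorem cut_path {B : Type} [CStarAlgebra B] {p T : B} (E : Ev p T) (hE : E.Good) {w : B}
    (hw : Ch (fun _ : Unit => p) w) (hw1 : w * (1 - p) = 1 - p) (hχ : E.χ w = 1) {ε : ℝ}
    (hε : 0 < ε) : ∃ (m : ℕ) (w' : B), ChF (Em p T m + (1 - p)) w' ∧ ‖w' - w‖ ≤ ε := by
  obtain ⟨N, ζ, hζ0, hζN, hζ, hst⟩ := lift_path E hw hw1 hχ (δ := 1 / 4) (by norm_num)
  obtain ⟨η, hη, hη1, hη2⟩ : ∃ η : ℝ, 0 < η ∧ η ≤ 1 / 32 ∧ η ≤ ε / 8 :=
    ⟨min (1 / 32) (ε / 8), by positivity, min_le_left _ _, min_le_right _ _⟩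
  have hc : ∀ i, ∃ m : ℕ, ∀ k, m ≤ k → ∃ w : B, star w * w = 1 ∧ w * star w = 1 ∧
      w * (Em p T k + (1 - p)) = Em p T k + (1 - p) ∧ ‖w - ζ i‖ ≤ 8 * η :=
    fun i => RSol_cut E hE (hζ i).1 (hζ i).2.1 (hζ i).2.2.1 (hζ i).2.2.2 hη (by linarith)
  choose m hm using hc
  obtain ⟨M, hM⟩ : ∃ M, M = (Finset.range (N + 1)).sup m := ⟨_, rfl⟩
  have hMi : ∀ i, i ≤ N → m i ≤ M := by
    intro i hi
    rw [hM]
    exact Finset.le_sup (f := m) (Finset.mem_range.2 (Nat.lt_succ_of_le hi))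
  obtain ⟨f, hf⟩ : ∃ f, f = Em p T M + (1 - p) := ⟨_, rfl⟩
  obtain ⟨h7, h8, -⟩ := RSol_proj E.toIsLoop M
  rw [← hf] at h7 h8
  have hw : ∀ i, ∃ W : B, (i ≤ N → star W * W = 1 ∧ W * star W = 1 ∧ W * f = f ∧ ‖W - ζ i‖ ≤ 8 * η) ∧
      (i = 0 → W = 1) := by
    intro i
    rcases Nat.eq_zero_or_pos i with h0 | h0
    · refine ⟨1, fun _ => ⟨by rw [star_one, mul_one], by rw [star_one, mul_one], one_mul _, ?_⟩, fun _ => rfl⟩
      rw [h0, hζ0, sub_self, norm_zero]
      linarith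
    · by_cases hi : i ≤ N
      · obtain ⟨W, k1, k2, k3, k4⟩ := hm i M (hMi i hi)
        rw [← hf] at k3
        exact ⟨W, fun _ => ⟨k1, k2, k3, k4⟩, fun h => absurd h h0.ne'⟩
      · exact ⟨1, fun h => absurd h hi, fun _ => rfl⟩
  choose W hW hW0 using hw
  have hch : ∀ i, i ≤ N → ChF f (W i) := by
    intro i
    induction i with
    | zero =>
      intro _
      rw [hW0 0 rfl]
      exact chF_one f
    | succ i ih =>
      intro hi
      have hi' : i ≤ N := by omega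
      obtain ⟨a1, a2, a3, a4⟩ := hW i hi'
      obtain ⟨b1, b2, b3, b4⟩ := hW (i + 1) hi
      have h9 : star (W i) * f = f := by
        calc star (W i) * f = star (W i) * (W i * f) := by rw [a3]
          _ = f := by rw [← mul_assoc, a1, one_mul]
      have h10 : W (i + 1) = W i * (star (W i) * W (i + 1)) := by rw [← mul_assoc, a2, one_mul]
      rw [h10]
      refine chF_mul (ih hi') (chF_of_near h7 h8 ?_ ?_ ?_ ?_)
      · rw [star_mul, star_star, mul_assoc, ← mul_assoc (W i), a2, one_mul, b1]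
      · rw [star_mul, star_star, mul_assoc, ← mul_assoc (W (i + 1)), b2, one_mul, a1]
      · rw [mul_assoc, b3, h9]
      · have h11 : star (W i) * W (i + 1) - 1 = star (W i) * (W (i + 1) - W i) := by
          rw [mul_sub, a1]
        rw [h11]
        have h12 : ‖star (W i)‖ ≤ 1 := by
          rw [norm_star]
          exact RSol_norm a1
        have h13 : ‖W (i + 1) - W i‖ ≤ ‖W (i + 1) - ζ (i + 1)‖ + ‖ζ (i + 1) - ζ i‖ + ‖W i - ζ i‖ := by
          have h14 : W (i + 1) - W i = (W (i + 1) - ζ (i + 1)) + (ζ (i + 1) - ζ i) - (W i - ζ i) := by abel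
          rw [h14]
          refine (norm_sub_le _ _).trans ?_
          gcongr
          exact norm_add_le _ _
        have h14 := hst i (by omega)
        calc ‖star (W i) * (W (i + 1) - W i)‖ ≤ ‖star (W i)‖ * ‖W (i + 1) - W i‖ := norm_mul_le _ _
          _ ≤ 1 * ‖W (i + 1) - W i‖ := by gcongr
          _ ≤ 1 := by linarith
  refine ⟨M, W N, ?_, ?_⟩
  · rw [← hf]
    exact hch N le_rfl
  · rw [← hζN]
    have := (hW N le_rfl).2.2.2
    linarith

theorem rigid_sol {B : Type} [CStarAlgebra B] {p T : B} (E : Ev p T) (hE : E.Good) {w : B}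
    (hw : Ch (fun _ : Unit => p) w) (hw1 : w * (1 - p) = 1 - p) (hχ : E.χ w = 1) {ε : ℝ}
    (hε : 0 < ε) : ∃ z : B, Ch (fun _ : Unit => p) z ∧ z * (1 - p) = 1 - p ∧
      ‖star z * w * (T * z * star T + (1 - T * star T)) - 1‖ ≤ ε := by
  obtain ⟨m, w', hw', hww⟩ := cut_path E hE hw hw1 hχ (half_pos hε)
  rw [← E.toIsLoop.pow_star_one] at hw'
  obtain ⟨M, z, hz, hzε⟩ := loop_sol E.toIsLoop.star_one hw' (half_pos hε)
  have hzm := chF_mem hz
  rw [E.toIsLoop.pow_star_one] at hz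
  obtain ⟨k1, k2⟩ := chF_to_ch E.star_p (RSol_proj E.toIsLoop M).2.2 hz
  refine ⟨z, k1, k2, ?_⟩
  obtain ⟨k3, -⟩ := RSol_comm E.star_p hzm.1 k2
  have hTq := E.toIsLoop.T_q
  have hqT : (1 - p) * star T = 0 := by
    have := congrArg star hTq
    rwa [star_mul, star_sub, star_one, E.star_p, star_zero] at this
  have hqq : (1 - p) * (1 - p) = 1 - p := by
    have h1 : (1 - p) * (1 - p) = 1 - p - p + p * p := by noncomm_ring
    rw [h1, E.p_mul]
    abel
  obtain ⟨q, hq⟩ : ∃ q, q = 1 - p := ⟨_, rfl⟩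
  have hstar : star (T + (1 - p)) = star T + (1 - p) := by rw [star_add, star_sub, star_one, E.star_p]
  rw [hstar] at hzε
  rw [← hq] at hTq hqT hqq k2 k3 hzε
  obtain ⟨θ, hθ⟩ : ∃ θ, θ = T * z * star T + (1 - T * star T) := ⟨_, rfl⟩
  have h1 : (T + q) * z * (star T + q) + (1 - (T + q) * (star T + q)) = θ := by
    have h2 : (T + q) * z * (star T + q) = T * z * star T + T * (z * q) + (q * z) * star T + (q * z) * q := by
      noncomm_ring
    have h3 : (T + q) * (star T + q) = T * star T + T * q + q * star T + q * q := by noncomm_ring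
    rw [h2, h3, k2, k3, hTq, hqT, hqq, hθ]
    abel
  rw [h1] at hzε
  rw [← hθ]
  have hθ1 : ‖θ‖ ≤ 1 := by
    apply RSol_norm
    have h4 : (star T + q) * (T + q) = 1 := by
      have := E.toIsLoop.star_one
      rw [hstar, ← hq] at this
      exact this
    have hqs : star q = q := by rw [hq, star_sub, star_one, E.star_p]
    have h5 : star θ = (T + q) * star z * (star T + q) + (1 - (T + q) * (star T + q)) := by
      rw [← h1]
      simp only [star_add, star_sub, star_mul, star_one, star_star, hqs]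
      noncomm_ring
    rw [h5, ← h1]
    obtain ⟨S, hS⟩ : ∃ S, S = T + q := ⟨_, rfl⟩
    obtain ⟨S', hS'⟩ : ∃ S', S' = star T + q := ⟨_, rfl⟩
    rw [← hS, ← hS'] at h4 ⊢
    have h6 : (S * star z * S' + (1 - S * S')) * (S * z * S' + (1 - S * S')) =
        S * star z * (S' * S) * z * S' + S * star z * (1 - (S' * S)) * S' +
          S * (1 - S' * S) * z * S' + (1 - S * S') - S * (1 - (S' * S)) * S' := by
      noncomm_ring
    rw [h6, h4]
    have h7 : S * star z * 1 * z * S' = S * (star z * z) * S' := by noncomm_ring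
    rw [h7, hzm.1]
    noncomm_ring
  have h8 : star z * w * θ - 1 = (star z * w' * θ - 1) + star z * (w - w') * θ := by noncomm_ring
  have h9 : ‖star z‖ ≤ 1 := by
    rw [norm_star]
    exact RSol_norm hzm.1
  rw [h8]
  calc ‖(star z * w' * θ - 1) + star z * (w - w') * θ‖ ≤ ‖star z * w' * θ - 1‖ + ‖star z * (w - w') * θ‖ :=
        norm_add_le _ _
    _ ≤ ε / 2 + ‖star z‖ * ‖w - w'‖ * ‖θ‖ := by
        gcongr
        exact (norm_mul_le _ _).trans (by gcongr; exact norm_mul_le _ _)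
    _ ≤ ε / 2 + 1 * (ε / 2) * 1 := by
        gcongr
        rw [norm_sub_rev]
        exact hww
    _ = ε := by ring

end Pool.Agent.RIG
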