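import Pool.Agent.RIG.KRec
import Pool.Agent.RIG.RSol

/-!
# LocC: solution on a rigid cycle

PROOF of `exists_WW` (`l₁` a list of edges, `z` with `Ch P z`, `z * (1 - P v) = 1 - P v`, the sources of `l₁` pairwise
different and different from `v`): induction on `l₁`. `l₁ = []`: `W = z` (`z * P u = z * (1 - P v) * P u = P u` for
`u ≠ v`). `e :: l₁`: `W' = KK F c (e :: l₁) z * P (s e) + W * (1 - P (s e))` with `W` from `l₁` (`KK_ch`, `ch_paste`).
Decompositions `e :: l₁ = α ++ e' :: β`: `α = []` (`e' = e`, `β = l₁`): `W' * P (s e) = KK … * P (s e)`; otherwise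
`α = e :: α'`, `l₁ = α' ++ e' :: β`, `s e' ≠ s e` (nodup) so `W' * P (s e') = W * P (s e')`.

PROOF of `loc_cycle`. `l = e₀ :: l₁`, `s e₀ = v` (`Walk`). `T = (l.map F.S).prod`. Let
`w = KK F c l 1 * P v + (1 - P v)`: `Ch P w` (`KK_ch`, `ch_paste`), so `ch_res`. `w * (1 - P v) = 1 - P v`.
`χ w = 1`: `χ (w * P v * T) = χ w * χ T = χ w * zC` and `w * P v * T = KK F c l 1 * (P v * T) =
KK F c l 1 * T = (l.map (c * F.S ·)).prod` (`p_T`, `KK_T`), so `χ w * zC = zC` by `hχ`; multiply by `star zC`
(`zC * star zC = 1`). `rigid_sol` with `ε` gives `z`; `ch_unit`: `Ch P z`. `exists_WW` for `l₁` gives `W`.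
`W * P u = P u` for `u ∉ C` (`u ≠ v`, `u ∉ sources of l₁`). Let `u ∈ C`, so `u = s e`, `l = α ++ e :: β`.
(1) `th W * P u = thE F e W * P u`: for an edge `f ≠ e` with `s f = u`: `r f ∉ C` (otherwise `f ∈ l` by `hin`, and `f = e`
by `hn`), so `S_f W S_f* = S_f (W P (r f)) S_f* = S_f S_f*`.
(2) `W * P (r e) = KK F c β z * P (r e)`: `Walk`: if `β = []` then `r e = v`, and `W * P v = z * P v`; if `β = e' :: β'`
then `r e = s e'`, and `l₁ = α₁ ++ e' :: β'` for some `α₁` (`l = α ++ [e] ++ e' :: β'`).
(3) So `c * thE F e W * P u = c * thE F e (KK F c β z) * P u = KK F c (e :: β) z * P u`.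
(4) If `α ≠ []` then `e :: β` is a final part of `l₁`: this is `W * P u`, so
`(star W * c * th W - 1) * P u = star W * W * P u - P u = 0`.
(5) If `α = []`: `e = e₀`, `u = v`, `β = l₁`: `star W * c * th W * P v = star W * KK F c l z * P v =
star W * P v * KK F c l z` (`KK` commutes with `P v`) `= star z * P v * KK F c l z = star z * KK F c l 1 * P v * Θ`,
with `Θ = T z T* + (1 - T T* )` (`KK_eq`; `Θ` commutes with `P v` since `P v * T = T`), and
`(star z * w * Θ - 1) * P v` is the same minus `P v`. So its norm is `≤ ε`.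
-/

namespace Pool.Agent.RIG

open Pool.Agent.AUE Pool.Agent.GHT

variable {V : Type} {G : Gr V} {B : Type} [CStarAlgebra B] {P : V → B}

theorem exists_WW (hP : IsPrj P) (F : Fam G P) {c z : B} (hc : Ch P c) (hz : Ch P z) {v : V}
    (hz1 : z * (1 - P v) = 1 - P v) (l₁ : List G.Ed) (hn : (l₁.map G.s).Nodup)
    (hv : v ∉ l₁.map G.s) :
    ∃ W, Ch P W ∧ W * P v = z * P v ∧ (∀ u, u ≠ v → u ∉ l₁.map G.s → W * P u = P u) ∧
      ∀ α e β, l₁ = α ++ e :: β → W * P (G.s e) = KK F c (e :: β) z * P (G.s e) := by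
  induction l₁ with
  | nil =>
    refine ⟨z, hz, rfl, ?_, ?_⟩
    · intro u hu _
      have h1 : (1 - P v) * P u = P u := by
        rw [sub_mul, one_mul, hP.orth v u (Ne.symm hu), sub_zero]
      calc z * P u = z * ((1 - P v) * P u) := by rw [h1]
        _ = (z * (1 - P v)) * P u := by rw [mul_assoc]
        _ = P u := by rw [hz1, h1]
    · intro α e β h
      exact absurd h (by simp)
  | cons e l ih =>
    simp only [List.map_cons, List.nodup_cons, List.mem_cons, not_or] at hn hv
    obtain ⟨W, hW, h1, h2, h3⟩ := ih hn.2 hv.2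
    have hK := KK_ch hP F hc hz (e :: l)
    have key : ∀ u, u ≠ G.s e →
        (KK F c (e :: l) z * P (G.s e) + W * (1 - P (G.s e))) * P u = W * P u := by
      intro u hu
      have h0 : P (G.s e) * P u = 0 := hP.orth _ _ (Ne.symm hu)
      rw [add_mul, mul_assoc, h0, mul_zero, zero_add, mul_assoc, sub_mul, one_mul, h0, sub_zero]
    refine ⟨KK F c (e :: l) z * P (G.s e) + W * (1 - P (G.s e)), ch_paste hP hK hW (G.s e),
      ?_, ?_, ?_⟩
    · rw [key v hv.1, h1]
    · intro u hu hu'
      simp only [List.map_cons, List.mem_cons, not_or] at hu'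
      rw [key u hu'.1, h2 u hu hu'.2]
    · intro α e' β h
      cases α with
      | nil =>
        simp only [List.nil_append, List.cons.injEq] at h
        obtain ⟨rfl, rfl⟩ := h
        rw [add_mul, mul_assoc, hP.mul_self, mul_assoc, sub_mul, one_mul, hP.mul_self, sub_self,
          mul_zero, add_zero]
      | cons a α' =>
        simp only [List.cons_append, List.cons.injEq] at h
        obtain ⟨rfl, h⟩ := h
        have hne : G.s e' ≠ G.s e := by
          intro h'
          apply hn.1
          rw [← h', h]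
          simp
        rw [key _ hne, h3 _ _ _ h]

theorem LocC_walk {G : Gr V} (α : List G.Ed) (e : G.Ed) (β : List G.Ed) : ∀ (u w : V),
    G.Walk u (α ++ e :: β) w → G.Walk (G.r e) β w := by
  induction α with
  | nil => intro u w h; exact h.2
  | cons a α ih => intro u w h; exact ih _ _ h.2

theorem LocC_one_add (F : Fam G P) (x : B) :
    F.th x = 1 + ∑ f, (F.S f * x * star (F.S f) - F.S f * star (F.S f)) := by
  unfold Fam.th Fam.lam
  rw [Finset.sum_sub_distrib]
  simp only [mul_one]
  abel

theorem LocC_thE (F : Fam G P) (e : G.Ed) (x : B) :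
    thE F e x = 1 + (F.S e * x * star (F.S e) - F.S e * star (F.S e)) := by
  unfold thE
  abel

theorem LocC_star_S_P (hP : IsPrj P) (F : Fam G P) (f : G.Ed) (u : V) (h : G.s f ≠ u) :
    star (F.S f) * P u = 0 := by
  have h1 := F.P_S_ne hP f (v := u) (Ne.symm h)
  have h2 := congrArg star h1
  rwa [star_mul, hP.star_eq, star_zero] at h2

theorem LocC_mid (hP : IsPrj P) (F : Fam G P) (f : G.Ed) {W X : B}
    (h : W * P (G.r f) = X * P (G.r f)) :
    F.S f * W * star (F.S f) = F.S f * X * star (F.S f) := by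
  have h1 : P (G.r f) * star (F.S f) = star (F.S f) := by
    have h2 := congrArg star (F.S_P hP f)
    rwa [star_mul, hP.star_eq] at h2
  calc F.S f * W * star (F.S f) = F.S f * (W * P (G.r f)) * star (F.S f) := by
        rw [mul_assoc (F.S f) (W * P (G.r f)), mul_assoc W, h1, mul_assoc]
    _ = F.S f * (X * P (G.r f)) * star (F.S f) := by rw [h]
    _ = F.S f * X * star (F.S f) := by
        rw [mul_assoc (F.S f) (X * P (G.r f)), mul_assoc X, h1, mul_assoc]

theorem loc_cycle (hP : IsPrj P) (F : Fam G P) {c : B} (hc : Ch P c) {v : V} {l : List G.Ed}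
    (hl : l ≠ []) (hw : G.Walk v l v) (hn : (l.map G.s).Nodup) {C : Set V}
    (hC : ∀ u, u ∈ C ↔ u ∈ l.map G.s) (hin : ∀ f : G.Ed, G.s f ∈ C → G.r f ∈ C → f ∈ l)
    (E : Ev (P v) (l.map F.S).prod) (hE : E.Good)
    (hχ : E.χ (l.map (fun e => c * F.S e)).prod = zC) : LocSol F c C := by
  classical
  intro ε hε
  obtain ⟨e₀, l₁, hll⟩ : ∃ e₀ l₁, l = e₀ :: l₁ := List.exists_cons_of_ne_nil hl
  have hs0 : G.s e₀ = v := by rw [hll] at hw; exact hw.1
  obtain ⟨T, hT⟩ : ∃ T, T = (l.map F.S).prod := ⟨_, rfl⟩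
  obtain ⟨K1, hK1⟩ : ∃ K1, K1 = KK F c l 1 := ⟨_, rfl⟩
  have hK1c : Ch P K1 := by rw [hK1]; exact KK_ch hP F hc Ch_one _
  have hPT : P v * T = T := by rw [hT]; exact E.p_T
  obtain ⟨w, hwd⟩ : ∃ w, w = K1 * P v + (1 - P v) := ⟨_, rfl⟩
  have hwc : Ch P w := by
    have h1 := ch_paste hP hK1c (Ch_one (P := P)) v
    rw [one_mul] at h1
    rw [hwd]
    exact h1
  have hq : (1 - P v) * P v = 0 := by rw [sub_mul, one_mul, hP.mul_self, sub_self]
  have hq' : P v * (1 - P v) = 0 := by rw [mul_sub, mul_one, hP.mul_self, sub_self]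
  have hqq : (1 - P v) * (1 - P v) = 1 - P v := by
    rw [mul_sub, mul_one, hq, sub_zero]
  have hw1 : w * (1 - P v) = 1 - P v := by
    rw [hwd, add_mul, mul_assoc, hq', mul_zero, zero_add, hqq]
  have hwP : w * P v = K1 * P v := by
    rw [hwd, add_mul, mul_assoc, hP.mul_self, hq, add_zero]
  have hχw : E.χ w = 1 := by
    have a1 : E.χ (w * P v * (l.map F.S).prod) = E.χ w * E.χ (l.map F.S).prod := E.map_mul w _
    have a2 : w * P v * (l.map F.S).prod = (l.map (fun e => c * F.S e)).prod := by
      rw [hwP, ← hT, mul_assoc, hPT, hT, hK1]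
      exact KK_T hP F hc l
    rw [a2, hχ, E.map_T] at a1
    have h3 : (zC : C(Circle, ℂ)) * star zC = 1 := by
      ext t
      show (t : ℂ) * (starRingEnd ℂ) (t : ℂ) = 1
      rw [Complex.mul_conj, Complex.normSq_eq_norm_sq, Circle.norm_coe]
      norm_num
    calc E.χ w = E.χ w * (zC * star zC) := by rw [h3, mul_one]
      _ = (E.χ w * zC) * star zC := by rw [mul_assoc]
      _ = 1 := by rw [← a1, h3]
  obtain ⟨z, hz, hz1, hzn⟩ := rigid_sol E hE (ch_res hP hwc v) hw1 hχw hε
  rw [← hT] at hzn
  have hzP : Ch P z := ch_unit hP hz hz1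
  have hnd : (l₁.map G.s).Nodup := by
    rw [hll, List.map_cons, List.nodup_cons] at hn; exact hn.2
  have hvn : v ∉ l₁.map G.s := by
    rw [hll, List.map_cons, List.nodup_cons, hs0] at hn; exact hn.1
  obtain ⟨W, hW, hWv, hWu, hWe⟩ := exists_WW hP F hc hzP hz1 l₁ hnd hvn
  have hWout : ∀ u, u ∉ C → W * P u = P u := by
    intro u hu
    rw [hC, hll, List.map_cons, List.mem_cons, not_or, hs0] at hu
    exact hWu u hu.1 hu.2
  refine ⟨W, hW, hWout, ?_⟩
  intro u hu
  obtain ⟨e, hel, heu⟩ := List.mem_map.1 ((hC u).1 hu)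
  obtain ⟨α, β, hab⟩ := List.append_of_mem hel
  subst heu
  -- step 1
  have step1 : F.th W * P (G.s e) = thE F e W * P (G.s e) := by
    rw [LocC_one_add, LocC_thE, add_mul, add_mul, Finset.sum_mul]
    congr 1
    apply Finset.sum_eq_single e
    · intro f _ hfe
      by_cases hsf : G.s f = G.s e
      · have hrf : G.r f ∉ C := by
          intro hrf
          have hfl : f ∈ l := hin f (by rw [hsf]; exact hu) hrf
          exact hfe (List.inj_on_of_nodup_map hn hfl hel hsf)
        have h1 : W * P (G.r f) = 1 * P (G.r f) := by rw [one_mul]; exact hWout _ hrf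
        rw [LocC_mid hP F f h1, mul_one, sub_self, zero_mul]
      · have h0 := LocC_star_S_P hP F f _ hsf
        rw [sub_mul, mul_assoc (F.S f * W), h0, mul_zero, zero_sub, mul_assoc, h0, mul_zero,
          neg_zero]
    · intro h
      exact absurd (Finset.mem_univ e) h
  -- step 2
  have step2 : W * P (G.r e) = KK F c β z * P (G.r e) := by
    rw [hab] at hw
    have hwk := LocC_walk α e β _ _ hw
    cases β with
    | nil =>
      have h1 : G.r e = v := hwk
      rw [h1, hWv]
      rfl
    | cons e' β' =>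
      have h1 : G.s e' = G.r e := hwk.1
      rw [← h1]
      cases α with
      | nil =>
        rw [hll, List.nil_append, List.cons.injEq] at hab
        exact hWe [] e' β' hab.2
      | cons a α' =>
        rw [hll, List.cons_append, List.cons.injEq] at hab
        exact hWe (α' ++ [e]) e' β' (by rw [hab.2]; simp)
  -- step 3
  have step3 : c * F.th W * P (G.s e) = KK F c (e :: β) z * P (G.s e) := by
    have h1 : thE F e W = thE F e (KK F c β z) := by
      unfold thE
      rw [LocC_mid hP F e step2]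
    rw [mul_assoc, step1, h1, ← mul_assoc]
    rfl
  have hWmem := hW.mem
  cases α with
  | cons a α' =>
    rw [hll, List.cons_append, List.cons.injEq] at hab
    have h1 := hWe α' e β hab.2
    have h2 : (star W * c * F.th W - 1) * P (G.s e) = 0 := by
      calc (star W * c * F.th W - 1) * P (G.s e)
          = star W * (c * F.th W * P (G.s e)) - P (G.s e) := by noncomm_ring
        _ = star W * (W * P (G.s e)) - P (G.s e) := by rw [step3, h1]
        _ = 0 := by rw [← mul_assoc, hWmem.1, one_mul, sub_self]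
    rw [h2, norm_zero]
    exact hε.le
  | nil =>
    rw [hll, List.nil_append, List.cons.injEq] at hab
    obtain ⟨rfl, rfl⟩ := hab
    rw [hs0] at step3 ⊢
    rw [← hll] at step3
    have hzm := hzP.mem
    have hWsv : star W * P v = star z * P v := by
      have h1 : P v * W = P v * z := by rw [hWmem.2.2 v, hWv, hzm.2.2 v]
      have h2 := congrArg star h1
      rwa [star_mul, star_mul, hP.star_eq] at h2
    have hzc : ∀ u, P u * z = z * P u := hzm.2.2
    have hKK := KK_eq hP F hc hzc l
    rw [← hK1, ← hT] at hKK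
    obtain ⟨Θ, hΘ⟩ : ∃ Θ, Θ = T * z * star T + (1 - T * star T) := ⟨_, rfl⟩
    rw [← hΘ] at hKK hzn
    have hTs : star T * P v = star T := by
      have h2 := congrArg star hPT
      rwa [star_mul, hP.star_eq] at h2
    have hΘP : P v * Θ = Θ * P v := by
      rw [hΘ]
      calc P v * (T * z * star T + (1 - T * star T))
          = (P v * T) * z * star T + (P v - (P v * T) * star T) := by noncomm_ring
        _ = T * z * star T + (P v - T * star T) := by rw [hPT]
        _ = T * z * (star T * P v) + (P v - T * (star T * P v)) := by rw [hTs]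
        _ = (T * z * star T + (1 - T * star T)) * P v := by noncomm_ring
    have hKP : P v * KK F c l z = KK F c l z * P v := (KK_ch hP F hc hzP l).mem.2.2 v
    have hsW : P v * star W = star W * P v := (UD_star hP hWmem).2.2 v
    have e1 : (star W * c * F.th W - 1) * P v = (star z * w * Θ - 1) * P v := by
      calc (star W * c * F.th W - 1) * P v = star W * (c * F.th W * P v) - P v := by noncomm_ring
        _ = star W * (KK F c l z * P v) - P v := by rw [step3]
        _ = star W * (P v * KK F c l z) - P v := by rw [hKP]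
        _ = (star W * P v) * KK F c l z - P v := by rw [mul_assoc]
        _ = star z * (P v * KK F c l z) - P v := by rw [hWsv, mul_assoc]
        _ = star z * (K1 * Θ * P v) - P v := by rw [hKP, hKK]
        _ = star z * (K1 * (P v * Θ)) - P v := by rw [mul_assoc K1, hΘP]
        _ = star z * ((w * P v) * Θ) - P v := by rw [hwP, mul_assoc K1]
        _ = star z * (w * (P v * Θ)) - P v := by rw [mul_assoc w]
        _ = (star z * w * Θ - 1) * P v := by rw [hΘP]; noncomm_ring
    rw [e1]
    calc ‖(star z * w * Θ - 1) * P v‖ ≤ ‖star z * w * Θ - 1‖ * ‖P v‖ := norm_mul_le _ _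
      _ ≤ ε * 1 := by
        apply mul_le_mul hzn (hP.norm_le v) (norm_nonneg _) hε.le
      _ = ε := mul_one _

end Pool.Agent.RIG
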