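import Pool.Agent.RIG.Ind
import Pool.Agent.RIG.LocC
import Pool.Agent.RIG.FSubC
import Pool.Agent.RIG.ApxB

/-!
# AppL: the cocycle equation for the canonical family

`canF`: the canonical family of a finite subgraph in the unitization `B` of `A`.

`inr_lprod`: `inr (lprod (l.map Φ.s)) = sp Φ l` for `l ≠ []` (induction on `l`, cases of `lprod`).
`lprod_map`: `ψ (lprod l) = lprod (l.map ψ)` for a homomorphism.

PROOF of `sol_fin`. `solY_univ` with `hG`: for the second alternative `v, l` (for the edge `e`), let `u0 = s e`,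
`C = {u | Reach u0 u ∧ Reach u u0}`, `Ch P W`, `c' = star W * c * th W` (`Ch P c'`). We apply `loc_cycle` for `c'`, `v`, `l`
with `only_comp` (`l ≠ []` as `OnlyReturn` says `l.map val ≠ []`). `exists_chi` for `l.map val` gives `D, π, E` and
`ev_good`: `E.Good`; `(l.map F.S).prod = sp Φ (l.map val)` (`List.map_map`, definitional). It remains:
`E.χ ((l.map (c' * F.S ·)).prod) = zC`. Since `c' S_e = star W * c * th W * S_e = star W * (c * S_e) * W` (`th_S`) and
`W * star W = 1`: `(l.map (c' * F.S ·)).prod = star W * (l.map (c * F.S ·)).prod * W` (induction on `l`, `l ≠ []`), and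
`c * S_e = inr (adU u (ψ (s e)))` (`hc2`), so the product is `inr (adU u (ψ (lprod ((l.map val).map Φ.s))))`
(`inr_lprod`, `lprod_map`). Let `x = lprod (…)`. So the element is `inr (adU u' (ψ x))`, `u' = star W * u` (a unitary of
the unitization), as `adU u' = adU (star W) ∘ adU u` (`adU_mul`, `inr_adU`). `adU u' (ψ (p v)) =
adU (star W) (p v) = p v` since `W` commutes with `inr (p v)` (`v ∈ V1`, `hc1`). `hR` gives
`π (adU u' (ψ x)) = π x`, so `π (adU u' (ψ x) - x) = 0`, so `E.χ (inr (adU u' (ψ x))) = E.χ (inr x) = E.χ (sp Φ _) = zC`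
(`map_T`).
-/

namespace Pool.Agent.RIG

open Pool.Agent.AUE Pool.Agent.GHT

/-- The canonical family of a finite subgraph. -/
noncomputable def canF {G : DGraph} {A : Type} [NonUnitalCStarAlgebra A] (Φ : CKFam G A)
    (V1 : Finset G.V) (E1 : Finset G.E) (hs : ∀ e ∈ E1, G.s e ∈ V1) (hr : ∀ e ∈ E1, G.r e ∈ V1) :
    Fam (subG G V1 E1 hs hr) (fun v : {v : G.V // v ∈ V1} => ((Φ.p v.1 : A) : Unitization ℂ A))
    where
  S := fun e : {e : G.E // e ∈ E1} => ((Φ.s e.1 : A) : Unitization ℂ A)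
  star_mul := by
    rintro ⟨e, he⟩
    show star ((Φ.s e : A) : Unitization ℂ A) * ((Φ.s e : A) : Unitization ℂ A) =
      ((Φ.p (G.r e) : A) : Unitization ℂ A)
    rw [← Unitization.inr_star, ← Unitization.inr_mul, Φ.s_star_s]
  orth := by
    rintro ⟨e, he⟩ ⟨f, hf⟩ h
    show star ((Φ.s e : A) : Unitization ℂ A) * ((Φ.s f : A) : Unitization ℂ A) = 0
    rw [← Unitization.inr_star, ← Unitization.inr_mul, Φ.s_orth e f, Unitization.inr_zero]
    rintro rfl
    exact h rfl
  P_mul := by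
    rintro ⟨e, he⟩
    show ((Φ.p (G.s e) : A) : Unitization ℂ A) * ((Φ.s e : A) : Unitization ℂ A) =
      ((Φ.s e : A) : Unitization ℂ A)
    rw [← Unitization.inr_mul, Φ.p_s]

theorem canF_isPrj {G : DGraph} {A : Type} [NonUnitalCStarAlgebra A] (Φ : CKFam G A)
    (V1 : Finset G.V) :
    IsPrj (fun v : {v : G.V // v ∈ V1} => ((Φ.p v.1 : A) : Unitization ℂ A)) where
  star_eq := by
    intro v
    rw [← Unitization.inr_star, Φ.p_star]
  mul_self := by
    intro v
    rw [← Unitization.inr_mul, Φ.p_mul]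
  orth := by
    intro v w h
    rw [← Unitization.inr_mul, Φ.p_orth v.1 w.1 (fun h' => h (Subtype.ext h')),
      Unitization.inr_zero]

/-- the product in the unitization of the images of the members of a list -/
theorem AppL_prod {A : Type} [NonUnitalCStarAlgebra A] (g : A →⋆ₙₐ[ℂ] A) (L : List A) (hL : L ≠ []) :
    (L.map (fun a => ((g a : A) : Unitization ℂ A))).prod = ((g (lprod L) : A) : Unitization ℂ A) := by
  induction L with
  | nil => exact absurd rfl hL
  | cons a L ih =>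
    cases L with
    | nil =>
      simp only [List.map_cons, List.map_nil, List.prod_cons, List.prod_nil, mul_one, lprod]
    | cons b L =>
      rw [List.map_cons, List.prod_cons, ih (by simp)]
      show _ = ((g (a * lprod (b :: L)) : A) : Unitization ℂ A)
      rw [map_mul, Unitization.inr_mul]

theorem sol_fin {G : DGraph} {A : Type} [NonUnitalCStarAlgebra A] (Φ : CKFam G A)
    (hΦ : Φ.IsUniversal) {ψ : A →⋆ₙₐ[ℂ] A} (hR : Rgd Φ ψ) {V1 : Finset G.V} {E1 : Finset G.E}
    (hs : ∀ e ∈ E1, G.s e ∈ V1) (hr : ∀ e ∈ E1, G.r e ∈ V1)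
    (hG : ∀ e : (subG G V1 E1 hs hr).Ed,
      (subG G V1 E1 hs hr).Reach ((subG G V1 E1 hs hr).r e) ((subG G V1 E1 hs hr).s e) →
      (∃ f f' : (subG G V1 E1 hs hr).Ed, f ≠ f' ∧
        (subG G V1 E1 hs hr).s f = (subG G V1 E1 hs hr).s f' ∧
        (subG G V1 E1 hs hr).Reach ((subG G V1 E1 hs hr).s e) ((subG G V1 E1 hs hr).s f) ∧
        (subG G V1 E1 hs hr).Reach ((subG G V1 E1 hs hr).r f) ((subG G V1 E1 hs hr).s e) ∧
        (subG G V1 E1 hs hr).Reach ((subG G V1 E1 hs hr).r f') ((subG G V1 E1 hs hr).s e)) ∨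
      ∃ (v : {v : G.V // v ∈ V1}) (l : List {e : G.E // e ∈ E1}),
        OnlyReturn G v.1 (l.map Subtype.val) ∧
        (subG G V1 E1 hs hr).Reach v ((subG G V1 E1 hs hr).s e) ∧
        (subG G V1 E1 hs hr).Reach ((subG G V1 E1 hs hr).s e) v)
    (u : unitary (Unitization ℂ A)) {c : Unitization ℂ A}
    (hc : Ch (fun v : {v : G.V // v ∈ V1} => ((Φ.p v.1 : A) : Unitization ℂ A)) c)
    (hc1 : ∀ v ∈ V1, adU u (ψ (Φ.p v)) = Φ.p v)
    (hc2 : ∀ e ∈ E1, ((adU u (ψ (Φ.s e)) : A) : Unitization ℂ A) =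
      c * ((Φ.s e : A) : Unitization ℂ A)) :
    SolY (canF Φ V1 E1 hs hr) c Set.univ := by
  have hP := canF_isPrj Φ V1
  refine solY_univ hP (canF Φ V1 E1 hs hr) hc ?_
  intro e he
  rcases hG e he with h1 | ⟨v, l, hO, hr1, hr2⟩
  · exact Or.inl h1
  right
  intro W hW
  have hWm := hW.mem
  have hc' := Ch.mul (Ch.mul (Ch.star hP hW) hc) (Ch.th (canF Φ V1 E1 hs hr) hP hW)
  obtain ⟨hw, hn, hC, hin⟩ := only_comp hO hr1 hr2
  obtain ⟨D, iD, π, E, hE1, hE2, hE3⟩ := exists_chi hO Φ hΦ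
  have hgood := ev_good hO Φ hΦ E
  have hl : l ≠ [] := by
    intro h0
    apply hO.1.1
    rw [h0]
    rfl
  have hsp : (l.map (canF Φ V1 E1 hs hr).S).prod = sp Φ (l.map Subtype.val) := by
    unfold sp
    rw [List.map_map]
    rfl
  obtain ⟨E, hgood, hE1⟩ : ∃ E : Ev ((Φ.p v.1 : A) : Unitization ℂ A) (l.map (canF Φ V1 E1 hs hr).S).prod,
      E.Good ∧ ∀ y : A, π y = 0 → E.χ (y : Unitization ℂ A) = 0 := by
    rw [hsp]
    exact ⟨E, hgood, hE1⟩
  refine loc_cycle hP (canF Φ V1 E1 hs hr) hc' hl hw hn (C := _) (fun w => hC w) (fun f h1 h2 => hin f h1 h2)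
    E hgood ?_
  -- the unitary
  have hWu : star W ∈ unitary (Unitization ℂ A) := by
    rw [Unitary.mem_iff, star_star]
    exact ⟨hWm.2.1, hWm.1⟩
  have hinr : ∀ b : A, ((adU (⟨star W, hWu⟩ * u) b : A) : Unitization ℂ A) =
      star W * ((adU u b : A) : Unitization ℂ A) * W := by
    intro b
    rw [inr_adU, inr_adU]
    show star W * (u : Unitization ℂ A) * (b : Unitization ℂ A) * star (star W * (u : Unitization ℂ A)) = _
    rw [star_mul, star_star]
    simp only [mul_assoc]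
  have hS : ∀ f : {e : G.E // e ∈ E1}, star W * c * (canF Φ V1 E1 hs hr).th W * (canF Φ V1 E1 hs hr).S f =
      (((adU (⟨star W, hWu⟩ * u)).comp ψ (Φ.s f.1) : A) : Unitization ℂ A) := by
    intro f
    have h3 := (canF Φ V1 E1 hs hr).th_S hP hWm.2.2 f
    have h4 : c * (canF Φ V1 E1 hs hr).S f = ((adU u (ψ (Φ.s f.1)) : A) : Unitization ℂ A) :=
      (hc2 f.1 f.2).symm
    show _ = ((adU (⟨star W, hWu⟩ * u) (ψ (Φ.s f.1)) : A) : Unitization ℂ A)
    rw [hinr, ← h4, mul_assoc, h3]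
    simp only [mul_assoc]
  have hpv : adU (⟨star W, hWu⟩ * u) (ψ (Φ.p v.1)) = Φ.p v.1 := by
    apply Unitization.inr_injective (R := ℂ)
    rw [hinr, hc1 v.1 v.2]
    have h5 := hWm.2.2 v
    rw [mul_assoc, h5, ← mul_assoc, hWm.1, one_mul]
  have hL : ((l.map Subtype.val).map Φ.s) ≠ [] := by
    intro h0
    rw [List.map_eq_nil_iff, List.map_eq_nil_iff] at h0
    exact hl h0
  have hπ := hR v.1 (l.map Subtype.val) hO D π hE2 hE3 _ hpv
  have e1 : (l.map (fun f => star W * c * (canF Φ V1 E1 hs hr).th W * (canF Φ V1 E1 hs hr).S f)).prod =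
      (((adU (⟨star W, hWu⟩ * u)).comp ψ (lprod ((l.map Subtype.val).map Φ.s)) : A) : Unitization ℂ A) := by
    rw [← AppL_prod _ _ hL, List.map_map, List.map_map]
    congr 1
    apply List.map_congr_left
    intro f _
    exact hS f
  have e2 : (l.map (canF Φ V1 E1 hs hr).S).prod =
      ((lprod ((l.map Subtype.val).map Φ.s) : A) : Unitization ℂ A) := by
    have h6 := AppL_prod (NonUnitalStarAlgHom.id ℂ A) _ hL
    rw [List.map_map, List.map_map] at h6
    exact h6
  have h7 : π ((adU (⟨star W, hWu⟩ * u)).comp ψ (lprod ((l.map Subtype.val).map Φ.s)) -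
      lprod ((l.map Subtype.val).map Φ.s)) = 0 := by
    rw [map_sub, sub_eq_zero]
    exact hπ
  have h8 := hE1 _ h7
  rw [Unitization.inr_sub, map_sub, sub_eq_zero, ← e1, ← e2, E.map_T] at h8
  exact h8

end Pool.Agent.RIG
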