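import Mathlib

/-!
# Arg: logarithms of chains of unimodular functions on the circle

PROOF of `exists_log`. Let `r t = g (j+1) t / g j t`, `‖r t - 1‖ = ‖g (j+1) t - g j t‖ ≤ δ ≤ 1`, `‖r t‖ = 1`, so
`re (r t) ≥ 1 / 2 > 0`, `r t` is in the slit plane, `k j t = arg (r t)` is continuous in `t`
(`Complex.continuousAt_arg`), `exp (I * k j t) = r t` (`Complex.norm_mul_exp_arg_mul_I`), and
`|arg r| ≤ 2 ‖r - 1‖`: with `θ = arg r`, `|θ| ≤ π`: `‖r - 1‖ = 2 |sin (θ / 2)| ≥ 2 * (2 / π) * |θ / 2| ≥ |θ| / 2`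
(`Real.mul_abs_le_abs_sin` or `Real.mul_le_sin`, `π ≤ 4`). Define `h 0 = 0`, `h (j+1) = h j + k j` if `j < N` (and
`h (j+1) = h j` otherwise). The norm of a continuous function is the supremum (`ContinuousMap.norm_le`).

PROOF of `const_log`. For each `t` there is an integer `n` with `h t = 2 π n` (`Complex.exp_eq_one_iff`). The
function `x ↦ h (Circle.exp x)` on `ℝ` is continuous with values in `2 π ℤ`, so it is constant (`ℝ` is
connected; e.g. if `h t ≠ h t'` an intermediate value is not in `2 π ℤ`), and `Circle.exp` is surjective.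
-/

namespace Pool.Agent.RIG

theorem Arg_re {r : ℂ} (h1 : ‖r‖ = 1) (h2 : ‖r - 1‖ ≤ 1) : 1 / 2 ≤ r.re := by
  have e1 : r.re * r.re + r.im * r.im = 1 := by
    rw [← Complex.normSq_apply, Complex.normSq_eq_norm_sq, h1]; norm_num
  have e2 : (r.re - 1) * (r.re - 1) + r.im * r.im ≤ 1 := by
    have : Complex.normSq (r - 1) ≤ 1 := by
      rw [Complex.normSq_eq_norm_sq]
      have := norm_nonneg (r - 1)
      nlinarith
    rw [Complex.normSq_apply] at this
    simpa using this
  nlinarith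

theorem Arg_le {r : ℂ} (h1 : ‖r‖ = 1) : |Complex.arg r| ≤ 2 * ‖r - 1‖ := by
  set θ := Complex.arg r with hθ
  have hr : r = Complex.exp (θ * Complex.I) := by
    have := Complex.norm_mul_exp_arg_mul_I r
    rw [h1, Complex.ofReal_one, one_mul] at this
    exact this.symm
  have e1 : ‖r - 1‖ = ‖2 * Real.sin (θ / 2)‖ := by
    rw [hr, mul_comm]
    exact Complex.norm_exp_I_mul_ofReal_sub_one θ
  have hpi : |θ| ≤ Real.pi := Complex.abs_arg_le_pi r
  have h4 : Real.pi ≤ 4 := Real.pi_le_four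
  have hp := Real.pi_pos
  have e2 : 2 / Real.pi * |θ / 2| ≤ |Real.sin (θ / 2)| := by
    apply Real.mul_abs_le_abs_sin
    rw [abs_div, abs_of_pos (by norm_num : (0 : ℝ) < 2)]
    linarith
  rw [e1, Real.norm_eq_abs, abs_mul, abs_of_pos (by norm_num : (0 : ℝ) < 2)]
  rw [abs_div, abs_of_pos (by norm_num : (0 : ℝ) < 2)] at e2
  have e3 : 1 / 4 * |θ| ≤ 2 / Real.pi * (|θ| / 2) := by
    have : 1 / 4 ≤ 1 / Real.pi := one_div_le_one_div_of_le hp h4
    have h0 := abs_nonneg θ
    calc 1 / 4 * |θ| ≤ 1 / Real.pi * |θ| := mul_le_mul_of_nonneg_right this h0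
      _ = 2 / Real.pi * (|θ| / 2) := by ring
  linarith

theorem Arg_step (f g : C(Circle, ℂ)) (hf : ∀ t, ‖f t‖ = 1) (hg : ∀ t, ‖g t‖ = 1)
    {δ : ℝ} (hδ : δ ≤ 1) (hs : ‖g - f‖ ≤ δ) :
    ∃ k : C(Circle, ℝ), (∀ t, Complex.exp (Complex.I * (k t : ℂ)) = g t / f t) ∧ ‖k‖ ≤ 2 * δ := by
  have h0 : ∀ t, f t ≠ 0 := fun t h => by have := hf t; rw [h] at this; simp at this
  have h1 : ∀ t, ‖g t / f t‖ = 1 := fun t => by rw [norm_div, hf, hg, div_one]
  have h2 : ∀ t, ‖g t / f t - 1‖ ≤ δ := by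
    intro t
    have e : g t / f t - 1 = (g t - f t) / f t := by
      rw [sub_div, div_self (h0 t)]
    rw [e, norm_div, hf, div_one]
    exact ((g - f).norm_coe_le_norm t).trans hs
  have hδ0 : 0 ≤ δ := (norm_nonneg _).trans hs
  have hsl : ∀ t, g t / f t ∈ Complex.slitPlane := by
    intro t
    left
    have := Arg_re (h1 t) ((h2 t).trans hδ)
    linarith
  refine ⟨⟨fun t => Complex.arg (g t / f t), ?_⟩, ?_, ?_⟩
  · apply continuous_iff_continuousAt.2
    intro t
    have hc : ContinuousAt (fun t => g t / f t) t :=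
      (g.continuous.continuousAt).div (f.continuous.continuousAt) (h0 t)
    exact ContinuousAt.comp (f := fun t => g t / f t) (g := Complex.arg) (Complex.continuousAt_arg (hsl t)) hc
  · intro t
    show Complex.exp (Complex.I * ((Complex.arg (g t / f t) : ℝ) : ℂ)) = g t / f t
    have := Complex.norm_mul_exp_arg_mul_I (g t / f t)
    rw [h1 t, Complex.ofReal_one, one_mul] at this
    rw [mul_comm]
    exact this
  · rw [ContinuousMap.norm_le _ (by linarith)]
    intro t
    show |Complex.arg (g t / f t)| ≤ 2 * δ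
    exact (Arg_le (h1 t)).trans (by linarith [h2 t])

theorem exists_log {N : ℕ} (g : ℕ → C(Circle, ℂ)) (h0 : g 0 = 1) (hu : ∀ j t, ‖g j t‖ = 1)
    {δ : ℝ} (hδ : δ ≤ 1) (hs : ∀ j < N, ‖g (j + 1) - g j‖ ≤ δ) :
    ∃ h : ℕ → C(Circle, ℝ), h 0 = 0 ∧
      (∀ j ≤ N, ∀ t, Complex.exp (Complex.I * (h j t : ℂ)) = g j t) ∧
      ∀ j < N, ‖h (j + 1) - h j‖ ≤ 2 * δ := by
  classical
  choose k hk1 hk2 using fun (j : ℕ) (hj : j < N) => Arg_step (g j) (g (j + 1)) (hu j) (hu (j + 1)) hδ (hs j hj)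
  let K : ℕ → C(Circle, ℝ) := fun j => if hj : j < N then k j hj else 0
  refine ⟨fun j => ∑ i ∈ Finset.range j, K i, ?_, ?_, ?_⟩
  · simp
  · intro j
    induction j with
    | zero => intro _ t; simp [h0]
    | succ j ih =>
      intro hj t
      have hj' : j < N := hj
      have h1 := ih hj'.le t
      have e : ((∑ i ∈ Finset.range (j + 1), K i) t : ℝ) = (∑ i ∈ Finset.range j, K i) t + k j hj' t := by
        rw [Finset.sum_range_succ, ContinuousMap.add_apply]
        simp only [K, hj', dif_pos]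
      have hne : g j t ≠ 0 := fun h => by have := hu j t; rw [h] at this; simp at this
      rw [e, Complex.ofReal_add, mul_add, Complex.exp_add, h1, hk1 j hj' t]
      field_simp
  · intro j hj
    have e : (∑ i ∈ Finset.range (j + 1), K i) - ∑ i ∈ Finset.range j, K i = k j hj := by
      rw [Finset.sum_range_succ, add_sub_cancel_left]
      simp only [K, hj, dif_pos]
    show ‖(∑ i ∈ Finset.range (j + 1), K i) - ∑ i ∈ Finset.range j, K i‖ ≤ 2 * δ
    rw [e]
    exact hk2 j hj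

theorem const_log (h : C(Circle, ℝ)) (hh : ∀ t, Complex.exp (Complex.I * (h t : ℂ)) = 1) :
    ∃ m : ℤ, ∀ t, h t = 2 * Real.pi * m := by
  have h1 : ∀ t, ∃ n : ℤ, h t = 2 * Real.pi * n := by
    intro t
    obtain ⟨n, hn⟩ := Complex.exp_eq_one_iff.1 (hh t)
    refine ⟨n, ?_⟩
    have h2 : ((h t : ℝ) : ℂ) = ((2 * Real.pi * n : ℝ) : ℂ) := by
      have h3 : Complex.I * ((h t : ℝ) : ℂ) = Complex.I * ((2 * Real.pi * n : ℝ) : ℂ) := by
        rw [hn]
        push_cast
        ring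
      exact mul_left_cancel₀ Complex.I_ne_zero h3
    exact_mod_cast h2
  have hp := Real.pi_pos
  let φ : ℝ → ℝ := fun x => h (Circle.exp x) / (2 * Real.pi)
  have hφ : Continuous φ := (h.continuous.comp Circle.exp.continuous).div_const _
  have hφ2 : ∀ x, ∃ n : ℤ, φ x = n := by
    intro x
    obtain ⟨n, hn⟩ := h1 (Circle.exp x)
    refine ⟨n, ?_⟩
    show h (Circle.exp x) / (2 * Real.pi) = n
    rw [hn]
    field_simp
  choose n hn using hφ2
  have hnc : Continuous n := by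
    have : Continuous (fun x => ((n x : ℤ) : ℝ)) := by
      have e : (fun x => ((n x : ℤ) : ℝ)) = φ := by funext x; exact (hn x).symm
      rw [e]; exact hφ
    exact (Int.isClosedEmbedding_coe_real.isEmbedding.continuous_iff).2 this
  obtain ⟨m, hm⟩ : ∃ m : ℤ, ∀ x, n x = m := ⟨n 0, fun x => PreconnectedSpace.constant inferInstance hnc⟩
  refine ⟨m, fun t => ?_⟩
  obtain ⟨x, rfl⟩ : ∃ x : ℝ, Circle.exp x = t := ⟨Complex.arg t, Circle.exp_arg t⟩
  have h3 := hn x
  rw [hm x] at h3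
  have h4 : h (Circle.exp x) / (2 * Real.pi) = m := h3
  field_simp at h4
  linarith

end Pool.Agent.RIG
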