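import Pool.Agent.RIG.PwB

/-!
# CyX: infinite paths with the tail of the only return path

`cyc l` is the periodic sequence `l l l …`. `PX` are the infinite paths which end with `cyc l`.
For `x : PX`: `x.hd = x 0`, `x.tl` = the shifted path. `x0 = cyc l`.

PROOFS. `cyc_lpow`: the list `(List.range (k * l.length)).map (cyc l)` is `lpow l k` (induction on `k`,
`cyc (i + l.length) = cyc i`), so `(lpow l k)[i] = cyc i`.
`cyc_path`: `r (cyc i) = s (cyc (i + 1))`: consecutive edges in `lpow l 2` (which is a path, `ip_lpow`), by
periodicity it suffices to consider `i < l.length`.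
`IsPath` of a finite part: for `x : PX`, the list `(List.range k).map x` is a path from `s (x 0)` to `s (x k)`
(induction on `k`, `ip_append`) (for `k = 0` the empty path from `s (x 0)` to itself).
`px_eq`: let `x : PX`, `s (x 0) = v`, `x (k + i) = cyc i` for all `i`. `μ = (List.range k).map x` is a path from `v`
to `s (x k) = s (cyc 0) = v` (`l` starts at `v`), so `μ = lpow l j` (`only_closed`): `k = j * l.length`,
`x i = cyc i` for `i < k` and `x i = cyc (i - k) = cyc i` for `i ≥ k`.
`px_hd`: let `e ∈ l`, `s (x 0) = s e`; there is `k ≥ 1` with `x (k + i) = cyc i` (replace `k` by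
`k + l.length`). `(List.range k).map x` is a nonempty path from `s e` to `v`, by `only_out` it starts with `e`.
`px_tl_ne`: `cyc` shifted by `i`, `0 < i < l.length`, is not `cyc`: otherwise `cyc i = cyc 0`, but
`s (cyc i)` are pairwise different for `i < l.length` (`only_nodup`).
-/

namespace Pool.Agent.RIG

open Pool.Agent.AUE Pool.Agent.GHT

variable {G : DGraph}

/-- The periodic sequence. -/
def cyc {α : Type} (l : List α) (hl : l ≠ []) : ℕ → α :=
  fun i => l.get ⟨i % l.length, Nat.mod_lt _ (List.length_pos_iff.2 hl)⟩

/-- Infinite paths ending with `cyc l`. -/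
def PX (G : DGraph) (l : List G.E) (hl : l ≠ []) : Type :=
  {x : ℕ → G.E // (∀ i, G.r (x i) = G.s (x (i + 1))) ∧ ∃ k, ∀ i, x (k + i) = cyc l hl i}

theorem CyX_eq {α : Type} (l : List α) (hl : l ≠ []) {i j : ℕ} (h : i % l.length = j)
    (hj : j < l.length) : cyc l hl i = l[j] := by
  subst h
  rfl

theorem CyX_A {u w : G.V} {l : List G.E} (h : IsPath G u l w) {i : ℕ} (hi : i + 1 < l.length) :
    G.r l[i] = G.s l[i + 1] := by
  induction l generalizing u i with
  | nil => simp at hi
  | cons e l ih =>
    cases i with
    | zero =>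
      cases l with
      | nil => simp at hi
      | cons f l' => exact (h.2.1).symm
    | succ i =>
      have hi' : i + 1 < l.length := by simpa using hi
      exact ih h.2 hi'

theorem CyX_B {u w : G.V} {l : List G.E} (h : IsPath G u l w) (h0 : 0 < l.length) :
    G.s l[0] = u := by
  cases l with
  | nil => simp at h0
  | cons e l => exact h.1

theorem CyX_C {u w : G.V} {l : List G.E} (h : IsPath G u l w) {i : ℕ} (hi : i + 1 = l.length) :
    G.r (l[i]'(by omega)) = w := by
  induction l generalizing u i with
  | nil => simp at hi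
  | cons e l ih =>
    cases i with
    | zero =>
      cases l with
      | nil => exact h.2
      | cons f l' => simp at hi
    | succ i =>
      have hi' : i + 1 = l.length := by simpa using hi
      exact ih h.2 hi'

theorem cyc_path {v : G.V} {l : List G.E} (hl : l ≠ []) (h : IsPath G v l v) (i : ℕ) :
    G.r (cyc l hl i) = G.s (cyc l hl (i + 1)) := by
  have hn : 0 < l.length := List.length_pos_iff.2 hl
  have h1 : i % l.length < l.length := Nat.mod_lt _ hn
  rw [CyX_eq l hl rfl h1]
  by_cases h2 : i % l.length + 1 < l.length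
  · have h3 : (i + 1) % l.length = i % l.length + 1 := by
      rw [Nat.add_mod, Nat.mod_eq_of_lt (show 1 < l.length by omega), Nat.mod_eq_of_lt h2]
    rw [CyX_eq l hl h3 h2]
    exact CyX_A h h2
  · have h2' : i % l.length + 1 = l.length := by omega
    have h3 : (i + 1) % l.length = 0 := by
      have h4 : i + 1 = l.length * (i / l.length) + (i % l.length + 1) := by
        have := Nat.div_add_mod i l.length
        omega
      rw [h4, h2', Nat.mul_add_mod, Nat.mod_self]
    rw [CyX_eq l hl h3 hn, CyX_C h h2', CyX_B h hn]

theorem cyc_zero {v : G.V} {l : List G.E} (hl : l ≠ []) (h : IsPath G v l v) :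
    G.s (cyc l hl 0) = v := by
  have hn : 0 < l.length := List.length_pos_iff.2 hl
  rw [CyX_eq l hl (Nat.zero_mod _) hn]
  exact CyX_B h hn

theorem cyc_add_length {α : Type} (l : List α) (hl : l ≠ []) (j : ℕ) :
    cyc l hl (l.length + j) = cyc l hl j := by
  have hn : 0 < l.length := List.length_pos_iff.2 hl
  have h1 : j % l.length < l.length := Nat.mod_lt _ hn
  rw [CyX_eq l hl (Nat.add_mod_left _ _) h1, CyX_eq l hl rfl h1]

theorem CyX_mul {α : Type} (l : List α) (hl : l ≠ []) (k j : ℕ) :
    cyc l hl (k * l.length + j) = cyc l hl j := by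
  induction k with
  | zero => rw [Nat.zero_mul, Nat.zero_add]
  | succ k ih =>
    have h1 : (k + 1) * l.length + j = l.length + (k * l.length + j) := by ring
    rw [h1, cyc_add_length, ih]

theorem CyX_lpow {α : Type} (l : List α) (hl : l ≠ []) (k : ℕ) :
    ∀ i, i < k * l.length → (lpow l k)[i]? = some (cyc l hl i) := by
  induction k with
  | zero => intro i hi; simp at hi
  | succ k ih =>
    intro i hi
    rw [lpow]
    by_cases h : i < l.length
    · rw [List.getElem?_append_left h, CyX_eq l hl (Nat.mod_eq_of_lt h) h,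
        List.getElem?_eq_getElem h]
    · have h' : l.length ≤ i := by omega
      rw [List.getElem?_append_right h', ih (i - l.length) (by
        have : (k + 1) * l.length = k * l.length + l.length := by ring
        omega)]
      have h2 : i = l.length + (i - l.length) := by omega
      rw [h2, cyc_add_length]
      congr 2
      omega

theorem CyX_fin {l : List G.E} {hl : l ≠ []} (x : PX G l hl) (k : ℕ) :
    IsPath G (G.s (x.1 0)) ((List.range k).map x.1) (G.s (x.1 k)) := by
  induction k with
  | zero => exact rfl
  | succ k ih =>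
    rw [List.range_succ, List.map_append, ip_append]
    refine ⟨_, ih, ?_⟩
    exact ⟨rfl, x.2.1 k⟩

theorem px_eq {v : G.V} {l : List G.E} (hl : l ≠ []) (h : OnlyReturn G v l) (x : PX G l hl)
    (hx : G.s (x.1 0) = v) : x.1 = cyc l hl := by
  obtain ⟨k, hk⟩ := x.2.2
  have h1 := CyX_fin x k
  have h2 : x.1 k = cyc l hl 0 := hk 0
  rw [hx, h2, cyc_zero hl h.1.2.1] at h1
  obtain ⟨j, hj⟩ := only_closed h h1
  have h3 : k = j * l.length := by
    have := congrArg List.length hj
    rw [lpow_length] at this
    simpa using this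
  funext i
  by_cases hi : i < k
  · have h4 : ((List.range k).map x.1)[i]? = some (x.1 i) := by
      simp [hi]
    rw [hj, CyX_lpow l hl j i (by omega)] at h4
    exact (Option.some.inj h4).symm
  · obtain ⟨m, rfl⟩ : ∃ m, i = k + m := ⟨i - k, by omega⟩
    rw [hk, show k + m = j * l.length + m by omega, CyX_mul]

theorem px_hd {v : G.V} {l : List G.E} (hl : l ≠ []) (h : OnlyReturn G v l) (x : PX G l hl)
    {e : G.E} (he : e ∈ l) (hx : G.s (x.1 0) = G.s e) : x.1 0 = e := by
  obtain ⟨k, hk⟩ := x.2.2
  have hn : 0 < l.length := List.length_pos_iff.2 hl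
  have h1 := CyX_fin x (k + l.length)
  have h2 : x.1 (k + l.length) = cyc l hl 0 := by
    rw [hk, ← cyc_add_length l hl 0, Nat.add_zero]
  rw [hx, h2, cyc_zero hl h.1.2.1] at h1
  obtain ⟨μ, hμ⟩ := only_out h he h1 (by
    intro h0
    have h6 := congrArg List.length h0
    rw [List.length_map, List.length_range, List.length_nil] at h6
    omega)
  have h4 : ((List.range (k + l.length)).map x.1)[0]? = some (x.1 0) := by
    have h5 : 0 < k + l.length := by omega
    simp [h5]
  rw [hμ] at h4
  simpa using h4.symm

theorem px_tl_ne {v : G.V} {l : List G.E} (hl : l ≠ []) (h : OnlyReturn G v l) {i : ℕ}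
    (h0 : 0 < i) (h1 : i < l.length) : (fun j => cyc l hl (i + j)) ≠ cyc l hl := by
  intro he
  have h2 : cyc l hl (i + 0) = cyc l hl 0 := congrFun he 0
  have hn : 0 < l.length := List.length_pos_iff.2 hl
  rw [Nat.add_zero, CyX_eq l hl (Nat.mod_eq_of_lt h1) h1, CyX_eq l hl (Nat.zero_mod _) hn] at h2
  have h3 := only_nodup h
  have h4 : (l.map G.s)[i]'(by simpa using h1) = (l.map G.s)[0]'(by simpa using hn) := by
    simp [h2]
  have h5 := (h3.getElem_inj_iff).1 h4
  omega

end Pool.Agent.RIG
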