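import Pool.Agent.RIG.Defs

/-!
# DefL: definitions for the assembly

`SolY F c Y`: the cocycle `c` is approximately a coboundary on the vertices of `Y`. `LocSol F c C`: the same on
`C` with unitaries which are `1` outside `C`. `thE F e x = S_e x S_e* + (1 - S_e S_e* )`, `KK F c l x`:
`c thE e_0 (c thE e_1 (… x))`. `Rgd Φ ψ`: the rigidity property of `ψ`.
-/

namespace Pool.Agent.RIG

open Pool.Agent.AUE Pool.Agent.GHT

section

variable {V : Type} {G : Gr V} {B : Type} [CStarAlgebra B] {P : V → B}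

/-- `c` is approximately a coboundary on the vertices of `Y`. -/
def SolY (F : Fam G P) (c : B) (Y : Set V) : Prop :=
  ∀ ε : ℝ, 0 < ε → ∃ W, Ch P W ∧ ∀ v ∈ Y, ‖(star W * c * F.th W - 1) * P v‖ ≤ ε

/-- The same with unitaries which are `1` outside `C`. -/
def LocSol (F : Fam G P) (c : B) (C : Set V) : Prop :=
  ∀ ε : ℝ, 0 < ε → ∃ W, Ch P W ∧ (∀ v, v ∉ C → W * P v = P v) ∧
    ∀ v ∈ C, ‖(star W * c * F.th W - 1) * P v‖ ≤ ε

/-- The map `x ↦ S_e x S_e* + (1 - S_e S_e*)`. -/
noncomputable def thE (F : Fam G P) (e : G.Ed) (x : B) : B :=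
  F.S e * x * star (F.S e) + (1 - F.S e * star (F.S e))

/-- The recursion along a list of edges. -/
noncomputable def KK (F : Fam G P) (c : B) : List G.Ed → B → B
  | [], x => x
  | e :: l, x => c * thE F e (KK F c l x)

end

/-- The rigidity property: in every representation `π` which kills `p v - s e s e*` along the only
return path `l` and whose corner at `v` is commutative, every unitary conjugate of `ψ` which fixes `p v`
fixes the loop. -/
def Rgd {G : DGraph} {A : Type} [NonUnitalCStarAlgebra A] (Φ : CKFam G A) (ψ : A →⋆ₙₐ[ℂ] A) :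
    Prop :=
  ∀ (v : G.V) (l : List G.E), OnlyReturn G v l → ∀ (D : Type) [CStarAlgebra D] (π : A →⋆ₙₐ[ℂ] D),
    (∀ y y' : A, π (Φ.p v * y * Φ.p v) * π (Φ.p v * y' * Φ.p v) =
      π (Φ.p v * y' * Φ.p v) * π (Φ.p v * y * Φ.p v)) →
    (∀ e ∈ l, π (Φ.p (G.s e)) = π (Φ.s e * star (Φ.s e))) →
    ∀ u : unitary (Unitization ℂ A), adU u (ψ (Φ.p v)) = Φ.p v →
      π (adU u (ψ (lprod (l.map Φ.s)))) = π (lprod (l.map Φ.s))

end Pool.Agent.RIG
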