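import Pool.Agent.AUE.Aue
import Pool.Agent.AUE.CondK
import Pool.Agent.LPS.Defs

/-!
# Definitions for the project RIG (MP_b75a39_al, graphs with rigid cycles)

A return path `l` at `v` is rigid if it is the only return path at `v` (`OnlyReturn G v l`).
`Ev p T`: `T` is an isometry of the corner of the projection `p` (`star T * T = p`, `p * T = T`) with an
evaluation `χ : B → C(Circle, ℂ)` (linear, contractive, `χ (star y) = star (χ y)`,
`χ (y p y') = χ y χ y'`, `χ p = 1`, `χ T = z`).
`Em p T k = T^k p T^k*` (decreasing projections). `E.Good`: elements `y` with `χ y = 0` satisfy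
`p y E_k → 0` and `E_k y p → 0`.
-/

namespace Pool.Agent.RIG

open Pool.Agent.AUE Pool.Agent.GHT

/-- `l` is the only return path at `v`. -/
def OnlyReturn (G : DGraph) (v : G.V) (l : List G.E) : Prop :=
  IsReturn G v l ∧ ∀ l', IsReturn G v l' → l' = l

/-- The `k`-fold repetition of `l`. -/
def lpow {α : Type} (l : List α) : ℕ → List α
  | 0 => []
  | k + 1 => l ++ lpow l k

/-- The product of a nonempty list in a non-unital ring (`0` for the empty list). -/
def lprod {R : Type} [Mul R] [Zero R] : List R → R
  | [] => 0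
  | [a] => a
  | a :: b :: l => a * lprod (b :: l)

/-- The coordinate function on the circle. -/
noncomputable def zC : C(Circle, ℂ) := ⟨fun t => (t : ℂ), by fun_prop⟩

/-- `T` is an isometry in the corner of the projection `p`. -/
structure IsLoop {B : Type} [CStarAlgebra B] (p T : B) : Prop where
  star_p : star p = p
  p_mul : p * p = p
  star_T : star T * T = p
  p_T : p * T = T

/-- A loop `T` at `p` with an evaluation. -/
structure Ev {B : Type} [CStarAlgebra B] (p T : B) extends IsLoop p T where
  χ : B →ₗ[ℂ] C(Circle, ℂ)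
  norm_le : ∀ y, ‖χ y‖ ≤ ‖y‖
  map_star : ∀ y, χ (star y) = star (χ y)
  map_mul : ∀ y y', χ (y * p * y') = χ y * χ y'
  map_p : χ p = 1
  map_T : χ T = zC

/-- The projection `T^k p T^k*`. -/
def Em {B : Type} [CStarAlgebra B] (p T : B) (k : ℕ) : B := T ^ k * p * star (T ^ k)

/-- Elements with vanishing evaluation are small far out on the loop. -/
def Ev.Good {B : Type} [CStarAlgebra B] {p T : B} (E : Ev p T) : Prop :=
  ∀ y, E.χ y = 0 → ∀ ε > 0, ∃ m, ∀ k, m ≤ k →
    ‖p * y * Em p T k‖ ≤ ε ∧ ‖Em p T k * y * p‖ ≤ ε

/-- The product of the `s e` along `l` in the unitization. -/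
noncomputable def sp {G : DGraph} {A : Type} [NonUnitalCStarAlgebra A] (Φ : CKFam G A)
    (l : List G.E) : Unitization ℂ A :=
  (l.map (fun e => ((Φ.s e : A) : Unitization ℂ A))).prod

end Pool.Agent.RIG
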