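import Mathlib

/-!
# Dil: the functional calculus of an isometry

`T` an isometry in `B`. `U = [[T, 1 - T T*],[0, T*]]` is a unitary of `CStarMatrix (Fin 2) (Fin 2) B`.
`τ h = (cfcHom U (h ∘ i)) 0 0`.
-/

namespace Pool.Agent.RIG

section mat

variable {B : Type} [CStarAlgebra B]

/-- the unitary dilation -/
def Dil_U (T : B) : CStarMatrix (Fin 2) (Fin 2) B :=
  CStarMatrix.ofMatrix !![T, 1 - T * star T; 0, star T]

theorem Dil_star (T : B) : star (Dil_U T) =
    CStarMatrix.ofMatrix !![star T, 0; 1 - T * star T, T] := by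
  ext i j
  rw [CStarMatrix.star_apply]
  fin_cases i <;> fin_cases j <;> simp [Dil_U, CStarMatrix.ofMatrix_apply]

theorem Dil_mul_star {T : B} (hT : star T * T = 1) : Dil_U T * star (Dil_U T) = 1 := by
  rw [Dil_star]
  ext i j
  have h1 : star T * (T * star T) = star T := by rw [← mul_assoc, hT, one_mul]
  have h2 : T * star T * T = T := by rw [mul_assoc, hT, mul_one]
  have h3 : T * star T * (T * star T) = T * star T := by rw [mul_assoc, h1]
  fin_cases i <;> fin_cases j <;>
    simp [Dil_U, CStarMatrix.mul_apply, CStarMatrix.ofMatrix_apply, Fin.sum_univ_two,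
      mul_sub, sub_mul, h1, h2, h3, hT]

theorem Dil_star_mul {T : B} (hT : star T * T = 1) : star (Dil_U T) * Dil_U T = 1 := by
  rw [Dil_star]
  ext i j
  have h1 : star T * (T * star T) = star T := by rw [← mul_assoc, hT, one_mul]
  have h2 : T * star T * T = T := by rw [mul_assoc, hT, mul_one]
  have h3 : T * star T * (T * star T) = T * star T := by rw [mul_assoc, h1]
  fin_cases i <;> fin_cases j <;>
    simp [Dil_U, CStarMatrix.mul_apply, CStarMatrix.ofMatrix_apply, Fin.sum_univ_two,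
      mul_sub, sub_mul, h1, h2, h3, hT]

theorem Dil_pow (T : B) (k : ℕ) : (Dil_U T ^ k) 0 0 = T ^ k ∧ (Dil_U T ^ k) 1 0 = 0 := by
  induction k with
  | zero => simp
  | succ k ih =>
    obtain ⟨h1, h2⟩ := ih
    rw [pow_succ]
    constructor
    · rw [CStarMatrix.mul_apply, Fin.sum_univ_two, h1]
      simp [Dil_U, CStarMatrix.ofMatrix_apply, pow_succ]
    · rw [CStarMatrix.mul_apply, Fin.sum_univ_two, h2]
      simp [Dil_U, CStarMatrix.ofMatrix_apply]

end mat

theorem exists_dil {B : Type} [CStarAlgebra B] {T : B} (hT : star T * T = 1) (z : C(Circle, ℂ))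
    (hz : ∀ t, z t = (t : ℂ)) :
    ∃ τ : C(Circle, ℂ) →ₗ[ℂ] B, (∀ h, ‖τ h‖ ≤ ‖h‖) ∧ (∀ h, τ (star h) = star (τ h)) ∧
      ∀ k : ℕ, τ (z ^ k) = T ^ k := by
  let _ : PartialOrder B := CStarAlgebra.spectralOrder B
  have _ : StarOrderedRing B := CStarAlgebra.spectralOrderedRing B
  have hU : Dil_U T ∈ unitary (CStarMatrix (Fin 2) (Fin 2) B) := by
    rw [Unitary.mem_iff]
    exact ⟨Dil_star_mul hT, Dil_mul_star hT⟩
  have hn : IsStarNormal (Dil_U T) := by
    constructor
    rw [commute_iff_eq, Dil_star_mul hT, Dil_mul_star hT]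
  have hsp : ∀ x ∈ spectrum ℂ (Dil_U T), ‖x‖ = 1 := by
    intro x hx
    have := Unitary.spectrum_subset_circle (⟨Dil_U T, hU⟩ : unitary (CStarMatrix (Fin 2) (Fin 2) B)) hx
    simpa using this
  let i : C(spectrum ℂ (Dil_U T), Circle) :=
    ⟨fun x => ⟨x.1, mem_sphere_zero_iff_norm.2 (hsp x.1 x.2)⟩, by
      apply Continuous.subtype_mk
      exact continuous_subtype_val⟩
  let Φ := cfcHom (R := ℂ) hn
  refine ⟨{ toFun := fun h => Φ (h.comp i) 0 0
            map_add' := ?_
            map_smul' := ?_ }, ?_, ?_, ?_⟩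
  · intro f g
    have : (f + g).comp i = f.comp i + g.comp i := rfl
    rw [this, map_add]
    rfl
  · intro c f
    have : (c • f).comp i = c • f.comp i := rfl
    rw [this, map_smul]
    rfl
  · intro h
    change ‖Φ (h.comp i) 0 0‖ ≤ ‖h‖
    refine CStarMatrix.norm_entry_le_norm.trans ?_
    refine (NonUnitalStarAlgHom.norm_apply_le _ _).trans ?_
    rw [ContinuousMap.norm_le _ (norm_nonneg _)]
    intro x
    exact h.norm_coe_le_norm (i x)
  · intro h
    change Φ ((star h).comp i) 0 0 = star (Φ (h.comp i) 0 0)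
    have : (star h).comp i = star (h.comp i) := rfl
    rw [this, map_star, CStarMatrix.star_apply]
  · intro k
    change Φ ((z ^ k).comp i) 0 0 = T ^ k
    have h1 : (z ^ k).comp i = ((ContinuousMap.id ℂ).restrict (spectrum ℂ (Dil_U T))) ^ k := by
      ext x
      simp [hz]
      rfl
    rw [h1, map_pow]
    have h2 : Φ ((ContinuousMap.id ℂ).restrict (spectrum ℂ (Dil_U T))) = Dil_U T := cfcHom_id hn
    rw [h2]
    exact (Dil_pow T k).1

end Pool.Agent.RIG
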