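import Pool.Agent.RIG.Defs

/-!
# EvB: basic facts on loops and evaluations

PROOFS. `T_p`: `star (T - T p) (T - T p) = p - p p - p p + p p p = 0`, `CStarRing.star_mul_self_eq_zero_iff`.
`q_T`: `(1 - p) * T = 0`, from `p_T`. `T_q`: `T * (1 - p) = 0`. `pow_p`: `p * (T ^ k * p) = T ^ k * p`
(`k = 0`: `p p = p`, `k + 1`: `p T = T`). `star_pow_pow`: `star (T ^ k) * (T ^ k * p) = p` by induction:
`star (T^(k+1)) T^(k+1) p = star (T^k) (star T T) T^k p = star (T^k) p T^k p = star (T^k) T^k p`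
(write `T^(k+1) = T * T^k`, `star (T * T^k) = star (T^k) * star T`), `star_pow_add`: the same with `T^(k+j)`.
`Em` facts from these. `Em_le`: `Em m * Em k = T^m p star(T^m) T^(m+j) p star (T^k) = T^m p T^j p star (T^k) =
T^(m+j) p star (T^k)`.
`χ_one`: `χ 1 = χ p * χ 1 = χ (p * p * 1) = χ p = 1`. `χ_p_mul`: `χ (p * y) = χ (1 * p * y) = χ 1 χ y`.
`χ_pow`: `χ (T^k * p) = z^k`: `χ (T * (T^k * p)) = χ (T * p * (T^k * p)) = χ T * χ (T^k p)`.
`one`: `T~ = T + (1 - p)` satisfies `star T~ * T~ = 1`, `T~ ^ k = T ^ k * p + (1 - p)`,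
`T~ ^ k * star (T~ ^ k) = Em p T k + (1 - p)`.
-/

namespace Pool.Agent.RIG

open Pool.Agent.AUE Pool.Agent.GHT

variable {B : Type} [CStarAlgebra B] {p T : B}

theorem IsLoop.T_p (h : IsLoop p T) : T * p = T := by
  have h1 : star (T - T * p) * (T - T * p) = 0 := by
    rw [star_sub, star_mul, h.star_p, sub_mul, mul_sub, mul_sub, h.star_T]
    have e1 : star T * (T * p) = p := by rw [← mul_assoc, h.star_T, h.p_mul]
    have e2 : p * star T * T = p := by rw [mul_assoc, h.star_T, h.p_mul]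
    have e3 : p * star T * (T * p) = p := by rw [mul_assoc, e1, h.p_mul]
    rw [e1, e2, e3, sub_self]
  have h2 := CStarRing.star_mul_self_eq_zero_iff _ |>.1 h1
  exact (sub_eq_zero.1 h2).symm

theorem IsLoop.q_T (h : IsLoop p T) : (1 - p) * T = 0 := by
  rw [sub_mul, one_mul, h.p_T, sub_self]

theorem IsLoop.T_q (h : IsLoop p T) : T * (1 - p) = 0 := by
  rw [mul_sub, mul_one, h.T_p, sub_self]

theorem IsLoop.pow_p (h : IsLoop p T) (k : ℕ) : p * (T ^ k * p) = T ^ k * p := by
  cases k with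
  | zero => rw [pow_zero, one_mul, h.p_mul]
  | succ k => rw [pow_succ', ← mul_assoc, ← mul_assoc, h.p_T]

theorem IsLoop.star_pow_add (h : IsLoop p T) (k j : ℕ) :
    star (T ^ k) * (T ^ (k + j) * p) = T ^ j * p := by
  induction k with
  | zero => rw [pow_zero, star_one, one_mul, zero_add]
  | succ k ih =>
    have e : k + 1 + j = (k + j) + 1 := by omega
    rw [e, pow_succ' T (k + j), pow_succ' T k, star_mul]
    calc star (T ^ k) * star T * (T * T ^ (k + j) * p)
        = star (T ^ k) * ((star T * T) * (T ^ (k + j) * p)) := by simp only [mul_assoc]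
      _ = T ^ j * p := by rw [h.star_T, h.pow_p, ih]

theorem IsLoop.star_Em (h : IsLoop p T) (k : ℕ) : star (Em p T k) = Em p T k := by
  unfold Em
  rw [star_mul, star_mul, star_star, h.star_p, mul_assoc]

theorem IsLoop.Em_mul_Em (h : IsLoop p T) {m k : ℕ} (hk : m ≤ k) :
    Em p T m * Em p T k = Em p T k ∧ Em p T k * Em p T m = Em p T k := by
  have h1 : Em p T m * Em p T k = Em p T k := by
    obtain ⟨j, rfl⟩ := Nat.exists_eq_add_of_le hk
    unfold Em
    calc T ^ m * p * star (T ^ m) * (T ^ (m + j) * p * star (T ^ (m + j)))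
        = T ^ m * (p * (star (T ^ m) * (T ^ (m + j) * p))) * star (T ^ (m + j)) := by
          simp only [mul_assoc]
      _ = T ^ (m + j) * p * star (T ^ (m + j)) := by
          rw [h.star_pow_add, h.pow_p, ← mul_assoc, ← pow_add]
  refine ⟨h1, ?_⟩
  have h2 := congrArg star h1
  rwa [star_mul, h.star_Em, h.star_Em] at h2

theorem IsLoop.p_Em (h : IsLoop p T) (k : ℕ) : p * Em p T k = Em p T k ∧
    Em p T k * p = Em p T k := by
  have h1 : p * Em p T k = Em p T k := by
    unfold Em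
    rw [← mul_assoc, h.pow_p]
  refine ⟨h1, ?_⟩
  have h2 := congrArg star h1
  rwa [star_mul, h.star_Em, h.star_p] at h2

theorem EvB_prj {q : B} (h1 : star q = q) (h2 : q * q = q) : ‖q‖ ≤ 1 := by
  have h3 := CStarRing.norm_star_mul_self (x := q)
  rw [h1, h2] at h3
  nlinarith [norm_nonneg q]

theorem IsLoop.norm_p_le (h : IsLoop p T) : ‖p‖ ≤ 1 := EvB_prj h.star_p h.p_mul

theorem IsLoop.norm_T_le (h : IsLoop p T) : ‖T‖ ≤ 1 := by
  have h3 := CStarRing.norm_star_mul_self (x := T)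
  rw [h.star_T] at h3
  have h4 := h.norm_p_le
  nlinarith [norm_nonneg T]

theorem IsLoop.norm_Em_le (h : IsLoop p T) (k : ℕ) : ‖Em p T k‖ ≤ 1 :=
  EvB_prj (h.star_Em k) (h.Em_mul_Em le_rfl).1

theorem EvB_qq (h : IsLoop p T) : (1 - p) * (1 - p) = 1 - p := by
  rw [sub_mul, one_mul, mul_sub, mul_one, h.p_mul, sub_self, sub_zero]

theorem IsLoop.star_one (h : IsLoop p T) : star (T + (1 - p)) * (T + (1 - p)) = 1 := by
  have e1 : star (1 - p) = 1 - p := by rw [star_sub, _root_.star_one, h.star_p]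
  have e2 : star T * (1 - p) = 0 := by
    have h1 := congrArg star h.q_T
    rwa [star_mul, e1, star_zero] at h1
  rw [star_add, e1, add_mul, mul_add, mul_add, e2, h.q_T, EvB_qq h, h.star_T]
  abel

theorem IsLoop.pow_one (h : IsLoop p T) (k : ℕ) : (T + (1 - p)) ^ k = T ^ k * p + (1 - p) := by
  induction k with
  | zero =>
    rw [pow_zero, pow_zero, one_mul]
    abel
  | succ k ih =>
    have e1 : (1 - p) * (T ^ k * p) = 0 := by
      rw [sub_mul, one_mul, h.pow_p, sub_self]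
    rw [pow_succ', ih, add_mul, mul_add, mul_add, h.T_q, e1, EvB_qq h, pow_succ', mul_assoc]
    abel

theorem IsLoop.pow_star_one (h : IsLoop p T) (k : ℕ) :
    (T + (1 - p)) ^ k * star ((T + (1 - p)) ^ k) = Em p T k + (1 - p) := by
  have e1 : star (1 - p) = 1 - p := by rw [star_sub, _root_.star_one, h.star_p]
  have e2 : T ^ k * p * (1 - p) = 0 := by
    rw [mul_assoc, mul_sub, mul_one, h.p_mul, sub_self, mul_zero]
  have e3 : (1 - p) * (p * star (T ^ k)) = 0 := by
    rw [← mul_assoc, sub_mul, one_mul, h.p_mul, sub_self, zero_mul]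
  have e4 : T ^ k * p * (p * star (T ^ k)) = T ^ k * p * star (T ^ k) := by
    rw [← mul_assoc, mul_assoc (T ^ k) p p, h.p_mul]
  rw [h.pow_one, star_add, star_mul, e1, h.star_p, add_mul, mul_add, mul_add, e2, e3, e4, EvB_qq h]
  unfold Em
  abel

theorem Ev.χ_one (E : Ev p T) : E.χ 1 = 1 := by
  have h1 := E.map_mul p 1
  rw [mul_one, E.p_mul, E.map_p, one_mul] at h1
  exact h1.symm

theorem Ev.χ_p_mul (E : Ev p T) (y : B) : E.χ (p * y) = E.χ y ∧ E.χ (y * p) = E.χ y := by
  have h1 := E.map_mul 1 y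
  have h2 := E.map_mul y 1
  rw [one_mul, E.χ_one, one_mul] at h1
  rw [mul_one, E.χ_one, mul_one] at h2
  exact ⟨h1, h2⟩

theorem Ev.χ_pow (E : Ev p T) (k : ℕ) : E.χ (T ^ k * p) = zC ^ k := by
  induction k with
  | zero => rw [pow_zero, pow_zero, one_mul, E.map_p]
  | succ k ih =>
    have h1 := E.map_mul T (T ^ k * p)
    rw [E.toIsLoop.T_p, ih, E.map_T, ← mul_assoc, ← pow_succ'] at h1
    rw [h1, pow_succ']

end Pool.Agent.RIG
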