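import Pool.Agent.RIG.EvB

/-!
# ExpL: exponentials

PROOF of `norm_exp_sub_le`. `f t = exp ((t * I) • a) * exp (((1 - t) * I) • b)` for `t ∈ [0, 1]` has derivative
`exp ((t I) • a) * (I • (a - b)) * exp (((1 - t) I) • b)` (`hasDerivAt_exp_smul_const`, and `a` commutes with
`exp (c • a)`), of norm `≤ ‖a - b‖` since the exponentials are unitary. Mean value inequality
(`Convex.norm_image_sub_le_of_norm_hasDerivWithin_le` or `norm_image_sub_le_of_norm_deriv_le_segment_01'`).
`exp_I_unitary`: `star (exp x) = exp (star x)` (`NormedSpace.star_exp`), `star (I • a) = - (I • a)`, `exp_add_of_commute`;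
or `selfAdjoint.expUnitary`.
`exp_q`: `exp (c • a) = ∑ (n!)⁻¹ • (c • a)^n`; `(c • a)^n * (1 - p) = 0` for `n ≥ 1`. Or: `(c • a) * (1 - p) = 0 =
(1 - p) * 0`; `1 - p` commutes with `a` … : `SemiconjBy.exp`? (`(1 - p) (c a) = 0 (1 - p)`.) Simplest: apply the
continuous linear map `y ↦ y * (1 - p)` to the series (`NormedSpace.exp_eq_tsum`, `tsum_eq_single 0`).
`chi_exp`: `χ` at `t` is a continuous linear functional `φ` (norm `≤ 1`), `φ (a^n) = φ(a)^n`: `n = 0`: `χ 1 = 1`;
`χ (a^n * a) = χ (a^n * p * a) = χ (a^n) χ a`. So `φ (exp (c • a)) = ∑ (n!)⁻¹ c^n φ(a)^n = exp (c φ(a))`.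
`exp_two_pi`: `exp (c • p) = 1 + (exp c - 1) • p` (series, `p^n = p` for `n ≥ 1`), `c = 2 π m I`.
-/

namespace Pool.Agent.RIG

open Pool.Agent.AUE Pool.Agent.GHT

theorem exp_I_unitary {B : Type} [CStarAlgebra B] {a : B} (ha : star a = a) :
    star (NormedSpace.exp (Complex.I • a)) * NormedSpace.exp (Complex.I • a) = 1 ∧
      NormedSpace.exp (Complex.I • a) * star (NormedSpace.exp (Complex.I • a)) = 1 := by
  have h := (selfAdjoint.expUnitary (⟨a, ha⟩ : selfAdjoint B)).2
  exact ⟨h.1, h.2⟩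

theorem ExpL_one_le {B : Type} [CStarAlgebra B] : ‖(1 : B)‖ ≤ 1 := by
  cases subsingleton_or_nontrivial B with
  | inl h => rw [Subsingleton.elim (1 : B) 0, norm_zero]; norm_num
  | inr h => rw [CStarRing.norm_one]

theorem ExpL_norm {B : Type} [CStarAlgebra B] {a : B} (ha : star a = a) :
    ‖NormedSpace.exp (Complex.I • a)‖ ≤ 1 := by
  have h := (exp_I_unitary ha).1
  have h1 := CStarRing.norm_star_mul_self (x := NormedSpace.exp (Complex.I • a))
  rw [h] at h1
  have h2 := ExpL_one_le (B := B)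
  have h3 := norm_nonneg (NormedSpace.exp (Complex.I • a))
  nlinarith

theorem ExpL_norm_t {B : Type} [CStarAlgebra B] {a : B} (ha : star a = a) (t : ℝ) :
    ‖NormedSpace.exp (t • (Complex.I • a))‖ ≤ 1 := by
  rw [smul_comm]
  apply ExpL_norm
  rw [star_smul, ha]
  simp

theorem norm_exp_sub_le {B : Type} [CStarAlgebra B] {a b : B} (ha : star a = a)
    (hb : star b = b) :
    ‖NormedSpace.exp (Complex.I • a) - NormedSpace.exp (Complex.I • b)‖ ≤ ‖a - b‖ := by
  set x := Complex.I • a with hx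
  set y := Complex.I • b with hy
  have hxy : ‖x - y‖ = ‖a - b‖ := by
    rw [hx, hy, ← smul_sub, norm_smul, Complex.norm_I, one_mul]
  let f : ℝ → B := fun t => NormedSpace.exp (t • x) * NormedSpace.exp ((1 - t) • y)
  let f' : ℝ → B := fun t => NormedSpace.exp (t • x) * (x - y) * NormedSpace.exp ((1 - t) • y)
  have hd : ∀ t : ℝ, HasDerivAt f (f' t) t := by
    intro t
    have h1 : HasDerivAt (fun u : ℝ => NormedSpace.exp (u • x)) (NormedSpace.exp (t • x) * x) t :=
      hasDerivAt_exp_smul_const x t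
    have h2 : HasDerivAt (fun u : ℝ => NormedSpace.exp (u • y)) (y * NormedSpace.exp ((1 - t) • y)) (1 - t) :=
      hasDerivAt_exp_smul_const' y (1 - t)
    have h3 : HasDerivAt (fun u : ℝ => 1 - u) (-1) t := by
      simpa using (hasDerivAt_id t).const_sub 1
    have h4 := HasDerivAt.scomp t h2 h3
    have h5 := h1.mul h4
    have e : f' t = NormedSpace.exp (t • x) * x * NormedSpace.exp ((1 - t) • y) +
        NormedSpace.exp (t • x) * ((-1 : ℝ) • (y * NormedSpace.exp ((1 - t) • y))) := by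
      show NormedSpace.exp (t • x) * (x - y) * NormedSpace.exp ((1 - t) • y) = _
      rw [neg_one_smul]
      noncomm_ring
    rw [e]
    exact h5
  have hb' : ∀ t : ℝ, ‖f' t‖ ≤ ‖a - b‖ := by
    intro t
    have h1 := ExpL_norm_t ha t
    have h2 := ExpL_norm_t hb (1 - t)
    calc ‖f' t‖ ≤ ‖NormedSpace.exp (t • x) * (x - y)‖ * ‖NormedSpace.exp ((1 - t) • y)‖ := norm_mul_le _ _
      _ ≤ ‖NormedSpace.exp (t • x) * (x - y)‖ * 1 := mul_le_mul_of_nonneg_left h2 (norm_nonneg _)
      _ ≤ ‖NormedSpace.exp (t • x)‖ * ‖x - y‖ * 1 :=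
        mul_le_mul_of_nonneg_right (norm_mul_le _ _) zero_le_one
      _ ≤ 1 * ‖x - y‖ * 1 :=
        mul_le_mul_of_nonneg_right (mul_le_mul_of_nonneg_right h1 (norm_nonneg _)) zero_le_one
      _ = ‖a - b‖ := by rw [one_mul, mul_one, hxy]
  have h := norm_image_sub_le_of_norm_deriv_le_segment_01' (f := f) (f' := f') (C := ‖a - b‖)
    (fun t _ => (hd t).hasDerivWithinAt) (fun t _ => hb' t)
  have e1 : f 1 = NormedSpace.exp x := by
    show NormedSpace.exp ((1 : ℝ) • x) * NormedSpace.exp ((1 - 1 : ℝ) • y) = _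
    rw [one_smul, sub_self, zero_smul, NormedSpace.exp_zero, mul_one]
  have e0 : f 0 = NormedSpace.exp y := by
    show NormedSpace.exp ((0 : ℝ) • x) * NormedSpace.exp ((1 - 0 : ℝ) • y) = _
    rw [zero_smul, sub_zero, one_smul, NormedSpace.exp_zero, one_mul]
  rw [e1, e0] at h
  exact h

theorem exp_q {B : Type} [CStarAlgebra B] {p a : B} (h1 : p * a = a) (h2 : a * p = a) (c : ℂ) :
    NormedSpace.exp (c • a) * (1 - p) = 1 - p ∧ (1 - p) * NormedSpace.exp (c • a) = 1 - p := by
  let _ : NormedAlgebra ℚ B := NormedAlgebra.restrictScalars ℚ ℂ B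
  have e1 : (1 - p) * (c • a) = 0 := by
    rw [mul_smul_comm, sub_mul, one_mul, h1, sub_self, smul_zero]
  have e2 : (c • a) * (1 - p) = 0 := by
    rw [smul_mul_assoc, mul_sub, mul_one, h2, sub_self, smul_zero]
  constructor
  · have h : SemiconjBy (1 - p) 0 (c • a) := by
      show (1 - p) * 0 = (c • a) * (1 - p)
      rw [e2, mul_zero]
    have h3 := h.exp_right
    rw [NormedSpace.exp_zero] at h3
    have h4 : (1 - p) * 1 = NormedSpace.exp (c • a) * (1 - p) := h3
    rw [← h4, mul_one]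
  · have h : SemiconjBy (1 - p) (c • a) 0 := by
      show (1 - p) * (c • a) = 0 * (1 - p)
      rw [e1, zero_mul]
    have h3 := h.exp_right
    rw [NormedSpace.exp_zero] at h3
    have h4 : (1 - p) * NormedSpace.exp (c • a) = 1 * (1 - p) := h3
    rw [h4, one_mul]

theorem chi_exp {B : Type} [CStarAlgebra B] {p T : B} (E : Ev p T) {a : B} (h1 : p * a = a)
    (h2 : a * p = a) (c : ℂ) (t : Circle) :
    E.χ (NormedSpace.exp (c • a)) t = Complex.exp (c * E.χ a t) := by
  let φ₀ : B →ₗ[ℂ] ℂ :=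
    { toFun := fun y => E.χ y t
      map_add' := fun y y' => by rw [map_add, ContinuousMap.add_apply]
      map_smul' := fun r y => by rw [map_smul, ContinuousMap.smul_apply]; rfl }
  let φ : B →L[ℂ] ℂ := φ₀.mkContinuous 1 (fun y => by
    rw [one_mul]
    exact ((E.χ y).norm_coe_le_norm t).trans (E.norm_le y))
  have hφ : ∀ y, φ y = E.χ y t := fun y => rfl
  have hone : φ 1 = 1 := by
    rw [hφ, E.χ_one]
    rfl
  have hpow : ∀ n : ℕ, φ ((c • a) ^ n) = (c * E.χ a t) ^ n := by
    intro n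
    induction n with
    | zero => rw [pow_zero, pow_zero, hone]
    | succ n ih =>
      have e : (c • a) ^ (n + 1) = (c • a) ^ n * p * (c • a) := by
        have e0 : p * (c • a) = c • a := by rw [mul_smul_comm, h1]
        rw [pow_succ, mul_assoc, e0]
      rw [e, hφ, E.map_mul, ContinuousMap.mul_apply, ← hφ, ih, map_smul, ContinuousMap.smul_apply, pow_succ]
      rfl
  have h3 := NormedSpace.exp_series_hasSum_exp' (𝕂 := ℂ) (c • a)
  have h4 := h3.mapL φ
  have h5 := NormedSpace.exp_series_hasSum_exp' (𝕂 := ℂ) (c * E.χ a t)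
  rw [← Complex.exp_eq_exp_ℂ] at h5
  have e : (fun n : ℕ => φ (((n.factorial : ℂ)⁻¹) • (c • a) ^ n)) =
      fun n : ℕ => ((n.factorial : ℂ)⁻¹) • (c * E.χ a t) ^ n := by
    funext n
    rw [map_smul, hpow]
  rw [e] at h4
  exact h4.unique h5

theorem exp_two_pi {B : Type} [CStarAlgebra B] {p : B} (h : p * p = p) (m : ℤ) :
    NormedSpace.exp (((2 * Real.pi * m : ℝ) * Complex.I) • p) = 1 := by
  set c : ℂ := ((2 * Real.pi * m : ℝ) * Complex.I) with hc
  have hpow : ∀ n : ℕ, p ^ (n + 1) = p := by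
    intro n
    induction n with
    | zero => rw [zero_add, pow_one]
    | succ n ih => rw [pow_succ, ih, h]
  have h1 := NormedSpace.exp_series_hasSum_exp' (𝕂 := ℂ) (c • p)
  have h2 := NormedSpace.exp_series_hasSum_exp' (𝕂 := ℂ) c
  rw [← Complex.exp_eq_exp_ℂ] at h2
  have h3 := h2.smul_const p
  have h4 := hasSum_ite_eq (0 : ℕ) (1 - p)
  have h5 := h3.add h4
  have e : (fun n : ℕ => ((n.factorial : ℂ)⁻¹) • (c • p) ^ n) =
      fun n : ℕ => (((n.factorial : ℂ)⁻¹) • c ^ n) • p + if n = 0 then 1 - p else 0 := by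
    funext n
    cases n with
    | zero => simp
    | succ n =>
      rw [if_neg (Nat.succ_ne_zero n), add_zero, smul_pow, hpow, smul_assoc]
  rw [e] at h1
  have h6 := h1.unique h5
  rw [h6]
  have h7 : Complex.exp c = 1 := by
    rw [Complex.exp_eq_one_iff]
    exact ⟨m, by rw [hc]; push_cast; ring⟩
  rw [h7, one_smul]
  abel

end Pool.Agent.RIG
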