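import Mathlib

/-!
# Wop: weighted partial permutation operators on `ℓ²(X)`

`f : X ≃. X` is a partial bijection (`f x : Option X`, `f.symm`), `a : X → ℂ` with `‖a x‖ ≤ 1`. The operator
`W` on `ℓ²(X) = lp (fun _ : X => ℂ) 2`: `(W ξ) x = a x * ξ y` if `f x = some y` and `0` if `f x = none`.

PROOF of `exists_wop`. For `ξ ∈ ℓ²` the function `x ↦ (f x).elim 0 (fun y => a x * ξ y)` is square summable with
sum `≤ ∑ ‖ξ y‖^2`: on the set `{x | f x ≠ none}` the map `x ↦ y` is injective (`PEquiv.injective_of_…`,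
`PEquiv.inj`), use `Summable.comp_injective` / `tsum_comp_le_tsum_of_inj` on this subtype (or: for every finite
set `s` of `x` the sum over `s` is at most the sum of `‖ξ y‖^2` over the image, which is `≤ ‖ξ‖^2`:
`lp.sum_rpow_le_norm_rpow`, and `lp.norm_le_of_forall_sum_le`, `memℓp_gen'`). So `W` is linear and bounded by
`1` (`LinearMap.mkContinuous`). Let `W'` be the operator of `f.symm` and the weight
`a' y = (f.symm y).elim 0 (fun x => star (a x))`. `star W = W'` by `ContinuousLinearMap.star_eq_adjoint`,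
`ContinuousLinearMap.eq_adjoint_iff`: `⟪W' η, ξ⟫ = ⟪η, W ξ⟫`: both are sums over `X`:
`∑_y conj ((W' η) y) ξ y = ∑_{y, f.symm y = some x} a x conj (η x) ξ y` and
`∑_x conj (η x) (W ξ) x = ∑_{x, f x = some y} conj (η x) a x ξ y`: reindex with the bijection
`{x | f x ≠ none} ≃ {y | f.symm y ≠ none}` (`Function.Injective.tsum_eq` / `tsum_eq_tsum_of_ne_zero_bij`).
(Alternative: check the identity for basis vectors `lp.single` and use density.)
-/

namespace Pool.Agent.RIG

open scoped ComplexConjugate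

/-- The value of the operator on a sequence. -/
noncomputable def Wop_F {X : Type} (f : X ≃. X) (a : X → ℂ) (ξ : X → ℂ) (x : X) : ℂ :=
  (f x).elim 0 (fun y => a x * ξ y)

theorem Wop_sum {X : Type} (f : X ≃. X) (a : X → ℂ) (ha : ∀ x, ‖a x‖ ≤ 1)
    (ξ : lp (fun _ : X => ℂ) 2) (s : Finset X) :
    ∑ x ∈ s, ‖Wop_F f a (ξ : ∀ _ : X, ℂ) x‖ ^ (2 : ENNReal).toReal ≤
      ‖ξ‖ ^ (2 : ENNReal).toReal := by
  classical
  have hp : 0 < (2 : ENNReal).toReal := by norm_num
  set s' := s.filter (fun x => (f x).isSome) with hs'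
  have hinj : ∀ x ∈ s', ∀ x' ∈ s', (f x).getD x = (f x').getD x' → x = x' := by
    intro x hx x' hx' h
    obtain ⟨y, hy⟩ := Option.isSome_iff_exists.1 (Finset.mem_filter.1 hx).2
    obtain ⟨y', hy'⟩ := Option.isSome_iff_exists.1 (Finset.mem_filter.1 hx').2
    rw [hy, hy', Option.getD_some, Option.getD_some] at h
    subst h
    exact f.inj hy hy'
  calc ∑ x ∈ s, ‖Wop_F f a (ξ : ∀ _ : X, ℂ) x‖ ^ (2 : ENNReal).toReal
      = ∑ x ∈ s', ‖Wop_F f a (ξ : ∀ _ : X, ℂ) x‖ ^ (2 : ENNReal).toReal := by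
        refine (Finset.sum_subset (Finset.filter_subset _ _) ?_).symm
        intro x hx hx'
        have h1 : (f x) = none := by
          by_contra h2
          exact hx' (Finset.mem_filter.2 ⟨hx, Option.ne_none_iff_isSome.1 h2⟩)
        rw [Wop_F, h1, Option.elim_none, norm_zero, Real.zero_rpow hp.ne']
    _ ≤ ∑ x ∈ s', ‖(ξ : ∀ _ : X, ℂ) ((f x).getD x)‖ ^ (2 : ENNReal).toReal := by
        refine Finset.sum_le_sum ?_
        intro x hx
        obtain ⟨y, hy⟩ := Option.isSome_iff_exists.1 (Finset.mem_filter.1 hx).2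
        refine Real.rpow_le_rpow (norm_nonneg _) ?_ hp.le
        rw [Wop_F, hy, Option.elim_some, Option.getD_some, norm_mul]
        calc ‖a x‖ * ‖(ξ : ∀ _ : X, ℂ) y‖ ≤ 1 * ‖(ξ : ∀ _ : X, ℂ) y‖ :=
              mul_le_mul_of_nonneg_right (ha x) (norm_nonneg _)
          _ = _ := one_mul _
    _ = ∑ y ∈ s'.image (fun x => (f x).getD x), ‖(ξ : ∀ _ : X, ℂ) y‖ ^ (2 : ENNReal).toReal := by
        rw [Finset.sum_image]
        exact fun x hx x' hx' h => hinj x hx x' hx' h
    _ ≤ _ := lp.sum_rpow_le_norm_rpow hp ξ _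

/-- The operator. -/
noncomputable def Wop_L {X : Type} (f : X ≃. X) (a : X → ℂ) (ha : ∀ x, ‖a x‖ ≤ 1) :
    lp (fun _ : X => ℂ) 2 →ₗ[ℂ] lp (fun _ : X => ℂ) 2 where
  toFun ξ := ⟨Wop_F f a (ξ : ∀ _ : X, ℂ), memℓp_gen' (Wop_sum f a ha ξ)⟩
  map_add' ξ η := by
    apply lp.ext
    funext x
    change Wop_F f a (fun y => (ξ : ∀ _ : X, ℂ) y + (η : ∀ _ : X, ℂ) y) x =
      Wop_F f a (ξ : ∀ _ : X, ℂ) x + Wop_F f a (η : ∀ _ : X, ℂ) x
    unfold Wop_F
    cases f x with
    | none => simp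
    | some y => simp only [Option.elim_some]; ring
  map_smul' c ξ := by
    apply lp.ext
    funext x
    change Wop_F f a (fun y => c * (ξ : ∀ _ : X, ℂ) y) x = c * Wop_F f a (ξ : ∀ _ : X, ℂ) x
    unfold Wop_F
    cases f x with
    | none => simp
    | some y => simp only [Option.elim_some]; ring

theorem Wop_L_apply {X : Type} (f : X ≃. X) (a : X → ℂ) (ha : ∀ x, ‖a x‖ ≤ 1)
    (ξ : lp (fun _ : X => ℂ) 2) (x : X) :
    (Wop_L f a ha ξ : ∀ _ : X, ℂ) x = Wop_F f a (ξ : ∀ _ : X, ℂ) x := rfl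

theorem Wop_norm {X : Type} (f : X ≃. X) (a : X → ℂ) (ha : ∀ x, ‖a x‖ ≤ 1)
    (ξ : lp (fun _ : X => ℂ) 2) : ‖Wop_L f a ha ξ‖ ≤ 1 * ‖ξ‖ := by
  rw [one_mul]
  refine lp.norm_le_of_forall_sum_le (by norm_num) (norm_nonneg _) ?_
  intro s
  exact Wop_sum f a ha ξ s

theorem exists_wop {X : Type} (f : X ≃. X) (a : X → ℂ) (ha : ∀ x, ‖a x‖ ≤ 1) :
    ∃ W : lp (fun _ : X => ℂ) 2 →L[ℂ] lp (fun _ : X => ℂ) 2,
      (∀ ξ x, (W ξ : ∀ _ : X, ℂ) x = (f x).elim 0 (fun y => a x * (ξ : ∀ _ : X, ℂ) y)) ∧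
      ∀ η y, ((star W) η : ∀ _ : X, ℂ) y =
        (f.symm y).elim 0 (fun x => conj (a x) * (η : ∀ _ : X, ℂ) x) := by
  classical
  set W : lp (fun _ : X => ℂ) 2 →L[ℂ] lp (fun _ : X => ℂ) 2 :=
    LinearMap.mkContinuous (Wop_L f a ha) 1 (Wop_norm f a ha) with hW
  have hWa : ∀ ξ x, (W ξ : ∀ _ : X, ℂ) x = (f x).elim 0 (fun y => a x * (ξ : ∀ _ : X, ℂ) y) :=
    fun ξ x => rfl
  refine ⟨W, hWa, ?_⟩
  intro η y
  have h1 : ((star W) η : ∀ _ : X, ℂ) y =
      inner ℂ (lp.single 2 y (1 : ℂ) : lp (fun _ : X => ℂ) 2) ((star W) η) := by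
    rw [lp.inner_single_left]
    simp
  rw [h1, ContinuousLinearMap.star_eq_adjoint, ContinuousLinearMap.adjoint_inner_right]
  cases hy : f.symm y with
  | none =>
    have h2 : W (lp.single 2 y (1 : ℂ)) = 0 := by
      apply lp.ext
      funext x
      rw [hWa]
      cases hx : f x with
      | none => simp
      | some z =>
        have hz : z ≠ y := by
          intro hz
          rw [hz] at hx
          have := f.eq_some_iff.2 hx
          rw [hy] at this
          exact absurd this (by simp)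
        simp [hz]
    rw [h2, inner_zero_left, Option.elim_none]
  | some x₀ =>
    have hx₀ : f x₀ = some y := f.eq_some_iff.1 hy
    have h2 : W (lp.single 2 y (1 : ℂ)) = lp.single 2 x₀ (a x₀) := by
      apply lp.ext
      funext x
      rw [hWa]
      by_cases hxx : x = x₀
      · subst hxx
        rw [hx₀]
        simp
      · rw [lp.single_apply_ne _ _ _ hxx]
        cases hx : f x with
        | none => simp
        | some z =>
          have hz : z ≠ y := by
            intro hz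
            rw [hz] at hx
            have := f.eq_some_iff.2 hx
            rw [hy] at this
            exact hxx (Option.some.inj this).symm
          simp [hz]
    rw [h2, lp.inner_single_left, Option.elim_some]
    simp [mul_comm]

end Pool.Agent.RIG
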