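import Pool.Agent.RIG.Defs
import Pool.Agent.RIG.Wop

/-!
# FamX: the family of a space of infinite paths

`X` is a set of infinite paths: each `x : X` has a first edge `hd x` and a tail `tl x`; `x0 : X` is a marked
path. On `ℓ²(X)`, for `t` in the circle: `P_v δ_x = δ_x` if `s (hd x) = v` (else `0`),
`S_e δ_x = w δ_{e x}` if `r e = s (hd x)` (else `0`), `w = t` if `e x = x0` and `w = 1` otherwise.

PROOF of `exists_famX`. Let `f e : X ≃. X`, `f e y = some (tl y)` if `hd y = e`, `none` otherwise; the inverse: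
`(f e).symm x = some y` iff `hd y = e ∧ tl y = x` (`inj`). Operators `S' e` (weight `1` if `x ≠ x0`, `0` if
`x = x0`) and `S'' e` (weight `0` if `x ≠ x0`, `1` if `x = x0`) from `exists_wop`, and `P' v` from the partial
identity on `{x | s (hd x) = v}` with weight `1`.
`Ξ.s e = (const (S' e)) + (t ↦ (t : ℂ) • S'' e)` (continuous), `Ξ.p v = const (P' v)`. So
`(Ξ.s e t ξ) x = if hd x = e then (if x = x0 then t else 1) * ξ (tl x) else 0`, and for the adjoint
`((star (Ξ.s e)) t η) x = ((star (Ξ.s e t)) η) x` is `conj (w y) * η y` if there is `y` with `hd y = e`,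
`tl y = x`, and `0` otherwise. `w = if y = x0 then t else 1` has absolute value `1`.
The relations are checked at each `t`, `ξ`, `x` (`ContinuousMap.ext`, `ContinuousLinearMap.ext`, `lp.ext`):
`star p = p`, `p p = p`, `p v p w = 0`: clear. `star (s e) * s e = p (r e)`: at `x`: if `r e = s (hd x)` there is
`y` with `hd y = e`, `tl y = x` (`cons`): `conj (w y) * (w y * ξ (tl y)) = ξ x`; if `r e ≠ s (hd x)` there is no
such `y` (`hc`: `r (hd y) = s (hd (tl y))`), both sides `0`. `star (s e) * s f = 0` (`e ≠ f`): at `x`: `hd y = e`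
so `(s f ξ) y = 0`. `p (s e) * s e = s e`: clear. `ck`: at `x` with `s (hd x) = v`: only the term `e = hd x`
of `∑ s e * star (s e)` contributes, `w x * (conj (w x) * ξ x) = ξ x` (`hd x ∈ out v`); if `s (hd x) ≠ v` all
terms vanish.
(The value of a finite sum at `t`, `ξ`, `x`: `map_sum` for evaluation maps.)
-/

namespace Pool.Agent.RIG

open Pool.Agent.AUE Pool.Agent.GHT

open scoped ComplexConjugate

/-- The operators on the space of sequences. -/
abbrev FamX_L (X : Type) : Type := lp (fun _ : X => ℂ) 2 →L[ℂ] lp (fun _ : X => ℂ) 2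

theorem FamX_ext {X : Type} {A B : C(Circle, FamX_L X)}
    (h : ∀ t ξ x, ((A t) ξ : ∀ _ : X, ℂ) x = ((B t) ξ : ∀ _ : X, ℂ) x) : A = B := by
  apply ContinuousMap.ext
  intro t
  apply ContinuousLinearMap.ext
  intro ξ
  apply lp.ext
  funext x
  exact h t ξ x

theorem FamX_mul {X : Type} (A B : C(Circle, FamX_L X)) (t : Circle)
    (ξ : lp (fun _ : X => ℂ) 2) (x : X) :
    (((A * B) t) ξ : ∀ _ : X, ℂ) x = ((A t) ((B t) ξ) : ∀ _ : X, ℂ) x := rfl

theorem FamX_zero {X : Type} (t : Circle) (ξ : lp (fun _ : X => ℂ) 2) (x : X) :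
    (((0 : C(Circle, FamX_L X)) t) ξ : ∀ _ : X, ℂ) x = 0 := rfl

theorem FamX_sum {X ι : Type} (u : Finset ι) (A : ι → C(Circle, FamX_L X)) (t : Circle)
    (ξ : lp (fun _ : X => ℂ) 2) (x : X) :
    (((∑ i ∈ u, A i) t) ξ : ∀ _ : X, ℂ) x = ∑ i ∈ u, ((A i t) ξ : ∀ _ : X, ℂ) x := by
  classical
  induction u using Finset.induction_on with
  | empty => rw [Finset.sum_empty, Finset.sum_empty]; rfl
  | insert a u ha ih => rw [Finset.sum_insert ha, Finset.sum_insert ha, ← ih]; rfl

/-- The partial bijection of an edge. -/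
theorem FamX_pe {X Y : Type} (hd : X → Y) (tl : X → X)
    (inj : ∀ x y, hd x = hd y → tl x = tl y → x = y) (e : Y) :
    ∃ f : X ≃. X, (∀ x, hd x = e → f x = some (tl x)) ∧ (∀ x, hd x ≠ e → f x = none) ∧
      (∀ y, hd y = e → f.symm (tl y) = some y) ∧
      ∀ x, (∀ y, hd y = e → tl y ≠ x) → f.symm x = none := by
  classical
  have h0 : ∀ a b, a ∈ (if h : ∃ y, hd y = e ∧ tl y = b then some h.choose else none) ↔
      b ∈ (if hd a = e then some (tl a) else none) := by
    intro a b
    constructor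
    · intro h
      by_cases h1 : ∃ y, hd y = e ∧ tl y = b
      · rw [dif_pos h1] at h
        have h2 : h1.choose = a := Option.some.inj h
        have h3 := h1.choose_spec
        rw [h2] at h3
        rw [if_pos h3.1, h3.2]
        rfl
      · rw [dif_neg h1] at h
        exact absurd h (by simp)
    · intro h
      by_cases h1 : hd a = e
      · rw [if_pos h1] at h
        have h2 : tl a = b := Option.some.inj h
        have h3 : ∃ y, hd y = e ∧ tl y = b := ⟨a, h1, h2⟩
        rw [dif_pos h3]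
        have h4 := h3.choose_spec
        have h5 : h3.choose = a := inj _ _ (h4.1.trans h1.symm) (h4.2.trans h2.symm)
        rw [h5]
        rfl
      · rw [if_neg h1] at h
        exact absurd h (by simp)
  let f : X ≃. X :=
    { toFun := fun a => if hd a = e then some (tl a) else none
      invFun := fun b => if h : ∃ y, hd y = e ∧ tl y = b then some h.choose else none
      inv := h0 }
  refine ⟨f, ?_, ?_, ?_, ?_⟩
  · intro x hx
    change (if hd x = e then some (tl x) else none) = _
    rw [if_pos hx]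
  · intro x hx
    change (if hd x = e then some (tl x) else none) = _
    rw [if_neg hx]
  · intro y hy
    have h1 : y ∈ f.symm (tl y) := by
      rw [PEquiv.mem_iff_mem]
      change (if hd y = e then some (tl y) else none) = _
      rw [if_pos hy]
    exact h1
  · intro x hx
    change (if h : ∃ y, hd y = e ∧ tl y = x then some h.choose else none) = none
    rw [dif_neg]
    rintro ⟨y, h1, h2⟩
    exact hx y h1 h2

open scoped Classical in
theorem FamX_p {X : Type} (q : X → Prop) :
    ∃ P : C(Circle, FamX_L X),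
      (∀ t ξ x, ((P t) ξ : ∀ _ : X, ℂ) x = if q x then (ξ : ∀ _ : X, ℂ) x else 0) ∧
      star P = P := by
  obtain ⟨W, h1, h2⟩ := exists_wop (PEquiv.ofSet {x | q x}) (fun _ => (1 : ℂ)) (by simp)
  have h3 : ∀ (ξ : lp (fun _ : X => ℂ) 2) x,
      (W ξ : ∀ _ : X, ℂ) x = if q x then (ξ : ∀ _ : X, ℂ) x else 0 := by
    intro ξ x
    rw [h1]
    by_cases hx : q x
    · rw [if_pos hx]
      have h4 : PEquiv.ofSet {x | q x} x = some x := by
        change (if x ∈ {x | q x} then some x else none) = some x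
        rw [if_pos (show x ∈ {x | q x} from hx)]
      rw [h4, Option.elim_some, one_mul]
    · rw [if_neg hx]
      have h4 : PEquiv.ofSet {x | q x} x = none := by
        change (if x ∈ {x | q x} then some x else none) = none
        rw [if_neg (show ¬ (x ∈ {x | q x}) from hx)]
      rw [h4, Option.elim_none]
  have h5 : star W = W := by
    apply ContinuousLinearMap.ext
    intro ξ
    apply lp.ext
    funext x
    rw [h2, h1, PEquiv.ofSet_symm]
    simp
  refine ⟨ContinuousMap.const _ W, fun t ξ x => h3 ξ x, ?_⟩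
  apply ContinuousMap.ext
  intro t
  exact h5

open scoped Classical in
theorem FamX_s {X Y : Type} (hd : X → Y) (tl : X → X)
    (inj : ∀ x y, hd x = hd y → tl x = tl y → x = y) (x0 : X) (e : Y) :
    ∃ S : C(Circle, FamX_L X),
      (∀ t ξ x, ((S t) ξ : ∀ _ : X, ℂ) x =
        if hd x = e then (if x = x0 then (t : ℂ) else 1) * (ξ : ∀ _ : X, ℂ) (tl x) else 0) ∧
      (∀ t η y, hd y = e → (((star S) t) η : ∀ _ : X, ℂ) (tl y) =
        conj (if y = x0 then (t : ℂ) else 1) * (η : ∀ _ : X, ℂ) y) ∧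
      (∀ t η x, (∀ y, hd y = e → tl y ≠ x) → (((star S) t) η : ∀ _ : X, ℂ) x = 0) := by
  obtain ⟨f, hf1, hf2, hf3, hf4⟩ := FamX_pe hd tl inj e
  obtain ⟨W, h1, h2⟩ := exists_wop f (fun x => if x = x0 then (0 : ℂ) else 1) (by
    intro x; split_ifs <;> simp)
  obtain ⟨W', h1', h2'⟩ := exists_wop f (fun x => if x = x0 then (1 : ℂ) else 0) (by
    intro x; split_ifs <;> simp)
  have hc : Continuous (fun t : Circle => W + (t : ℂ) • W') := by fun_prop
  refine ⟨⟨fun t : Circle => W + (t : ℂ) • W', hc⟩, ?_, ?_, ?_⟩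
  · intro t ξ x
    change (W ξ : ∀ _ : X, ℂ) x + (t : ℂ) * (W' ξ : ∀ _ : X, ℂ) x = _
    rw [h1, h1']
    by_cases hx : hd x = e
    · rw [if_pos hx, hf1 x hx, Option.elim_some, Option.elim_some]
      by_cases h3 : x = x0
      · rw [if_pos h3, if_pos h3, if_pos h3]; ring
      · rw [if_neg h3, if_neg h3, if_neg h3]; ring
    · rw [if_neg hx, hf2 x hx, Option.elim_none, Option.elim_none]; ring
  · intro t η y hy
    have h4 : (star (⟨fun t : Circle => W + (t : ℂ) • W', hc⟩ : C(Circle, FamX_L X))) t =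
        star W + conj (t : ℂ) • star W' := by
      change star (W + (t : ℂ) • W') = _
      rw [star_add, star_smul]
      rfl
    rw [h4]
    change ((star W) η : ∀ _ : X, ℂ) (tl y) + conj (t : ℂ) * ((star W') η : ∀ _ : X, ℂ) (tl y) = _
    rw [h2, h2', hf3 y hy, Option.elim_some, Option.elim_some]
    by_cases h3 : y = x0
    · rw [if_pos h3, if_pos h3, if_pos h3, map_zero, map_one]; ring
    · rw [if_neg h3, if_neg h3, if_neg h3, map_zero, map_one]; ring
  · intro t η x hx
    have h4 : (star (⟨fun t : Circle => W + (t : ℂ) • W', hc⟩ : C(Circle, FamX_L X))) t =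
        star W + conj (t : ℂ) • star W' := by
      change star (W + (t : ℂ) • W') = _
      rw [star_add, star_smul]
      rfl
    rw [h4]
    change ((star W) η : ∀ _ : X, ℂ) x + conj (t : ℂ) * ((star W') η : ∀ _ : X, ℂ) x = _
    rw [h2, h2', hf4 x hx, Option.elim_none, Option.elim_none]
    ring

theorem FamX_conj (t : Circle) (c : Prop) [Decidable c] (z : ℂ) :
    conj (if c then (t : ℂ) else 1) * ((if c then (t : ℂ) else 1) * z) = z := by
  rw [← mul_assoc]
  split_ifs
  · rw [Complex.conj_mul']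
    simp
  · simp

theorem FamX_conj' (t : Circle) (c : Prop) [Decidable c] (z : ℂ) :
    (if c then (t : ℂ) else 1) * (conj (if c then (t : ℂ) else 1) * z) = z := by
  rw [← mul_assoc, mul_comm (if c then (t : ℂ) else 1), mul_assoc, FamX_conj]

open scoped Classical in
theorem exists_famX {G : DGraph} {X : Type} (hd : X → G.E) (tl : X → X)
    (hc : ∀ x, G.r (hd x) = G.s (hd (tl x)))
    (hcons : ∀ e x, G.r e = G.s (hd x) → ∃ y, hd y = e ∧ tl y = x)
    (inj : ∀ x y, hd x = hd y → tl x = tl y → x = y) (x0 : X) :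
    ∃ Ξ : CKFam G C(Circle, lp (fun _ : X => ℂ) 2 →L[ℂ] lp (fun _ : X => ℂ) 2),
      (∀ v t ξ x, ((Ξ.p v t) ξ : ∀ _ : X, ℂ) x =
        if G.s (hd x) = v then (ξ : ∀ _ : X, ℂ) x else 0) ∧
      (∀ e t ξ x, ((Ξ.s e t) ξ : ∀ _ : X, ℂ) x =
        if hd x = e then (if x = x0 then (t : ℂ) else 1) * (ξ : ∀ _ : X, ℂ) (tl x) else 0) ∧
      ∀ e t ξ x, ((Ξ.s e t * star (Ξ.s e t)) ξ : ∀ _ : X, ℂ) x =
        if hd x = e then (ξ : ∀ _ : X, ℂ) x else 0 := by
  choose P hP hPs using fun v : G.V => FamX_p (fun x : X => G.s (hd x) = v)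
  choose S hS hS1 hS2 using fun e : G.E => FamX_s hd tl inj x0 e
  have hss : ∀ e t ξ x, ((S e * star (S e)) t ξ : ∀ _ : X, ℂ) x =
      if hd x = e then (ξ : ∀ _ : X, ℂ) x else 0 := by
    intro e t ξ x
    rw [FamX_mul, hS]
    by_cases hx : hd x = e
    · rw [if_pos hx, if_pos hx, hS1 e t ξ x hx, FamX_conj']
    · rw [if_neg hx, if_neg hx]
  refine ⟨{ p := P, s := S, p_star := hPs, p_mul := ?_, p_orth := ?_, s_star_s := ?_,
            s_orth := ?_, p_s := ?_, ck := ?_ }, hP, hS, hss⟩
  · intro v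
    apply FamX_ext
    intro t ξ x
    rw [FamX_mul, hP, hP]
    by_cases h : G.s (hd x) = v
    · rw [if_pos h, if_pos h]
    · rw [if_neg h, if_neg h]
  · intro v w hvw
    apply FamX_ext
    intro t ξ x
    rw [FamX_mul, hP, hP, FamX_zero]
    by_cases h : G.s (hd x) = v
    · rw [if_pos h, if_neg (fun h' => hvw (h.symm.trans h'))]
    · rw [if_neg h]
  · intro e
    apply FamX_ext
    intro t ξ x
    rw [FamX_mul, hP]
    by_cases h : G.s (hd x) = G.r e
    · rw [if_pos h]
      obtain ⟨y, hy1, hy2⟩ := hcons e x h.symm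
      subst hy2
      rw [hS1 e t _ y hy1, hS, if_pos hy1, FamX_conj]
    · rw [if_neg h]
      apply hS2
      intro y hy1 hy2
      apply h
      rw [← hy2, ← hc y, hy1]
  · intro e f hef
    apply FamX_ext
    intro t ξ x
    rw [FamX_mul, FamX_zero]
    by_cases h : ∃ y, hd y = e ∧ tl y = x
    · obtain ⟨y, hy1, hy2⟩ := h
      subst hy2
      rw [hS1 e t _ y hy1, hS, if_neg (fun h' => hef (hy1.symm.trans h')), mul_zero]
    · apply hS2
      intro y hy1 hy2
      exact h ⟨y, hy1, hy2⟩
  · intro e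
    apply FamX_ext
    intro t ξ x
    rw [FamX_mul, hP, hS]
    by_cases h : hd x = e
    · rw [if_pos h, h, if_pos rfl]
    · rw [if_neg h]
      split_ifs <;> rfl
  · intro v hv
    apply FamX_ext
    intro t ξ x
    rw [hP, FamX_sum, Finset.sum_congr rfl (fun e _ => hss e t ξ x)]
    by_cases h : G.s (hd x) = v
    · rw [if_pos h, Finset.sum_ite_eq, if_pos]
      rw [Set.Finite.mem_toFinset]
      exact h
    · rw [if_neg h]
      symm
      apply Finset.sum_eq_zero
      intro e he
      rw [if_neg]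
      intro h'
      apply h
      rw [h']
      rw [Set.Finite.mem_toFinset] at he
      exact he

end Pool.Agent.RIG
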