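import Pool.Agent.RIG.LocU
import Pool.Agent.AUE.Ph1

/-!
# Ind: induction over the components

PROOF of `solY_univ`. `SolY F c ∅` holds (`W = 1`). Claim: for every hereditary `Y` (edges with source in `Y` have
range in `Y`) with `SolY F c Y`: `SolY F c Set.univ`; strong induction on the number of elements of `Yᶜ` (`V`
finite). If `Y` is everything: done. Otherwise choose `v ∉ Y` such that `C = {u | u ∉ Y ∧ Reach v u}` has the
smallest number of elements. `v ∈ C`. For `u ∈ C`: `{w | w ∉ Y ∧ Reach u w} ⊆ C`, so equality, so `Reach u v`. If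
`Reach v u` and `Reach u v` then `u ∉ Y` (`Y` hereditary, `v ∉ Y`). So `C = {u | Reach v u ∧ Reach u v}`.
`Y ∪ C` is hereditary (`s e ∈ C`: `Reach v (r e)`). By `solY_union` and induction it suffices:
`LocSol F (star W * c * th W) C` for `Ch P W` (note `Ch P (star W * c * th W)`).
Case 1: `G.restrict (s e ∈ C ∧ r e ∈ C)` has no edges: `sol_empty`, `loc_of_sol`.
Case 2: there is an edge `e` with `s e, r e ∈ C`. `Reach (r e) (s e)` (through `v`). By `h` there are two cases.
(K) `f ≠ f'`, `s f = s f'`: `s f ∈ C` (`Reach (s e) (s f)`, `Reach (s f) (r f)` by the edge, `Reach (r f) (s e)`),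
`r f, r f' ∈ C`. The restricted graph satisfies `SC`: for `a, b ∈ C` there is a path from `a` to `b` in `G`, all its
vertices are in `C`, its edges are edges of the restricted graph. `sol_ph1`, `loc_of_sol`.
(R) `{u | Reach (s e) u ∧ Reach u (s e)} = C` since `s e ∈ C`.
-/

namespace Pool.Agent.RIG

open Pool.Agent.AUE Pool.Agent.GHT

theorem Ind_mem {V : Type} {G : Gr V} {Y : Set V} (hY : ∀ e, G.s e ∈ Y → G.r e ∈ Y) {a b : V}
    (h : G.Reach a b) (ha : a ∈ Y) : b ∈ Y := by
  induction h with
  | refl => exact ha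
  | tail _ hs ih =>
    obtain ⟨e, he1, he2⟩ := hs
    rw [← he2]
    exact hY e (by rw [he1]; exact ih)

theorem Ind_in {V : Type} {G : Gr V} {v : V} {C : Set V} (hC : C = {u | G.Reach v u ∧ G.Reach u v})
    {a b : V} (h : G.Reach a b) (hb : G.Reach b v) (ha : G.Reach v a) :
    (G.restrict (fun e => G.s e ∈ C ∧ G.r e ∈ C)).Reach a b := by
  subst hC
  induction h using Relation.ReflTransGen.head_induction_on with
  | refl => exact Relation.ReflTransGen.refl
  | @head a c hs hcb ih =>
    have hac : G.Reach a c := Relation.ReflTransGen.single hs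
    have hvc : G.Reach v c := Relation.ReflTransGen.trans ha hac
    have hcv : G.Reach c v := Relation.ReflTransGen.trans hcb hb
    obtain ⟨e, he1, he2⟩ := hs
    refine Relation.ReflTransGen.head ⟨⟨e, ?_, ?_⟩, he1, he2⟩ (ih hvc)
    · rw [he1]
      exact ⟨ha, Relation.ReflTransGen.trans hac hcv⟩
    · rw [he2]
      exact ⟨hvc, hcv⟩

theorem Ind_edge {V : Type} {G : Gr V} (e : G.Ed) : G.Reach (G.s e) (G.r e) :=
  Relation.ReflTransGen.single ⟨e, rfl, rfl⟩

theorem solY_univ {V : Type} [Fintype V] {G : Gr V} {B : Type} [CStarAlgebra B] {P : V → B}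
    (hP : IsPrj P) (F : Fam G P) {c : B} (hc : Ch P c)
    (h : ∀ e : G.Ed, G.Reach (G.r e) (G.s e) →
      (∃ f f' : G.Ed, f ≠ f' ∧ G.s f = G.s f' ∧ G.Reach (G.s e) (G.s f) ∧
        G.Reach (G.r f) (G.s e) ∧ G.Reach (G.r f') (G.s e)) ∨
      ∀ W, Ch P W → LocSol F (star W * c * F.th W)
        {u | G.Reach (G.s e) u ∧ G.Reach u (G.s e)}) : SolY F c Set.univ := by
  classical
  have main : ∀ n : ℕ, ∀ Y : Set V, (Yᶜ).ncard = n → (∀ e, G.s e ∈ Y → G.r e ∈ Y) →
      SolY F c Y → SolY F c Set.univ := by
    intro n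
    induction n using Nat.strong_induction_on with
    | _ n ih =>
      intro Y hn hY hsol
      by_cases hu : Y = Set.univ
      · rw [← hu]
        exact hsol
      · have hne : (Finset.univ.filter (fun v : V => v ∉ Y)).Nonempty := by
          obtain ⟨v, hv⟩ := (Set.ne_univ_iff_exists_notMem Y).1 hu
          exact ⟨v, Finset.mem_filter.2 ⟨Finset.mem_univ _, hv⟩⟩
        obtain ⟨v, hv, hmin⟩ := Finset.exists_min_image _
          (fun v => ({u | u ∉ Y ∧ G.Reach v u} : Set V).ncard) hne
        have hvY : v ∉ Y := (Finset.mem_filter.1 hv).2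
        set C : Set V := {u | G.Reach v u ∧ G.Reach u v} with hC
        have hback : ∀ u, u ∉ Y → G.Reach v u → G.Reach u v := by
          intro u hu1 hu2
          have hsub : ({w | w ∉ Y ∧ G.Reach u w} : Set V) ⊆ {w | w ∉ Y ∧ G.Reach v w} :=
            fun w hw => ⟨hw.1, Relation.ReflTransGen.trans hu2 hw.2⟩
          have heq : ({w | w ∉ Y ∧ G.Reach u w} : Set V) = {w | w ∉ Y ∧ G.Reach v w} :=
            Set.eq_of_subset_of_ncard_le hsub
              (hmin u (Finset.mem_filter.2 ⟨Finset.mem_univ _, hu1⟩)) (Set.toFinite _)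
          have h1 : v ∈ ({w | w ∉ Y ∧ G.Reach v w} : Set V) := ⟨hvY, Relation.ReflTransGen.refl⟩
          rw [← heq] at h1
          exact h1.2
        have hYC : ∀ u, u ∈ Y → u ∉ C := fun u hu1 hu2 => hvY (Ind_mem hY hu2.2 hu1)
        have hvC : v ∈ C := ⟨Relation.ReflTransGen.refl, Relation.ReflTransGen.refl⟩
        have hYC' : ∀ e, G.s e ∈ Y ∪ C → G.r e ∈ Y ∪ C := by
          intro e he
          by_cases hr : G.r e ∈ Y
          · exact Or.inl hr
          · rcases he with he | he
            · exact absurd (hY e he) hr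
            · have h1 : G.Reach v (G.r e) := Relation.ReflTransGen.trans he.1 (Ind_edge e)
              exact Or.inr ⟨h1, hback _ hr h1⟩
        have hlt : ((Y ∪ C)ᶜ).ncard < n := by
          rw [← hn]
          apply Set.ncard_lt_ncard _ (Set.toFinite _)
          refine ⟨fun u hu1 hu2 => hu1 (Or.inl hu2), fun hsub => ?_⟩
          exact hsub hvY (Or.inr hvC)
        refine ih _ hlt (Y ∪ C) rfl hYC' (solY_union hP F hc hY hYC hsol ?_)
        intro W hW
        have hc' : Ch P (star W * c * F.th W) := ((Ch.star hP hW).mul hc).mul (Ch.th F hP hW)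
        by_cases hE : IsEmpty (G.restrict (fun e => G.s e ∈ C ∧ G.r e ∈ C)).Ed
        · exact loc_of_sol hP F hc' C (sol_empty _ hE)
        · rw [not_isEmpty_iff] at hE
          obtain ⟨e₀⟩ := hE
          have he₀s : G.s e₀.1 ∈ C := e₀.2.1
          have he₀r : G.r e₀.1 ∈ C := e₀.2.2
          rcases h e₀.1 (Relation.ReflTransGen.trans he₀r.2 he₀s.1) with
            ⟨f, f', hff, hs, h1, h2, h3⟩ | hR
          · have hvsf : G.Reach v (G.s f) := Relation.ReflTransGen.trans he₀s.1 h1
            have hrfv : G.Reach (G.r f) v := Relation.ReflTransGen.trans h2 he₀s.2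
            have hrfv' : G.Reach (G.r f') v := Relation.ReflTransGen.trans h3 he₀s.2
            have hsf : G.s f ∈ C := ⟨hvsf, Relation.ReflTransGen.trans (Ind_edge f) hrfv⟩
            have hsf' : G.s f' ∈ C := hs ▸ hsf
            have hrf : G.r f ∈ C := ⟨Relation.ReflTransGen.trans hvsf (Ind_edge f), hrfv⟩
            have hrf' : G.r f' ∈ C := ⟨Relation.ReflTransGen.trans hsf'.1 (Ind_edge f'), hrfv'⟩
            refine loc_of_sol hP F hc' C (sol_ph1 _ ?_ ?_)
            · intro e g
              exact Ind_in hC (Relation.ReflTransGen.trans e.2.2.2 g.2.1.1) g.2.1.2 e.2.2.1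
            · exact ⟨⟨f, hsf, hrf⟩, ⟨f', hsf', hrf'⟩, fun hh => hff (congrArg Subtype.val hh), hs⟩
          · have hset : ({u | G.Reach (G.s e₀.1) u ∧ G.Reach u (G.s e₀.1)} : Set V) = C := by
              ext u
              constructor
              · rintro ⟨h1, h2⟩
                exact ⟨Relation.ReflTransGen.trans he₀s.1 h1, Relation.ReflTransGen.trans h2 he₀s.2⟩
              · rintro ⟨h1, h2⟩
                exact ⟨Relation.ReflTransGen.trans he₀s.2 h1, Relation.ReflTransGen.trans h2 he₀s.1⟩
            have h4 := hR W hW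
            rw [hset] at h4
            exact h4
  refine main _ ∅ rfl (fun e he => absurd he (Set.notMem_empty _)) ?_
  intro ε _
  exact ⟨1, Ch_one, fun v hv => absurd hv (Set.notMem_empty _)⟩

end Pool.Agent.RIG
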