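import Pool.Agent.RIG.DefL
import Pool.Agent.GHT.MainA
import Pool.Agent.RGD.Rng

/-!
# Rgd: rigidity (block R4)

The rigidity theorem `RGD.rigidity`, in the form which is used in `RIG`.
-/

namespace Pool.Agent.RIG

open Pool.Agent.AUE Pool.Agent.GHT

/-- The two products of the edges along a nonempty path ending at `v` coincide. -/
theorem Rgd_Sl {G : DGraph} {A : Type} [NonUnitalCStarAlgebra A] (Φ : CKFam G A) (v : G.V) :
    ∀ (l : List G.E) (u : G.V), l ≠ [] → IsPath G u l v →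
      Pool.Agent.RGD.Sl Φ.toL l v = lprod (l.map Φ.s) := by
  intro l
  induction l with
  | nil => intro u h; exact absurd rfl h
  | cons e l ih =>
    intro u _ hp
    obtain ⟨_, hp2⟩ := hp
    cases l with
    | nil =>
      have hv : G.r e = v := hp2
      show Φ.toL.S e * Φ.toL.P v = Φ.s e
      rw [← hv, Φ.toL.SP e]
      rfl
    | cons e' l' =>
      have h1 := ih (G.r e) (List.cons_ne_nil _ _) hp2
      show Φ.toL.S e * Pool.Agent.RGD.Sl Φ.toL (e' :: l') v = Φ.s e * lprod ((e' :: l').map Φ.s)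
      rw [h1]
      rfl

theorem rgd_comp {E F : DGraph} [Encodable E.V] [Encodable E.E] [Encodable F.V] [Encodable F.E]
    {A B : Type} [NonUnitalCStarAlgebra A] [NonUnitalCStarAlgebra B] {Φ : CKFam E A}
    (hΦ : Φ.IsUniversal) {Ψ : CKFam F B} (hΨ : Ψ.IsUniversal)
    (f : Leavitt E →ₙₐ[ℂ] Leavitt F) (g : Leavitt F →ₙₐ[ℂ] Leavitt E)
    (hgf : ∀ x, g (f x) = x) (hfg : ∀ y, f (g y) = y) :
    Rgd Φ ((starOf hΨ (Ψ := Φ) g).comp (starOf hΦ (Ψ := Ψ) f)) := by
  intro v l hl D _ π hcomm hq u hu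
  have h1 := Rgd_Sl Φ v l v hl.1.1 hl.1.2.1
  rw [← h1]
  refine Pool.Agent.RGD.rigidity hΦ hΨ hgf hfg hl.1 π (fun e he => ?_) hcomm u hu
  rw [hq e he, map_mul, map_star]

end Pool.Agent.RIG
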