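import Pool.Agent.RIG.AppF
import Pool.Agent.RIG.Rgd
import Pool.Agent.AUE.Final1

/-!
# IsoF: the isomorphism conjecture for graph algebras

The Leavitt path algebras over `ℂ` of two countable directed graphs are isomorphic as rings only if the
graph C*-algebras are isomorphic as `*`-algebras.
-/

namespace Pool.Agent.RIG

open Pool.Agent.AUE Pool.Agent.GHT

theorem iso_all {E F : DGraph} [Countable E.V] [Countable E.E] [Countable F.V] [Countable F.E]
    (φ : LPA E ≃+* LPA F) {A B : Type} [NonUnitalCStarAlgebra A] [NonUnitalCStarAlgebra B]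
    (Φ : CKFam E A) (hΦ : Φ.IsUniversal) (Ψ : CKFam F B) (hΨ : Ψ.IsUniversal) :
    Nonempty (A ≃⋆ₐ[ℂ] B) := by
  let _ := Encodable.ofCountable E.V
  let _ := Encodable.ofCountable E.E
  let _ := Encodable.ofCountable F.V
  let _ := Encodable.ofCountable F.E
  let φ' : Leavitt E ≃+* Leavitt F := φ
  obtain ⟨g, h1, h2⟩ := algIso φ'.symm
  exact elliott (starOf hΦ (Ψ := Ψ) (gHom φ'.symm)) (starOf hΨ (Ψ := Φ) g) (countable_gen Φ hΦ)
    (countable_gen Ψ hΨ)
    (appU_id Φ hΦ (homotopic_comp hΦ hΨ _ g h2).symm (rgd_comp hΦ hΨ _ g h2 h1))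
    (appU_id Ψ hΨ (homotopic_comp hΨ hΦ g _ h1).symm (rgd_comp hΨ hΦ g _ h1 h2))

end Pool.Agent.RIG
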