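import Pool.Agent.RIG.DefL
import Pool.Agent.AUE.Bas

/-!
# KRec: the recursion along a list of edges

PROOFS. `thE_P`: `P v * S_e = S_e` or `0` (`P_mul`, `P_S_ne`). `thE_mul`: `star (S_e) * S_e = P (r e)`,
`S_e * P (r e) = S_e` (`S_P`), and `y` commutes with `P (r e)`: `S_e x S_e* S_e y S_e* = S_e x P y S_e* = S_e x y P S_e* =
S_e x y S_e*`; the projections `1 - S_e S_e*` and `S_e S_e*` are orthogonal. `thE_S`: `S_e x S_e* S_e = S_e x P (r e) =
S_e P (r e) x = S_e x`, `(1 - S_e S_e* ) S_e = 0`. `thE_ch`: apply `thE` to the chain (`thE 1 = 1`,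
`thE (star x) = star (thE x)`, so `thE` of an element of `UD P` is in `UD P`; `‖thE x - thE y‖ = ‖S_e (x - y) S_e*‖ ≤
‖x - y‖`). `KK_ch`: induction (`Ch.mul`).
`KK_eq`: with `T_l = (l.map F.S).prod`, `Θ_l x = T_l x T_l* + (1 - T_l T_l* )`: `thE e (Θ_l x) = Θ_{e :: l} x`
(ring computation), so `Θ_l` is the composition of the `thE`; `Θ_l x` commutes with all `P v` if `x` does
(induction, `thE_P`); `KK (e :: l) x = c thE e (KK l 1 * Θ_l x) = c thE e (KK l 1) * thE e (Θ_l x)`.
`KK_T`: induction: `c * thE e (KK l 1) * (S_e * T_l) = c S_e (KK l 1) T_l` (`thE_S`).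
`ch_cut`: apply `x ↦ x P_v + (1 - P_v)` to the chain (commuting projections; steps `≤` since `‖P_v‖ ≤ 1`).
`ch_cut'`: `x ↦ P_v + x (1 - P_v)` (`‖1 - P_v‖ ≤ 1`). `ch_paste = ch_cut * ch_cut'`:
`(x P_v + (1 - P_v)) (P_v + y (1 - P_v)) = x P_v + y (1 - P_v)`.
`ch_unit`: chain `ζ` for `P_v` only; `ζ' = ζ P_v + (1 - P_v)` commutes with all `P_u`.
-/

namespace Pool.Agent.RIG

open Pool.Agent.AUE Pool.Agent.GHT

variable {V : Type} {G : Gr V} {B : Type} [CStarAlgebra B] {P : V → B} (hP : IsPrj P)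
  (F : Fam G P)

include hP

theorem KRec_SP (e : G.Ed) (v : V) : (P v * F.S e = F.S e ∧ star (F.S e) * P v = star (F.S e)) ∨
    (P v * F.S e = 0 ∧ star (F.S e) * P v = 0) := by
  by_cases h : v = G.s e
  · left
    have h1 : P v * F.S e = F.S e := by rw [h, F.P_mul]
    refine ⟨h1, ?_⟩
    have h2 := congrArg star h1
    rwa [star_mul, hP.star_eq] at h2
  · right
    have h1 : P v * F.S e = 0 := F.P_S_ne hP e h
    refine ⟨h1, ?_⟩
    have h2 := congrArg star h1
    rwa [star_mul, hP.star_eq, star_zero] at h2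

theorem thE_P (e : G.Ed) (x : B) (v : V) : P v * thE F e x = thE F e x * P v := by
  unfold thE
  rcases KRec_SP hP F e v with ⟨h1, h2⟩ | ⟨h1, h2⟩
  · have e1 : P v * (F.S e * x * star (F.S e)) = F.S e * x * star (F.S e) := by
      rw [← mul_assoc, ← mul_assoc, h1]
    have e2 : F.S e * x * star (F.S e) * P v = F.S e * x * star (F.S e) := by
      rw [mul_assoc, h2]
    have e3 : P v * (F.S e * star (F.S e)) = F.S e * star (F.S e) := by
      rw [← mul_assoc, h1]
    have e4 : F.S e * star (F.S e) * P v = F.S e * star (F.S e) := by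
      rw [mul_assoc, h2]
    rw [mul_add, add_mul, mul_sub, sub_mul, e1, e2, e3, e4, mul_one, one_mul]
  · have e1 : P v * (F.S e * x * star (F.S e)) = 0 := by
      rw [← mul_assoc, ← mul_assoc, h1, zero_mul, zero_mul]
    have e2 : F.S e * x * star (F.S e) * P v = 0 := by
      rw [mul_assoc, h2, mul_zero]
    have e3 : P v * (F.S e * star (F.S e)) = 0 := by
      rw [← mul_assoc, h1, zero_mul]
    have e4 : F.S e * star (F.S e) * P v = 0 := by
      rw [mul_assoc, h2, mul_zero]
    rw [mul_add, add_mul, mul_sub, sub_mul, e1, e2, e3, e4, mul_one, one_mul]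

theorem thE_mul (e : G.Ed) {x y : B} (hy : ∀ v, P v * y = y * P v) :
    thE F e x * thE F e y = thE F e (x * y) := by
  have hSP := F.S_P hP e
  have hPS : P (G.r e) * star (F.S e) = star (F.S e) := by
    have h2 := congrArg star hSP
    rwa [star_mul, hP.star_eq] at h2
  have a1 : F.S e * x * star (F.S e) * (F.S e * y * star (F.S e)) = F.S e * (x * y) * star (F.S e) := by
    calc F.S e * x * star (F.S e) * (F.S e * y * star (F.S e))
        = F.S e * x * ((star (F.S e) * F.S e) * y) * star (F.S e) := by simp only [mul_assoc]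
      _ = F.S e * x * y * (P (G.r e) * star (F.S e)) := by
          rw [F.star_mul, hy]
          simp only [mul_assoc]
      _ = _ := by
          rw [hPS]
          simp only [mul_assoc]
  have a2 : F.S e * x * star (F.S e) * (1 - F.S e * star (F.S e)) = 0 := by
    rw [mul_sub, mul_one]
    have : F.S e * x * star (F.S e) * (F.S e * star (F.S e)) = F.S e * x * star (F.S e) := by
      calc F.S e * x * star (F.S e) * (F.S e * star (F.S e))
          = F.S e * x * ((star (F.S e) * F.S e) * star (F.S e)) := by simp only [mul_assoc]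
        _ = _ := by rw [F.star_mul, hPS]
    rw [this, sub_self]
  have a3 : (1 - F.S e * star (F.S e)) * (F.S e * y * star (F.S e)) = 0 := by
    have : (1 - F.S e * star (F.S e)) * F.S e = 0 := by
      rw [sub_mul, one_mul, mul_assoc, F.star_mul, hSP, sub_self]
    rw [← mul_assoc, ← mul_assoc, this, zero_mul, zero_mul]
  have a4 : (1 - F.S e * star (F.S e)) * (1 - F.S e * star (F.S e)) = 1 - F.S e * star (F.S e) := by
    have : F.S e * star (F.S e) * (F.S e * star (F.S e)) = F.S e * star (F.S e) := by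
      calc F.S e * star (F.S e) * (F.S e * star (F.S e))
          = F.S e * ((star (F.S e) * F.S e) * star (F.S e)) := by simp only [mul_assoc]
        _ = _ := by rw [F.star_mul, hPS]
    rw [sub_mul, one_mul, mul_sub, mul_one, this, sub_self, sub_zero]
  unfold thE
  rw [add_mul, mul_add, mul_add, a1, a2, a3, a4, add_zero, zero_add]

theorem thE_S (e : G.Ed) {x : B} (hx : ∀ v, P v * x = x * P v) :
    thE F e x * F.S e = F.S e * x := by
  have hSP := F.S_P hP e
  unfold thE
  rw [add_mul, sub_mul, one_mul]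
  have a1 : F.S e * x * star (F.S e) * F.S e = F.S e * x := by
    rw [mul_assoc, F.star_mul, mul_assoc, ← hx, ← mul_assoc, hSP]
  have a2 : F.S e * star (F.S e) * F.S e = F.S e := by
    rw [mul_assoc, F.star_mul, hSP]
  rw [a1, a2, sub_self, add_zero]

omit hP in
theorem KRec_one (e : G.Ed) : thE F e 1 = 1 := by
  unfold thE
  rw [mul_one]
  abel

omit hP in
theorem KRec_star (e : G.Ed) (x : B) : star (thE F e x) = thE F e (star x) := by
  unfold thE
  simp only [star_add, star_sub, star_mul, star_star, star_one, mul_assoc]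

theorem KRec_mem (e : G.Ed) {u : B} (hu : u ∈ UD P) : thE F e u ∈ UD P := by
  have hs := UD_star hP hu
  refine ⟨?_, ?_, fun v => thE_P hP F e u v⟩
  · rw [KRec_star, thE_mul hP F e hu.2.2, hu.1, KRec_one]
  · rw [KRec_star, thE_mul hP F e hs.2.2, hu.2.1, KRec_one]

theorem thE_ch (e : G.Ed) {x : B} (hx : Ch P x) : Ch P (thE F e x) := by
  intro δ hδ
  obtain ⟨n, ζ, h0, hn, hm, hd⟩ := hx δ hδ
  refine ⟨n, fun i => thE F e (ζ i), ?_, ?_, fun i => KRec_mem hP F e (hm i), ?_⟩
  · show thE F e (ζ 0) = 1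
    rw [h0, KRec_one]
  · show thE F e (ζ n) = thE F e x
    rw [hn]
  · intro i hi
    show ‖thE F e (ζ (i + 1)) - thE F e (ζ i)‖ ≤ δ
    have e1 : thE F e (ζ (i + 1)) - thE F e (ζ i) = F.S e * (ζ (i + 1) - ζ i) * star (F.S e) := by
      unfold thE
      rw [mul_sub, sub_mul]
      abel
    rw [e1]
    have hS := F.norm_S_le hP e
    calc ‖F.S e * (ζ (i + 1) - ζ i) * star (F.S e)‖
        ≤ ‖F.S e * (ζ (i + 1) - ζ i)‖ * ‖star (F.S e)‖ := norm_mul_le _ _
      _ ≤ (‖F.S e‖ * ‖ζ (i + 1) - ζ i‖) * ‖F.S e‖ := by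
          rw [norm_star]
          exact mul_le_mul_of_nonneg_right (norm_mul_le _ _) (norm_nonneg _)
      _ ≤ (1 * δ) * 1 := by
          refine mul_le_mul (mul_le_mul hS (hd i hi) (norm_nonneg _) zero_le_one) hS (norm_nonneg _) ?_
          rw [one_mul]
          exact hδ.le
      _ = δ := by ring

theorem KK_ch {c x : B} (hc : Ch P c) (hx : Ch P x) (l : List G.Ed) : Ch P (KK F c l x) := by
  induction l with
  | nil => exact hx
  | cons e l ih => exact Ch.mul hc (thE_ch hP F e ih)

omit hP in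
theorem KRec_cons (e : G.Ed) (T x : B) : F.S e * T * x * star (F.S e * T) +
    (1 - F.S e * T * star (F.S e * T)) = thE F e (T * x * star T + (1 - T * star T)) := by
  unfold thE
  rw [star_mul, mul_add, mul_sub, add_mul, sub_mul, mul_one]
  have e1 : F.S e * T * x * (star T * star (F.S e)) = F.S e * (T * x * star T) * star (F.S e) := by
    simp only [mul_assoc]
  have e2 : F.S e * T * (star T * star (F.S e)) = F.S e * (T * star T) * star (F.S e) := by
    simp only [mul_assoc]
  rw [e1, e2]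
  abel

theorem KRec_comm {x : B} (hx : ∀ v, P v * x = x * P v) (l : List G.Ed) (v : V) :
    P v * ((l.map F.S).prod * x * star (l.map F.S).prod +
      (1 - (l.map F.S).prod * star (l.map F.S).prod)) = ((l.map F.S).prod * x * star (l.map F.S).prod +
      (1 - (l.map F.S).prod * star (l.map F.S).prod)) * P v := by
  cases l with
  | nil =>
    simp only [List.map_nil, List.prod_nil, star_one, mul_one, one_mul, sub_self, add_zero]
    exact hx v
  | cons e l =>
    simp only [List.map_cons, List.prod_cons]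
    rw [KRec_cons]
    exact thE_P hP F e _ v

theorem KK_eq {c x : B} (hc : Ch P c) (hx : ∀ v, P v * x = x * P v) (l : List G.Ed) :
    KK F c l x = KK F c l 1 * ((l.map F.S).prod * x * star (l.map F.S).prod +
      (1 - (l.map F.S).prod * star (l.map F.S).prod)) := by
  induction l with
  | nil =>
    simp only [List.map_nil, List.prod_nil, star_one, mul_one, one_mul, sub_self, add_zero, KK]
  | cons e l ih =>
    simp only [List.map_cons, List.prod_cons]
    rw [KRec_cons]
    show c * thE F e (KK F c l x) = c * thE F e (KK F c l 1) * _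
    rw [ih, ← thE_mul hP F e (KRec_comm hP F hx l), ← mul_assoc c]

theorem KK_T {c : B} (hc : Ch P c) (l : List G.Ed) :
    KK F c l 1 * (l.map F.S).prod = (l.map (fun e => c * F.S e)).prod := by
  induction l with
  | nil => simp only [List.map_nil, List.prod_nil, mul_one, KK]
  | cons e l ih =>
    simp only [List.map_cons, List.prod_cons]
    rw [← ih]
    show c * thE F e (KK F c l 1) * (F.S e * (l.map F.S).prod) = c * F.S e * (KK F c l 1 * (l.map F.S).prod)
    have h1 := thE_S hP F e (KK_ch hP F hc Ch_one l).mem.2.2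
    calc c * thE F e (KK F c l 1) * (F.S e * (l.map F.S).prod)
        = c * (thE F e (KK F c l 1) * F.S e) * (l.map F.S).prod := by simp only [mul_assoc]
      _ = _ := by
          rw [h1]
          simp only [mul_assoc]

omit hP in
/-- cutting a unitary -/
theorem KRec_cut {Q x : B} (h1 : star Q = Q) (h2 : Q * Q = Q) (h3 : Q * x = x * Q)
    (hx : star x * x = 1) (hx' : x * star x = 1) :
    star (x * Q + (1 - Q)) * (x * Q + (1 - Q)) = 1 ∧ (x * Q + (1 - Q)) * star (x * Q + (1 - Q)) = 1 := by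
  have h4 : Q * star x = star x * Q := by
    have h := congrArg star h3
    rw [star_mul, star_mul, h1] at h
    exact h.symm
  have hQ : (1 - Q) * (1 - Q) = 1 - Q := by
    rw [sub_mul, one_mul, mul_sub, mul_one, h2, sub_self, sub_zero]
  have hQ1 : Q * (1 - Q) = 0 := by rw [mul_sub, mul_one, h2, sub_self]
  have hQ2 : (1 - Q) * Q = 0 := by rw [sub_mul, one_mul, h2, sub_self]
  have hs : star (x * Q + (1 - Q)) = Q * star x + (1 - Q) := by
    rw [star_add, star_mul, star_sub, star_one, h1]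
  rw [hs]
  constructor
  · have a1 : Q * star x * (x * Q) = Q := by
      calc Q * star x * (x * Q) = Q * (star x * x) * Q := by simp only [mul_assoc]
        _ = Q := by rw [hx, mul_one, h2]
    have a2 : Q * star x * (1 - Q) = 0 := by rw [h4, mul_assoc, hQ1, mul_zero]
    have a3 : (1 - Q) * (x * Q) = 0 := by rw [← h3, ← mul_assoc, hQ2, zero_mul]
    rw [add_mul, mul_add, mul_add, a1, a2, a3, hQ]
    abel
  · have a1 : x * Q * (Q * star x) = Q := by
      calc x * Q * (Q * star x) = x * (Q * Q) * star x := by simp only [mul_assoc]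
        _ = Q := by rw [h2, ← h3, mul_assoc, hx', mul_one]
    have a2 : x * Q * (1 - Q) = 0 := by rw [mul_assoc, hQ1, mul_zero]
    have a3 : (1 - Q) * (Q * star x) = 0 := by rw [← mul_assoc, hQ2, zero_mul]
    rw [add_mul, mul_add, mul_add, a1, a2, a3, hQ]
    abel

omit hP in
theorem KRec_cutd {Q x y : B} {δ : ℝ} (hQ : ‖Q‖ ≤ 1) (h : ‖x - y‖ ≤ δ) :
    ‖(x * Q + (1 - Q)) - (y * Q + (1 - Q))‖ ≤ δ := by
  have e1 : (x * Q + (1 - Q)) - (y * Q + (1 - Q)) = (x - y) * Q := by
    rw [sub_mul]
    abel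
  rw [e1]
  calc ‖(x - y) * Q‖ ≤ ‖x - y‖ * ‖Q‖ := norm_mul_le _ _
    _ ≤ ‖x - y‖ * 1 := mul_le_mul_of_nonneg_left hQ (norm_nonneg _)
    _ ≤ δ := by rw [mul_one]; exact h

omit hP in
theorem KRec_chcut {Q : B} (h1 : star Q = Q) (h2 : Q * Q = Q) (hn : ‖Q‖ ≤ 1)
    (h3 : ∀ u, P u * Q = Q * P u) (h4 : ∀ y ∈ UD P, Q * y = y * Q) {x : B} (hx : Ch P x) :
    Ch P (x * Q + (1 - Q)) := by
  intro δ hδ
  obtain ⟨n, ζ, h0, hn', hm, hd⟩ := hx δ hδ
  refine ⟨n, fun i => ζ i * Q + (1 - Q), ?_, ?_, ?_, ?_⟩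
  · show ζ 0 * Q + (1 - Q) = 1
    rw [h0, one_mul]
    abel
  · show ζ n * Q + (1 - Q) = x * Q + (1 - Q)
    rw [hn']
  · intro i
    obtain ⟨a1, a2⟩ := KRec_cut h1 h2 (h4 _ (hm i)) (hm i).1 (hm i).2.1
    refine ⟨a1, a2, ?_⟩
    intro u
    have b1 : P u * (ζ i * Q) = ζ i * Q * P u := by
      rw [← mul_assoc, (hm i).2.2 u, mul_assoc, h3, mul_assoc]
    rw [mul_add, add_mul, b1, mul_sub, sub_mul, h3, mul_one, one_mul]
  · intro i hi
    exact KRec_cutd hn (hd i hi)

theorem KRec_PP (u v : V) : P u * P v = P v * P u := by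
  by_cases h : u = v
  · rw [h]
  · rw [hP.orth u v h, hP.orth v u (fun e => h e.symm)]


theorem ch_paste {x y : B} (hx : Ch P x) (hy : Ch P y) (v : V) :
    Ch P (x * P v + y * (1 - P v)) := by
  have c1 : Ch P (x * P v + (1 - P v)) :=
    KRec_chcut (hP.star_eq v) (hP.mul_self v) (hP.norm_le v) (fun u => KRec_PP hP u v)
      (fun z hz => hz.2.2 v) hx
  have hn : ‖1 - P v‖ ≤ 1 := by
    have h1 : star (1 - P v) = 1 - P v := by rw [star_sub, star_one, hP.star_eq]
    have h2 : (1 - P v) * (1 - P v) = 1 - P v := by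
      rw [sub_mul, one_mul, mul_sub, mul_one, hP.mul_self, sub_self, sub_zero]
    have h3 := CStarRing.norm_star_mul_self (x := 1 - P v)
    rw [h1, h2] at h3
    nlinarith [norm_nonneg (1 - P v)]
  have c2 : Ch P (y * (1 - P v) + (1 - (1 - P v))) :=
    KRec_chcut (by rw [star_sub, star_one, hP.star_eq])
      (by rw [sub_mul, one_mul, mul_sub, mul_one, hP.mul_self, sub_self, sub_zero]) hn
      (fun u => by rw [mul_sub, sub_mul, mul_one, one_mul, KRec_PP hP u v])
      (fun z hz => by rw [mul_sub, sub_mul, mul_one, one_mul, hz.2.2 v]) hy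
  have hyP : P v * y = y * P v := hy.mem.2.2 v
  have e1 : (x * P v + (1 - P v)) * (y * (1 - P v) + (1 - (1 - P v))) = x * P v + y * (1 - P v) := by
    have b1 : x * P v * (y * (1 - P v)) = 0 := by
      calc x * P v * (y * (1 - P v)) = x * (P v * y) * (1 - P v) := by simp only [mul_assoc]
        _ = x * y * (P v * (1 - P v)) := by
            rw [hyP]
            simp only [mul_assoc]
        _ = 0 := by rw [mul_sub, mul_one, hP.mul_self, sub_self, mul_zero]
    have b2 : x * P v * P v = x * P v := by rw [mul_assoc, hP.mul_self]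
    have b3 : (1 - P v) * (y * (1 - P v)) = y * (1 - P v) := by
      have : (1 - P v) * y = y * (1 - P v) := by rw [mul_sub, sub_mul, mul_one, one_mul, hyP]
      rw [← mul_assoc, this, mul_assoc]
      congr 1
      rw [sub_mul, one_mul, mul_sub, mul_one, hP.mul_self, sub_self, sub_zero]
    have b4 : (1 - P v) * P v = 0 := by rw [sub_mul, one_mul, hP.mul_self, sub_self]
    rw [sub_sub_cancel, add_mul, mul_add, mul_add, b1, b2, b3, b4]
    abel
  rw [← e1]
  exact Ch.mul c1 c2

theorem ch_unit {x : B} {v : V} (hx : Ch (fun _ : Unit => P v) x) (h1 : x * (1 - P v) = 1 - P v) :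
    Ch P x := by
  intro δ hδ
  obtain ⟨n, ζ, h0, hn', hm, hd⟩ := hx δ hδ
  refine ⟨n, fun i => ζ i * P v + (1 - P v), ?_, ?_, ?_, ?_⟩
  · show ζ 0 * P v + (1 - P v) = 1
    rw [h0, one_mul]
    abel
  · show ζ n * P v + (1 - P v) = x
    rw [hn', ← h1, ← mul_add]
    rw [show P v + (1 - P v) = 1 by abel, mul_one]
  · intro i
    have hc : P v * ζ i = ζ i * P v := (hm i).2.2 ()
    obtain ⟨a1, a2⟩ := KRec_cut (hP.star_eq v) (hP.mul_self v) hc (hm i).1 (hm i).2.1
    refine ⟨a1, a2, ?_⟩
    intro u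
    by_cases huv : u = v
    · subst huv
      have b1 : P u * (ζ i * P u) = ζ i * P u := by
        rw [← mul_assoc, hc, mul_assoc, hP.mul_self]
      have b2 : ζ i * P u * P u = ζ i * P u := by rw [mul_assoc, hP.mul_self]
      rw [mul_add, add_mul, b1, b2, mul_sub, sub_mul, mul_one, one_mul]
    · have o1 := hP.orth u v huv
      have o2 := hP.orth v u (fun e => huv e.symm)
      have b1 : P u * (ζ i * P v) = 0 := by
        rw [← hc, ← mul_assoc, o1, zero_mul]
      have b2 : ζ i * P v * P u = 0 := by rw [mul_assoc, o2, mul_zero]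
      rw [mul_add, add_mul, b1, b2, mul_sub, sub_mul, mul_one, one_mul, o1, o2]
  · intro i hi
    exact KRec_cutd (hP.norm_le v) (hd i hi)

theorem ch_res {x : B} (hx : Ch P x) (v : V) : Ch (fun _ : Unit => P v) x := by
  intro δ hδ
  obtain ⟨n, ζ, h0, hn', hm, hd⟩ := hx δ hδ
  exact ⟨n, ζ, h0, hn', fun i => ⟨(hm i).1, (hm i).2.1, fun _ => (hm i).2.2 v⟩, hd⟩

end Pool.Agent.RIG
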