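import Pool.Agent.RIG.Tau
import Pool.Agent.RIG.Arg
import Pool.Agent.RIG.ExpL
import Pool.Agent.AUE.Bas

/-!
# LiftP: a chain with trivial evaluation

PROOF of `lift_path`. Let `δ' = min (δ / 3) 1`, and `N, ξ` a chain for `w` with step `δ'` (`Ch`), `ξ i` unitary
commuting with `p`. `ξ₁ i = ξ i * p + (1 - p)`: unitary, `ξ₁ i * (1 - p) = 1 - p = (1 - p) * ξ₁ i`, commutes with `p`,
`ξ₁ 0 = 1`, `ξ₁ N = w * p + w * (1 - p) = w`, steps `≤ δ'` (`‖p‖ ≤ 1`). `g i = χ (ξ₁ i)`: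
`star (g i) * g i = χ (star (ξ₁ i)) χ (ξ₁ i) = χ (star (ξ₁ i) * p * ξ₁ i) = χ (p) = 1`, so `‖g i t‖ = 1`;
`g 0 = χ 1 = 1`, `‖g (i+1) - g i‖ ≤ δ'`. `exists_log` gives `h i`. Let `hC i : C(Circle, ℂ)` be `h i` viewed as a
complex function, `a i = τ (hC i)` (`exists_tau`): `star (a i) = a i`, `p a = a = a p`, `χ (a i) = hC i`. Let
`ζ i = ξ₁ i * exp (I • (- a i))` for `i ≤ N` and `ζ i = ζ N` for `i > N`.
Unitary (`exp_I_unitary`), `ζ i * (1 - p) = 1 - p` (`exp_q`). `χ (ζ i)`: `ζ i = ξ₁ i * p * exp + (1 - p)` (`exp_q`),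
`χ (1 - p) = 0`, so `χ (ζ i) t = g i t * exp (- I * h i t) = 1` (`chi_exp`). `ζ 0 = 1` (`h 0 = 0`, `exp 0 = 1`).
At `N`: `g N = χ w = 1`, so `h N = 2 π m` is constant (`const_log`), `a N = τ ((2 π m) • 1) = (2 π m) • p`,
`exp (I • (- a N)) = exp ((2 π (-m) I) • p) = 1` (`exp_two_pi`), `ζ N = w`.
Steps: `‖ζ (i+1) - ζ i‖ ≤ ‖ξ₁ (i+1) - ξ₁ i‖ + ‖exp (I • (-a (i+1))) - exp (I • (-a i))‖ ≤ δ' + ‖a (i+1) - a i‖ ≤
δ' + ‖hC (i+1) - hC i‖ ≤ 3 δ'` (`norm_exp_sub_le`).
-/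

namespace Pool.Agent.RIG

open Pool.Agent.AUE Pool.Agent.GHT

theorem LiftP_q {B : Type} [CStarAlgebra B] {p ξ : B} (hp : p * p = p) :
    (ξ * p + (1 - p)) * (1 - p) = 1 - p := by
  have h1 : ξ * p * (1 - p) = 0 := by rw [mul_sub, mul_one, mul_assoc, hp, sub_self]
  have h2 : (1 - p) * (1 - p) = 1 - p := by
    rw [mul_sub, mul_one, sub_mul, one_mul, hp, sub_self, sub_zero]
  rw [add_mul, h1, h2, zero_add]

theorem LiftP_q' {B : Type} [CStarAlgebra B] {p ξ : B} (hp : p * p = p) (hc : p * ξ = ξ * p) :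
    (1 - p) * (ξ * p + (1 - p)) = 1 - p := by
  have h1 : (1 - p) * (ξ * p) = 0 := by
    rw [sub_mul, one_mul, ← mul_assoc, hc, mul_assoc, hp, sub_self]
  have h2 : (1 - p) * (1 - p) = 1 - p := by
    rw [mul_sub, mul_one, sub_mul, one_mul, hp, sub_self, sub_zero]
  rw [mul_add, h1, h2, zero_add]

/-- cutting a unitary down to the corner of `p` -/
theorem LiftP_u {B : Type} [CStarAlgebra B] {p ξ : B} (hs : star p = p) (hp : p * p = p) (hc : p * ξ = ξ * p)
    (h1 : star ξ * ξ = 1) (h2 : ξ * star ξ = 1) :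
    star (ξ * p + (1 - p)) * (ξ * p + (1 - p)) = 1 ∧ (ξ * p + (1 - p)) * star (ξ * p + (1 - p)) = 1 := by
  have hc' : star ξ * p = p * star ξ := by
    have h := congrArg star hc
    rw [StarMul.star_mul, StarMul.star_mul, hs] at h
    exact h
  have e1 : star (ξ * p + (1 - p)) = p * star ξ + (1 - p) := by
    rw [star_add, StarMul.star_mul, star_sub, star_one, hs]
  have hpq : p * (1 - p) = 0 := by rw [mul_sub, mul_one, hp, sub_self]
  have hqp : (1 - p) * p = 0 := by rw [sub_mul, one_mul, hp, sub_self]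
  have hqq : (1 - p) * (1 - p) = 1 - p := by rw [mul_sub, hqp, sub_zero, mul_one]
  rw [e1]
  constructor
  · have a1 : p * star ξ * (ξ * p) = p := by
      rw [mul_assoc, ← mul_assoc (star ξ), h1, one_mul, hp]
    have a2 : p * star ξ * (1 - p) = 0 := by rw [← hc', mul_assoc, hpq, mul_zero]
    have a3 : (1 - p) * (ξ * p) = 0 := by rw [← hc, ← mul_assoc, hqp, zero_mul]
    rw [add_mul, mul_add, mul_add, a1, a2, a3, hqq]
    abel
  · have a1 : ξ * p * (p * star ξ) = p := by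
      rw [mul_assoc, ← mul_assoc p, hp, ← mul_assoc, ← hc, mul_assoc, h2, mul_one]
    have a2 : ξ * p * (1 - p) = 0 := by rw [mul_assoc, hpq, mul_zero]
    have a3 : (1 - p) * (p * star ξ) = 0 := by rw [← mul_assoc, hqp, zero_mul]
    rw [add_mul, mul_add, mul_add, a1, a2, a3, hqq]
    abel

theorem LiftP_norm_p {B : Type} [CStarAlgebra B] {p : B} (hs : star p = p) (hp : p * p = p) : ‖p‖ ≤ 1 := by
  have h1 : ‖p‖ * ‖p‖ = ‖p‖ := by
    rw [← CStarRing.norm_star_mul_self, hs, hp]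
  nlinarith [norm_nonneg p]

/-- real functions as complex functions -/
noncomputable def LiftP_c (h : C(Circle, ℝ)) : C(Circle, ℂ) := ⟨fun t => (h t : ℂ), by fun_prop⟩

theorem LiftP_c_norm (h h' : C(Circle, ℝ)) : ‖LiftP_c h - LiftP_c h'‖ ≤ ‖h - h'‖ := by
  rw [ContinuousMap.norm_le _ (norm_nonneg _)]
  intro t
  have h1 : (LiftP_c h - LiftP_c h') t = (((h - h') t : ℝ) : ℂ) := by
    show (h t : ℂ) - (h' t : ℂ) = ((h t - h' t : ℝ) : ℂ)
    push_cast
    rfl
  rw [h1, Complex.norm_real]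
  exact (h - h').norm_coe_le_norm t

theorem LiftP_c_star (h : C(Circle, ℝ)) : star (LiftP_c h) = LiftP_c h := by
  ext t
  show (starRingEnd ℂ) (h t : ℂ) = (h t : ℂ)
  exact Complex.conj_ofReal _

theorem LiftP_mul_norm {B : Type} [CStarAlgebra B] {a b c d : B} (ha : star a * a = 1) (hd : star d * d = 1) :
    ‖c * d - a * b‖ ≤ ‖c - a‖ + ‖d - b‖ := by
  have hone : ‖(1 : B)‖ ≤ 1 := by
    have h1 : ‖(1 : B)‖ * ‖(1 : B)‖ = ‖(1 : B)‖ := by
      rw [← CStarRing.norm_star_mul_self, star_one, one_mul]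
    nlinarith [norm_nonneg (1 : B)]
  have hu : ∀ u : B, star u * u = 1 → ‖u‖ ≤ 1 := by
    intro u hu
    have h3 : ‖u‖ * ‖u‖ = ‖(1 : B)‖ := by
      rw [← CStarRing.norm_star_mul_self, hu]
    nlinarith [norm_nonneg u]
  have e : c * d - a * b = (c - a) * d + a * (d - b) := by
    rw [sub_mul, mul_sub]
    abel
  rw [e]
  refine (norm_add_le _ _).trans (add_le_add ?_ ?_)
  · exact (norm_mul_le _ _).trans (mul_le_of_le_one_right (norm_nonneg _) (hu d hd))
  · exact (norm_mul_le _ _).trans (mul_le_of_le_one_left (norm_nonneg _) (hu a ha))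

theorem lift_path {B : Type} [CStarAlgebra B] {p T : B} (E : Ev p T) {w : B}
    (hw : Ch (fun _ : Unit => p) w) (hw1 : w * (1 - p) = 1 - p) (hχ : E.χ w = 1) {δ : ℝ}
    (hδ : 0 < δ) :
    ∃ (N : ℕ) (ζ : ℕ → B), ζ 0 = 1 ∧ ζ N = w ∧
      (∀ i, star (ζ i) * ζ i = 1 ∧ ζ i * star (ζ i) = 1 ∧ ζ i * (1 - p) = 1 - p ∧
        E.χ (ζ i) = 1) ∧ ∀ i < N, ‖ζ (i + 1) - ζ i‖ ≤ δ := by
  have hs := E.star_p
  have hp := E.p_mul
  set δ' : ℝ := min (δ / 3) 1 with hδ'
  have hδ0 : 0 < δ' := lt_min (by linarith) one_pos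
  have hδ1 : δ' ≤ 1 := min_le_right _ _
  have hδ3 : 3 * δ' ≤ δ := by
    have := min_le_left (δ / 3) 1
    linarith
  obtain ⟨N, ξ, x0, xN, xu, xs⟩ := hw δ' hδ0
  have hcomm : ∀ i, p * ξ i = ξ i * p := fun i => (xu i).2.2 ()
  set ξ₁ : ℕ → B := fun i => ξ i * p + (1 - p) with hξ₁
  have u1 : ∀ i, star (ξ₁ i) * ξ₁ i = 1 ∧ ξ₁ i * star (ξ₁ i) = 1 := fun i =>
    LiftP_u hs hp (hcomm i) (xu i).1 (xu i).2.1
  have q1 : ∀ i, ξ₁ i * (1 - p) = 1 - p := fun i => LiftP_q hp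
  have z1 : ξ₁ 0 = 1 := by
    show ξ 0 * p + (1 - p) = 1
    rw [x0, one_mul]
    abel
  have zN : ξ₁ N = w := by
    show ξ N * p + (1 - p) = w
    rw [xN, ← hw1, ← mul_add]
    have : p + (1 - p) = 1 := by abel
    rw [this, mul_one]
  have s1 : ∀ i < N, ‖ξ₁ (i + 1) - ξ₁ i‖ ≤ δ' := by
    intro i hi
    have e : ξ₁ (i + 1) - ξ₁ i = (ξ (i + 1) - ξ i) * p := by
      show ξ (i + 1) * p + (1 - p) - (ξ i * p + (1 - p)) = (ξ (i + 1) - ξ i) * p
      rw [sub_mul]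
      abel
    rw [e]
    refine (norm_mul_le _ _).trans ?_
    exact (mul_le_of_le_one_right (norm_nonneg _) (LiftP_norm_p hs hp)).trans (xs i hi)
  set g : ℕ → C(Circle, ℂ) := fun i => E.χ (ξ₁ i) with hg
  have hχq : E.χ (1 - p) = 0 := by
    have h := E.map_mul 1 (1 - p)
    have e : (1 : B) * p * (1 - p) = 0 := by rw [one_mul, mul_sub, mul_one, hp, sub_self]
    rw [e, map_zero] at h
    have h1 : E.χ 1 = 1 := by
      have h2 := E.map_mul 1 p
      rw [one_mul, hp, E.map_p, mul_one] at h2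
      exact h2.symm
    rw [h1, one_mul] at h
    exact h.symm
  have hχ1 : E.χ 1 = 1 := by
    have h2 := E.map_mul 1 p
    rw [one_mul, hp, E.map_p, mul_one] at h2
    exact h2.symm
  have g0 : g 0 = 1 := by
    show E.χ (ξ₁ 0) = 1
    rw [z1, hχ1]
  have gN : g N = 1 := by
    show E.χ (ξ₁ N) = 1
    rw [zN, hχ]
  have gu : ∀ i t, ‖g i t‖ = 1 := by
    intro i t
    have hc1 : p * ξ₁ i = ξ₁ i * p := by
      show p * (ξ i * p + (1 - p)) = (ξ i * p + (1 - p)) * p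
      rw [mul_add, add_mul, ← mul_assoc, hcomm, mul_sub, sub_mul, one_mul, mul_one, mul_assoc]
    have h1 : star (g i) * g i = 1 := by
      show star (E.χ (ξ₁ i)) * E.χ (ξ₁ i) = 1
      rw [← E.map_star, ← E.map_mul, mul_assoc, hc1, ← mul_assoc, (u1 i).1, one_mul, E.map_p]
    have h2 : (starRingEnd ℂ) (g i t) * g i t = 1 := congrArg (fun f : C(Circle, ℂ) => f t) h1
    have h3 : ‖g i t‖ * ‖g i t‖ = 1 := by
      have := congrArg norm h2
      rw [norm_mul, RCLike.norm_conj, norm_one] at this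
      exact this
    nlinarith [norm_nonneg (g i t)]
  have gs : ∀ i < N, ‖g (i + 1) - g i‖ ≤ δ' := by
    intro i hi
    have e : g (i + 1) - g i = E.χ (ξ₁ (i + 1) - ξ₁ i) := by
      rw [map_sub]
    rw [e]
    exact (E.norm_le _).trans (s1 i hi)
  obtain ⟨h, hh0, hh1, hh2⟩ := exists_log g g0 gu hδ1 gs
  obtain ⟨τ, τn, τs, τ1, τl, τr, τχ, -⟩ := exists_tau E
  set a : ℕ → B := fun i => τ (LiftP_c (h i)) with ha
  have as : ∀ i, star (a i) = a i := by
    intro i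
    show star (τ (LiftP_c (h i))) = τ (LiftP_c (h i))
    rw [← τs, LiftP_c_star]
  have ap : ∀ i, p * a i = a i := fun i => τl _
  have pa : ∀ i, a i * p = a i := fun i => τr _
  have aχ : ∀ i, E.χ (a i) = LiftP_c (h i) := fun i => τχ _
  set x : ℕ → B := fun i => NormedSpace.exp (Complex.I • (-a i)) with hx
  have asn : ∀ i, star (-a i) = -a i := fun i => by rw [star_neg, as]
  have xu' : ∀ i, star (x i) * x i = 1 ∧ x i * star (x i) = 1 := fun i => exp_I_unitary (asn i)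
  have apn : ∀ i, p * (-a i) = -a i := fun i => by rw [mul_neg, ap]
  have pan : ∀ i, (-a i) * p = -a i := fun i => by rw [neg_mul, pa]
  have xq : ∀ i, x i * (1 - p) = 1 - p := fun i => (exp_q (apn i) (pan i) _).1
  set ζ : ℕ → B := fun i => ξ₁ (min i N) * x (min i N) with hζ
  have ζu : ∀ i, star (ζ i) * ζ i = 1 ∧ ζ i * star (ζ i) = 1 := by
    intro i
    have k1 := u1 (min i N)
    have k2 := xu' (min i N)
    constructor
    · show star (ξ₁ (min i N) * x (min i N)) * (ξ₁ (min i N) * x (min i N)) = 1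
      rw [StarMul.star_mul, mul_assoc, ← mul_assoc (star (ξ₁ _)), k1.1, one_mul, k2.1]
    · show (ξ₁ (min i N) * x (min i N)) * star (ξ₁ (min i N) * x (min i N)) = 1
      rw [StarMul.star_mul, mul_assoc, ← mul_assoc (x _), k2.2, one_mul, k1.2]
  have ζq : ∀ i, ζ i * (1 - p) = 1 - p := by
    intro i
    show ξ₁ (min i N) * x (min i N) * (1 - p) = 1 - p
    rw [mul_assoc, xq, q1]
  have ζχ : ∀ i, E.χ (ζ i) = 1 := by
    intro i
    set k := min i N with hk
    have hkN : k ≤ N := min_le_right _ _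
    have e1 : ζ i = ξ₁ k * p * x k + (1 - p) := by
      show ξ₁ k * x k = ξ₁ k * p * x k + (1 - p)
      have e2 : (1 - p) * x k = 1 - p := (exp_q (apn k) (pan k) _).2
      have e3 : ξ₁ k * (1 - p) * x k = 1 - p := by rw [q1, e2]
      have e4 : ξ₁ k * x k = ξ₁ k * p * x k + ξ₁ k * (1 - p) * x k := by
        rw [← add_mul, ← mul_add]
        have : p + (1 - p) = 1 := by abel
        rw [this, mul_one]
      rw [e4, e3]
    rw [e1, map_add, hχq, add_zero, E.map_mul]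
    ext t
    have h2 : E.χ (x k) t = Complex.exp (Complex.I * E.χ (-a k) t) := chi_exp E (apn k) (pan k) _ t
    have h3 : E.χ (-a k) t = -(h k t : ℂ) := by
      rw [map_neg, aχ]
      rfl
    show g k t * E.χ (x k) t = 1
    rw [h2, h3, ← hh1 k hkN t, ← Complex.exp_add]
    have : Complex.I * (h k t : ℂ) + Complex.I * -(h k t : ℂ) = 0 := by ring
    rw [this, Complex.exp_zero]
  refine ⟨N, ζ, ?_, ?_, fun i => ⟨(ζu i).1, (ζu i).2, ζq i, ζχ i⟩, ?_⟩
  · show ξ₁ (min 0 N) * x (min 0 N) = 1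
    rw [Nat.zero_min, z1, one_mul]
    show NormedSpace.exp (Complex.I • (-a 0)) = 1
    have e : a 0 = 0 := by
      show τ (LiftP_c (h 0)) = 0
      have e1 : LiftP_c (h 0) = 0 := by
        rw [hh0]
        ext t
        simp [LiftP_c]
      rw [e1, map_zero]
    rw [e, neg_zero, smul_zero, NormedSpace.exp_zero]
  · show ξ₁ (min N N) * x (min N N) = w
    rw [min_self, zN]
    have e0 : ∀ t, Complex.exp (Complex.I * (h N t : ℂ)) = 1 := by
      intro t
      rw [hh1 N le_rfl t, gN]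
      rfl
    obtain ⟨m, hm⟩ := const_log (h N) e0
    have e1 : LiftP_c (h N) = ((2 * Real.pi * m : ℝ) : ℂ) • (1 : C(Circle, ℂ)) := by
      ext t
      show ((h N t : ℝ) : ℂ) = ((2 * Real.pi * m : ℝ) : ℂ) * 1
      rw [hm, mul_one]
    have e2 : a N = ((2 * Real.pi * m : ℝ) : ℂ) • p := by
      show τ (LiftP_c (h N)) = _
      rw [e1, map_smul, τ1]
    have e3 : Complex.I • (-a N) = (((2 * Real.pi * (-m : ℤ) : ℝ) : ℂ) * Complex.I) • p := by
      rw [e2, ← neg_smul, smul_smul]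
      congr 1
      push_cast
      ring
    have e4 : x N = 1 := by
      show NormedSpace.exp (Complex.I • (-a N)) = 1
      rw [e3]
      exact exp_two_pi hp (-m)
    rw [e4, mul_one]
  · intro i hi
    show ‖ξ₁ (min (i + 1) N) * x (min (i + 1) N) - ξ₁ (min i N) * x (min i N)‖ ≤ δ
    rw [min_eq_left (Nat.succ_le_of_lt hi), min_eq_left hi.le]
    refine (LiftP_mul_norm (u1 i).1 (xu' (i + 1)).1).trans ?_
    have k1 := s1 i hi
    have k2 : ‖x (i + 1) - x i‖ ≤ ‖(-a (i + 1)) - (-a i)‖ := norm_exp_sub_le (asn _) (asn _)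
    have k3 : ‖(-a (i + 1)) - (-a i)‖ ≤ 2 * δ' := by
      have e : (-a (i + 1)) - (-a i) = -(τ (LiftP_c (h (i + 1)) - LiftP_c (h i))) := by
        rw [map_sub]
        show -a (i + 1) - -a i = -(a (i + 1) - a i)
        abel
      rw [e, norm_neg]
      exact ((τn _).trans (LiftP_c_norm _ _)).trans (hh2 i hi)
    linarith

end Pool.Agent.RIG
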