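import Pool.Agent.RIG.DefL
import Pool.Agent.AUE.Split

/-!
# LocU: solutions on a union, solutions from `Sol`

PROOF of `solY_union`. Given `ε`: `W₁` from `h1` with `ε`; `c₁ = star W₁ * c * th W₁` (`Ch P c₁`); `W₂` from
`h2 W₁` with `ε`. `W = W₁ * W₂`: `star W * c * th W = star W₂ * c₁ * th W₂` (`th_mul`). For `v ∈ C`: clear. For
`v ∈ Y`: all edges `e` with `s e = v` have `r e ∈ Y`, so `r e ∉ C` and `W₂ * P (r e) = P (r e)`,
`S_e * W₂ * star (S_e) = S_e * (W₂ * P (r e)) * star (S_e) = S_e star (S_e)` (`S_P`; `W₂` commutes with `P`). So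
`th W₂ * P v = P v` (`lam x * P v = ∑_{s e = v} S_e x S_e*`, since `star (S_e) * P v = 0` for `s e ≠ v`).
`star W₂ * P v = P v` (from `W₂ * P v = P v` and unitarity), so
`(star W₂ * c₁ * th W₂ - 1) * P v = star W₂ * c₁ * P v - P v = (star W₂ * P v) * c₁ - P v = (c₁ - 1) * P v`.

PROOF of `loc_of_sol`. Let `G_C = G.restrict …`, `F_C : Fam G_C P`, `S e = F.S e.1`, `th_C = F_C.th`. `h` for
`F_C`, `c`, `ε` gives `U`. Let `p = ∑_{v ∈ C} P v` (classical `Finset.univ.filter`), `W = U * p + (1 - p)`; `Ch P W`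
(apply `x ↦ x p + (1 - p)` to the chain; `p` commutes with the members and is a projection, `‖p‖ ≤ 1`).
`W * P v = U * P v` for `v ∈ C`, `= P v` for `v ∉ C`. For `v ∈ C`: `th W * P v = ∑_{s e = v} S_e W S_e* +
(P v - ∑_{s e = v} S_e S_e* )`; for `r e ∈ C` the term is `S_e U S_e*`, for `r e ∉ C` it is `S_e S_e*`. So
`th W * P v = th_C U * P v` (the edges `e` with `s e = v`, `r e ∈ C` are those of `G_C` with source `v`). Hence
`star W * c * th W * P v = star W * P v * c * th_C U = star U * P v * c * th_C U = star U * c * th_C U * P v`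
(`star W * P v = star (P v * W) = star (P v * U)`), so the norm is at most `‖star U * c * th_C U - 1‖`.
-/

namespace Pool.Agent.RIG

open Pool.Agent.AUE Pool.Agent.GHT

variable {V : Type} {G : Gr V} {B : Type} [CStarAlgebra B] {P : V → B}

theorem LocU_th (F : Fam G P) (x : B) :
    F.th x = 1 + ∑ e, F.S e * (x - 1) * star (F.S e) := by
  have h : ∑ e, F.S e * (x - 1) * star (F.S e) = F.lam x - F.lam 1 := by
    unfold Fam.lam
    rw [← Finset.sum_sub_distrib]
    refine Finset.sum_congr rfl fun e _ => ?_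
    noncomm_ring
  rw [h]
  unfold Fam.th
  abel

/-- The restricted family. -/
noncomputable def LocU_F (F : Fam G P) (Q : G.Ed → Prop) : Fam (G.restrict Q) P where
  S := fun e => F.S e.1
  star_mul := fun e => F.star_mul e.1
  orth := fun e f h => F.orth e.1 f.1 (fun h' => h (Subtype.ext h'))
  P_mul := fun e => F.P_mul e.1

open scoped Classical in
theorem LocU_thF (F : Fam G P) (Q : G.Ed → Prop) (x : B) :
    (LocU_F F Q).th x = 1 + ∑ e, if Q e then F.S e * (x - 1) * star (F.S e) else 0 := by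
  rw [LocU_th, ← Finset.sum_filter]
  congr 1
  exact (Finset.sum_subtype (Finset.univ.filter Q) (by simp)
    (fun e => F.S e * (x - 1) * star (F.S e))).symm

theorem LocU_mem {z q : B} (hz : z ∈ UD P)
    (hq : star q = q) (hqq : q * q = q) (hPq : ∀ v, P v * q = q * P v) (hzq : z * q = q * z) :
    z * q + (1 - q) ∈ UD P := by
  obtain ⟨h1, h2, h3⟩ := hz
  have h4 : q * star z = star z * q := by
    have := congrArg star hzq
    simpa [star_mul, hq] using this
  have hs : star (z * q + (1 - q)) = star z * q + (1 - q) := by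
    rw [star_add, star_mul, star_sub, star_one, hq, h4]
  refine ⟨?_, ?_, fun v => ?_⟩
  · rw [hs]
    calc (star z * q + (1 - q)) * (z * q + (1 - q))
        = star z * (q * z) * q + star z * (q - q * q) + (q * q - q) * 0 + ((1 - q) * (z * q) +
            (1 - q - q + q * q)) := by noncomm_ring
      _ = 1 := by
          rw [← hzq, hqq, show (1 - q) * (z * q) = 0 by
            rw [sub_mul, one_mul, hzq, ← mul_assoc, hqq, sub_self]]
          calc star z * (z * q) * q + star z * (q - q) + (q - q) * 0 + (0 + (1 - q - q + q))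
              = (star z * z) * (q * q) + (1 - q) := by noncomm_ring
            _ = 1 := by rw [h1, hqq, one_mul]; abel
  · rw [hs]
    calc (z * q + (1 - q)) * (star z * q + (1 - q))
        = z * (q * star z) * q + z * (q - q * q) + ((1 - q) * (star z * q) +
            (1 - q - q + q * q)) := by noncomm_ring
      _ = 1 := by
          rw [h4, hqq, show (1 - q) * (star z * q) = 0 by
            rw [sub_mul, one_mul, ← h4, ← mul_assoc, hqq, sub_self]]
          calc z * (star z * q) * q + z * (q - q) + (0 + (1 - q - q + q))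
              = (z * star z) * (q * q) + (1 - q) := by noncomm_ring
            _ = 1 := by rw [h2, hqq, one_mul]; abel
  · rw [mul_add, add_mul, mul_sub, sub_mul, mul_one, one_mul, ← mul_assoc, h3, mul_assoc, hPq,
      mul_assoc]

theorem LocU_norm_le {q : B} (hq : star q = q) (hqq : q * q = q) :
    ‖q‖ ≤ 1 := by
  have h : IsPrj (fun _ : Unit => q) :=
    ⟨fun _ => hq, fun _ => hqq, fun v w hvw => absurd (Subsingleton.elim v w) hvw⟩
  exact h.norm_le ()

/-- Cutting with a projection commuting with everything commuting with the `P v`. -/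
theorem LocU_Ch {q y : B} (hq : star q = q)
    (hqq : q * q = q) (hPq : ∀ v, P v * q = q * P v)
    (hc : ∀ y, (∀ v, P v * y = y * P v) → y * q = q * y) (hy : Ch P y) :
    Ch P (y * q + (1 - q)) := by
  intro δ hδ
  obtain ⟨n, ζ, h0, hn, hU, hs⟩ := hy δ hδ
  refine ⟨n, fun j => ζ j * q + (1 - q), ?_, ?_, fun j => ?_, fun j hj => ?_⟩
  · change ζ 0 * q + (1 - q) = 1
    rw [h0, one_mul]
    abel
  · change ζ n * q + (1 - q) = _
    rw [hn]
  · exact LocU_mem (hU j) hq hqq hPq (hc _ (hU j).2.2)
  · change ‖ζ (j + 1) * q + (1 - q) - (ζ j * q + (1 - q))‖ ≤ δ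
    have e : ζ (j + 1) * q + (1 - q) - (ζ j * q + (1 - q)) = (ζ (j + 1) - ζ j) * q := by
      rw [sub_mul]; abel
    rw [e]
    refine (norm_mul_le _ _).trans ?_
    calc ‖ζ (j + 1) - ζ j‖ * ‖q‖ ≤ δ * 1 :=
          mul_le_mul (hs j hj) (LocU_norm_le hq hqq) (norm_nonneg _) hδ.le
      _ = δ := mul_one δ

theorem LocU_starS_ne (hP : IsPrj P) (F : Fam G P) (e : G.Ed) {v : V} (h : v ≠ G.s e) :
    star (F.S e) * P v = 0 := by
  have h3 : P v * F.S e = 0 := F.P_S_ne hP e h
  have := congrArg star h3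
  rwa [star_mul, hP.star_eq, star_zero] at this

/-- If `x` is `1` on the ranges of all edges starting at `v`, then `th x` is `1` on `v`. -/
theorem LocU_th_P (hP : IsPrj P) (F : Fam G P) {x : B} (hx : ∀ w, P w * x = x * P w) (v : V)
    (h : ∀ e, G.s e = v → x * P (G.r e) = P (G.r e)) : F.th x * P v = P v := by
  rw [LocU_th, add_mul, one_mul, Finset.sum_mul, Finset.sum_eq_zero, add_zero]
  intro e _
  by_cases he : G.s e = v
  · have h3 : F.S e * (x - 1) = 0 := by
      rw [← F.S_P hP e, mul_assoc, mul_sub, hx, mul_one, h e he, sub_self, mul_zero]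
    rw [h3, zero_mul, zero_mul]
  · rw [mul_assoc, LocU_starS_ne hP F e (Ne.symm he), mul_zero]

theorem solY_union (hP : IsPrj P) (F : Fam G P) {c : B} (hc : Ch P c) {Y C : Set V}
    (hY : ∀ e, G.s e ∈ Y → G.r e ∈ Y) (hYC : ∀ v, v ∈ Y → v ∉ C) (h1 : SolY F c Y)
    (h2 : ∀ W, Ch P W → LocSol F (star W * c * F.th W) C) : SolY F c (Y ∪ C) := by
  intro ε hε
  obtain ⟨W1, hW1, h1ε⟩ := h1 ε hε
  obtain ⟨W2, hW2, hW2', h2ε⟩ := h2 W1 hW1 ε hε
  refine ⟨W1 * W2, hW1.mul hW2, ?_⟩
  have hth : F.th (W1 * W2) = F.th W1 * F.th W2 :=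
    (F.th_mul hP hW1.mem.2.2 hW2.mem.2.2).symm
  have hW : star (W1 * W2) * c * F.th (W1 * W2) =
      star W2 * (star W1 * c * F.th W1) * F.th W2 := by
    rw [hth, star_mul]
    simp only [mul_assoc]
  have hc1 : Ch P (star W1 * c * F.th W1) := ((hW1.star hP).mul hc).mul (Ch.th F hP hW1)
  rw [hW]
  obtain ⟨c1, hc1'⟩ : ∃ c1, c1 = star W1 * c * F.th W1 := ⟨_, rfl⟩
  rw [← hc1'] at hc1 h2ε ⊢
  rintro v (hv | hv)
  · have h3 : F.th W2 * P v = P v :=
      LocU_th_P hP F hW2.mem.2.2 v fun e he => hW2' _ (hYC _ (hY e (by rw [he]; exact hv)))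
    have h4 : star W2 * P v = P v := by
      have h5 := hW2' v (hYC v hv)
      calc star W2 * P v = star W2 * (W2 * P v) := by rw [h5]
        _ = P v := by rw [← mul_assoc, hW2.mem.1, one_mul]
    have h6 : (star W2 * c1 * F.th W2 - 1) * P v = (c1 - 1) * P v := by
      calc (star W2 * c1 * F.th W2 - 1) * P v
          = star W2 * c1 * (F.th W2 * P v) - P v := by
            rw [sub_mul, one_mul]; simp only [mul_assoc]
        _ = star W2 * (c1 * P v) - P v := by rw [h3, mul_assoc]
        _ = (star W2 * P v) * c1 - P v := by rw [← hc1.mem.2.2 v, mul_assoc]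
        _ = (c1 - 1) * P v := by rw [h4, hc1.mem.2.2 v, sub_mul, one_mul]
    rw [h6, hc1']
    exact h1ε v hv
  · exact h2ε v hv

theorem loc_of_sol [Fintype V] (hP : IsPrj P) (F : Fam G P) {c : B} (hc : Ch P c) (C : Set V)
    (h : Sol (G.restrict (fun e => G.s e ∈ C ∧ G.r e ∈ C))) : LocSol F c C := by
  classical
  intro ε hε
  obtain ⟨p, hp⟩ : ∃ p, p = ∑ v ∈ Finset.univ.filter (· ∈ C), P v := ⟨_, rfl⟩
  have hPp : ∀ v, P v * p = if v ∈ C then P v else 0 := by
    intro v
    rw [hp, Finset.mul_sum]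
    by_cases hv : v ∈ C
    · rw [if_pos hv, Finset.sum_eq_single_of_mem v (by simp [hv])
        (fun w _ hw => hP.orth v w (Ne.symm hw)), hP.mul_self]
    · rw [if_neg hv]
      refine Finset.sum_eq_zero fun w hw => hP.orth v w ?_
      rintro rfl
      exact hv (Finset.mem_filter.1 hw).2
  have hpP : ∀ v, p * P v = if v ∈ C then P v else 0 := by
    intro v
    rw [hp, Finset.sum_mul]
    by_cases hv : v ∈ C
    · rw [if_pos hv, Finset.sum_eq_single_of_mem v (by simp [hv])
        (fun w _ hw => hP.orth w v hw), hP.mul_self]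
    · rw [if_neg hv]
      refine Finset.sum_eq_zero fun w hw => hP.orth w v ?_
      rintro rfl
      exact hv (Finset.mem_filter.1 hw).2
  have hcomm : ∀ y, (∀ v, P v * y = y * P v) → y * p = p * y := by
    intro y hy
    rw [hp, Finset.mul_sum, Finset.sum_mul]
    exact Finset.sum_congr rfl fun v _ => (hy v).symm
  have hps : star p = p := by
    rw [hp, star_sum]
    exact Finset.sum_congr rfl fun v _ => hP.star_eq v
  have hpp : p * p = p := by
    conv_lhs => rw [hp, Finset.sum_mul]
    rw [hp, Finset.sum_congr rfl]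
    intro v hv
    rw [← hp, hPp, if_pos (Finset.mem_filter.1 hv).2]
  have hPq : ∀ v, P v * p = p * P v := fun v => by rw [hPp, hpP]
  obtain ⟨U, hU, hUε⟩ := h B P hP (LocU_F F _) c hc ε hε
  have hWc : Ch P (U * p + (1 - p)) := LocU_Ch hps hpp hPq hcomm hU
  have hUp : U * p = p * U := hcomm U hU.mem.2.2
  obtain ⟨W, hW⟩ : ∃ W, W = U * p + (1 - p) := ⟨_, rfl⟩
  rw [← hW] at hWc
  have hWC : ∀ v, v ∈ C → W * P v = U * P v := by
    intro v hv
    rw [hW, add_mul, mul_assoc, hpP, if_pos hv, sub_mul, one_mul, hpP, if_pos hv, sub_self,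
      add_zero]
  have hWN : ∀ v, v ∉ C → W * P v = P v := by
    intro v hv
    rw [hW, add_mul, mul_assoc, hpP, if_neg hv, sub_mul, one_mul, hpP, if_neg hv, sub_zero,
      mul_zero, zero_add]
  refine ⟨W, hWc, hWN, fun v hv => ?_⟩
  have hth : F.th W * P v =
      (LocU_F F (fun e => G.s e ∈ C ∧ G.r e ∈ C)).th U * P v := by
    rw [LocU_th, LocU_thF, add_mul, add_mul, Finset.sum_mul, Finset.sum_mul]
    congr 1
    refine Finset.sum_congr rfl fun e _ => ?_
    by_cases he : G.s e = v
    · by_cases he' : G.r e ∈ C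
      · have h3 : F.S e * (W - 1) = F.S e * (U - 1) := by
          have aux : ∀ x, F.S e * (x - 1) = F.S e * (P (G.r e) * x - P (G.r e)) := by
            intro x
            conv_lhs => rw [← F.S_P hP e]
            rw [mul_assoc, mul_sub, mul_one]
          rw [aux, aux, hWc.mem.2.2, hU.mem.2.2, hWC _ he']
        rw [if_pos ⟨by rw [he]; exact hv, he'⟩, h3]
      · have h3 : F.S e * (W - 1) = 0 := by
          rw [← F.S_P hP e, mul_assoc, mul_sub, hWc.mem.2.2, hWN _ he', mul_one, sub_self,
            mul_zero]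
        rw [if_neg (fun h => he' h.2), h3, zero_mul]
    · have h4 := LocU_starS_ne hP F e (Ne.symm he)
      rw [mul_assoc, h4, mul_zero]
      split_ifs
      · rw [mul_assoc, h4, mul_zero]
      · rw [zero_mul]
  have hstar : star W * P v = star U * P v := by
    have h3 : P v * W = P v * U := by rw [hWc.mem.2.2, hU.mem.2.2, hWC v hv]
    have := congrArg star h3
    rwa [star_mul, star_mul, hP.star_eq] at this
  set T := (LocU_F F (fun e => G.s e ∈ C ∧ G.r e ∈ C)).th U with hT
  have hTP : P v * T = T * P v :=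
    (LocU_F F (fun e => G.s e ∈ C ∧ G.r e ∈ C)).P_th hP U v
  have key : (star W * c * F.th W - 1) * P v = (star U * c * T - 1) * P v := by
    rw [sub_mul, sub_mul]
    congr 1
    calc star W * c * F.th W * P v = star W * c * (F.th W * P v) := by rw [mul_assoc]
      _ = star W * c * (P v * T) := by rw [hth, hTP]
      _ = star W * (c * P v) * T := by simp only [mul_assoc]
      _ = (star W * P v) * c * T := by rw [← hc.mem.2.2 v]; simp only [mul_assoc]
      _ = (star U * P v) * c * T := by rw [hstar]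
      _ = star U * (P v * c) * T := by simp only [mul_assoc]
      _ = star U * (c * P v) * T := by rw [hc.mem.2.2 v]
      _ = star U * c * (P v * T) := by simp only [mul_assoc]
      _ = star U * c * T * P v := by rw [hTP]; simp only [mul_assoc]
  rw [key]
  refine (norm_mul_le _ _).trans ?_
  calc ‖star U * c * T - 1‖ * ‖P v‖ ≤ ε * 1 :=
        mul_le_mul hUε (hP.norm_le v) (norm_nonneg _) hε.le
    _ = ε := mul_one ε

end Pool.Agent.RIG
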