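import Pool.Agent.RIG.Defs

/-!
# PwA: paths and powers of a path

PROOFS. `ip_append`: induction on `l`. `ip_end`: induction. `ip_lpow`: induction with `ip_append`.
`lpow_add`: induction. `lpow_length`: induction.

`prefix_or`: induction on `μ` (generalizing `ρ`): `μ = []`: `κ = ρ`. `μ = e :: μ'`, `ρ = f :: ρ'` (`ρ ≠ []` by the
length): if `e ≠ f` take `γ = []`; if `e = f` use induction and add `e` to the equation resp. to `γ`.
-/

namespace Pool.Agent.RIG

open Pool.Agent.AUE Pool.Agent.GHT

variable {G : DGraph}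

theorem ip_append {u w : G.V} {l l' : List G.E} :
    IsPath G u (l ++ l') w ↔ ∃ v, IsPath G u l v ∧ IsPath G v l' w := by
  induction l generalizing u with
  | nil =>
    simp [IsPath]
  | cons e l ih =>
    constructor
    · intro h
      obtain ⟨h1, h2⟩ := h
      obtain ⟨v, h3, h4⟩ := ih.1 h2
      exact ⟨v, ⟨h1, h3⟩, h4⟩
    · rintro ⟨v, ⟨h1, h2⟩, h3⟩
      exact ⟨h1, ih.2 ⟨v, h2, h3⟩⟩

theorem ip_end {u w w' : G.V} {l : List G.E} (h : IsPath G u l w) (h' : IsPath G u l w') :
    w = w' := by
  induction l generalizing u with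
  | nil =>
    have h1 : u = w := h
    have h2 : u = w' := h'
    rw [← h1, ← h2]
  | cons e l ih => exact ih h.2 h'.2

theorem lpow_add {α : Type} (l : List α) (a b : ℕ) : lpow l (a + b) = lpow l a ++ lpow l b := by
  induction a with
  | zero => simp [lpow]
  | succ a ih =>
    have h : a + 1 + b = (a + b) + 1 := by omega
    rw [h]
    show l ++ lpow l (a + b) = (l ++ lpow l a) ++ lpow l b
    rw [ih, List.append_assoc]

theorem lpow_length {α : Type} (l : List α) (k : ℕ) : (lpow l k).length = k * l.length := by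
  induction k with
  | zero => simp [lpow]
  | succ k ih =>
    show (l ++ lpow l k).length = (k + 1) * l.length
    rw [List.length_append, ih]
    ring

theorem mem_lpow {α : Type} {l : List α} {k : ℕ} {a : α} (h : a ∈ lpow l k) : a ∈ l := by
  induction k with
  | zero => exact absurd h (by simp [lpow])
  | succ k ih =>
    have h1 : a ∈ l ++ lpow l k := h
    rcases List.mem_append.1 h1 with h2 | h2
    · exact h2
    · exact ih h2

theorem ip_lpow {v : G.V} {l : List G.E} (h : IsPath G v l v) (k : ℕ) :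
    IsPath G v (lpow l k) v := by
  induction k with
  | zero => exact rfl
  | succ k ih => exact ip_append.2 ⟨v, h, ih⟩

theorem prefix_or {α : Type} {μ ρ : List α} (h : μ.length ≤ ρ.length) :
    (∃ κ, ρ = μ ++ κ) ∨ ∃ (γ : List α) (e f : α) (μ' ρ' : List α), e ≠ f ∧ μ = γ ++ e :: μ' ∧
      ρ = γ ++ f :: ρ' := by
  induction μ generalizing ρ with
  | nil => exact Or.inl ⟨ρ, rfl⟩
  | cons e μ ih =>
    cases ρ with
    | nil => simp at h
    | cons f ρ =>
      by_cases hef : e = f
      · subst hef
        rcases ih (ρ := ρ) (by simpa using h) with ⟨κ, hκ⟩ | ⟨γ, e', f', μ', ρ', h1, h2, h3⟩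
        · exact Or.inl ⟨κ, by rw [hκ]; rfl⟩
        · refine Or.inr ⟨e :: γ, e', f', μ', ρ', h1, ?_, ?_⟩
          · rw [h2]; rfl
          · rw [h3]; rfl
      · exact Or.inr ⟨[], e, f, μ, ρ, hef, rfl, rfl⟩

end Pool.Agent.RIG
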