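import Pool.Agent.RIG.PwA

/-!
# PwB: the only return path

PROOFS. `only_closed`: strong induction on the length of `μ`. `μ = []`: `k = 0`. Otherwise let `n ≥ 1` be minimal such
that `IsPath G v (μ.take n) v` (`n = μ.length` is possible). `μ₁ = μ.take n` is a return path (if
`μ₁ = l₁ ++ l₂`, `l₁, l₂ ≠ []`, `IsPath G v l₁ v` then `l₁ = μ.take l₁.length` contradicts the minimality), so
`μ₁ = l`; `μ = l ++ μ.drop n`, `IsPath G v (μ.drop n) v` (`ip_append`, `ip_end`), by induction `μ.drop n =
lpow l k`, `μ = lpow l (k + 1)`.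

`only_nodup`: otherwise `l = α ++ e :: β ++ f :: γ` with `s e = s f`; `α ++ f :: γ` is a nonempty closed path at
`v` (`ip_append`), so it is `lpow l k` (`only_closed`), `k ≥ 1`, but it is shorter than `l` (`lpow_length`).

`only_out`: let `u = s e` with `e ∈ l`, `μ` a path from `u` to `v`, `μ ≠ []`. Then the first edge of `μ` is `e`:
`l = α ++ e :: β`; `α ++ μ` is a closed path at `v`, so equal to `lpow l k`, `k ≥ 1`, `= l ++ …`; comparing
(`α ++ μ = α ++ e :: (β ++ …)`), `μ` starts with `e`.

`only_mem`: `μ ++ ν` is a closed path at `v`, so equal to `lpow l k`; `mem_lpow`.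
-/

namespace Pool.Agent.RIG

open Pool.Agent.AUE Pool.Agent.GHT

variable {G : DGraph}

theorem PwB_split {u w : G.V} {l : List G.E} (h : IsPath G u l w) (i : ℕ) (hi : i < l.length) :
    IsPath G u (l.take i) (G.s l[i]) ∧ IsPath G (G.s l[i]) (l.drop i) w := by
  have h1 : IsPath G u (l.take i ++ l.drop i) w := by rw [List.take_append_drop]; exact h
  obtain ⟨v, hv1, hv2⟩ := ip_append.1 h1
  have h3 : G.s l[i] = v := by
    have h4 := hv2
    rw [List.drop_eq_getElem_cons hi] at h4
    exact h4.1
  rw [h3]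
  exact ⟨hv1, hv2⟩

theorem only_closed {v : G.V} {l : List G.E} (h : OnlyReturn G v l) {μ : List G.E}
    (hμ : IsPath G v μ v) : ∃ k, μ = lpow l k := by
  induction hn : μ.length using Nat.strong_induction_on generalizing μ with
  | _ N ih =>
  by_cases h0 : μ = []
  · exact ⟨0, by rw [h0]; rfl⟩
  have hex : ∃ n, 1 ≤ n ∧ IsPath G v (μ.take n) v :=
    ⟨μ.length, List.length_pos_of_ne_nil h0, by rw [List.take_length]; exact hμ⟩
  classical
  obtain ⟨n, ⟨hn1, hn2⟩, hmin⟩ : ∃ n, (1 ≤ n ∧ IsPath G v (μ.take n) v) ∧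
      ∀ m, m < n → ¬ (1 ≤ m ∧ IsPath G v (μ.take m) v) :=
    ⟨Nat.find hex, Nat.find_spec hex, fun m hm => Nat.find_min hex hm⟩
  have hret : IsReturn G v (μ.take n) := by
    refine ⟨?_, hn2, ?_⟩
    · intro h1
      have h2 := congrArg List.length h1
      rw [List.length_take, List.length_nil] at h2
      have h3 := List.length_pos_of_ne_nil h0
      omega
    · intro l₁ l₂ h12 h1 h2 h3
      have hl1 := List.length_pos_of_ne_nil h1
      have hl2 := List.length_pos_of_ne_nil h2
      have h4 := congrArg List.length h12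
      rw [List.length_take, List.length_append] at h4
      have h5 : l₁ = μ.take l₁.length := by
        have h6 : l₁ = (μ.take n).take l₁.length := by rw [h12, List.take_left']; rfl
        rw [List.take_take, Nat.min_eq_left (by omega)] at h6
        exact h6
      refine hmin l₁.length (by omega) ⟨hl1, ?_⟩
      rw [← h5]
      exact h3
  have hl := h.2 _ hret
  have h1 : IsPath G v (μ.take n ++ μ.drop n) v := by rw [List.take_append_drop]; exact hμ
  obtain ⟨w, hw1, hw2⟩ := ip_append.1 h1
  have hw : w = v := ip_end hw1 hn2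
  rw [hw] at hw2
  obtain ⟨k, hk⟩ := ih (μ.drop n).length (by
    rw [List.length_drop]
    have h3 := List.length_pos_of_ne_nil h0
    omega) hw2 rfl
  refine ⟨k + 1, ?_⟩
  have h2 : μ = μ.take n ++ μ.drop n := (List.take_append_drop n μ).symm
  rw [h2, hl, hk]
  rfl

theorem PwB_len {v : G.V} {l : List G.E} (h : OnlyReturn G v l) {μ : List G.E}
    (hμ : IsPath G v μ v) (h0 : μ ≠ []) : ∃ k, μ = l ++ lpow l k := by
  obtain ⟨k, hk⟩ := only_closed h hμ
  cases k with
  | zero => exact absurd hk h0
  | succ k => exact ⟨k, hk⟩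

theorem only_nodup {v : G.V} {l : List G.E} (h : OnlyReturn G v l) : (l.map G.s).Nodup := by
  rw [List.Nodup, List.pairwise_iff_getElem]
  intro i j hi hj hij heq
  rw [List.length_map] at hi hj
  rw [List.getElem_map, List.getElem_map] at heq
  have h1 := (PwB_split h.1.2.1 i hi).1
  have h2 := (PwB_split h.1.2.1 j hj).2
  rw [← heq] at h2
  have h3 : IsPath G v (l.take i ++ l.drop j) v := ip_append.2 ⟨_, h1, h2⟩
  obtain ⟨k, hk⟩ := PwB_len h h3 (by
    intro h4
    have h5 := congrArg List.length h4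
    rw [List.length_append, List.length_drop, List.length_nil] at h5
    omega)
  have h5 := congrArg List.length hk
  rw [List.length_append, List.length_append, List.length_drop, List.length_take] at h5
  omega

theorem only_out {v : G.V} {l : List G.E} (h : OnlyReturn G v l) {e : G.E} (he : e ∈ l)
    {μ : List G.E} (hμ : IsPath G (G.s e) μ v) (h0 : μ ≠ []) : ∃ μ', μ = e :: μ' := by
  obtain ⟨α, β, hl⟩ := List.append_of_mem he
  have h1 : IsPath G v (α ++ e :: β) v := by rw [← hl]; exact h.1.2.1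
  obtain ⟨w, hw1, hw2⟩ := ip_append.1 h1
  have hw : G.s e = w := hw2.1
  rw [← hw] at hw1
  have h3 : IsPath G v (α ++ μ) v := ip_append.2 ⟨_, hw1, hμ⟩
  obtain ⟨k, hk⟩ := PwB_len h h3 (by
    intro h4
    exact h0 (List.append_eq_nil_iff.1 h4).2)
  refine ⟨β ++ lpow l k, ?_⟩
  have h4 : α ++ μ = α ++ (e :: (β ++ lpow l k)) := by
    have h5 : l ++ lpow l k = (α ++ e :: β) ++ lpow l k := by rw [← hl]
    rw [hk, h5, List.append_assoc, List.cons_append]
  exact List.append_cancel_left h4

theorem only_mem {v u : G.V} {l : List G.E} (h : OnlyReturn G v l) {μ ν : List G.E}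
    (hμ : IsPath G v μ u) (hν : IsPath G u ν v) {f : G.E} (hf : f ∈ μ ∨ f ∈ ν) : f ∈ l := by
  obtain ⟨k, hk⟩ := only_closed h (ip_append.2 ⟨_, hμ, hν⟩)
  have h1 : f ∈ μ ++ ν := List.mem_append.2 hf
  rw [hk] at h1
  exact mem_lpow h1

end Pool.Agent.RIG
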