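import Pool.Agent.RIG.FamX
import Pool.Agent.RIG.CyX

/-!
# RepC: the representation of a rigid cycle

PROOF of `exists_rep`. `hl : l ≠ []`. `X = PX G l hl`, `hd x = x 0`, `tl x = (i ↦ x (i + 1))` (in `PX`: with `k` from `x`
replaced by `k + l.length - 1` or so: `x (k + l.length + i) = cyc (l.length + i) = cyc i`, so
`(tl x) (k + l.length - 1 + i) = cyc i`, `cyc_add_length`), `x0 = cyc l` (`cyc_path`). `hcons`: prepend `e`
(`k + 1`). `inj`: clear. `exists_famX` gives `Ξ`. `H = lp (fun _ : X => ℂ) 2`, `δ = lp.single 2 x0 1`, norm `1`.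
(a) `(Ξ.p v t ξ) x = if s (x 0) = v then ξ x else 0`, and `s (x 0) = v` iff `x = x0` (`px_eq`, `cyc_zero`);
`⟪δ, ξ⟫ = ξ x0` (`lp.inner_single_left`), `(ξ x0 • δ) x = if x = x0 then ξ x0 else 0`.
(b) Claim: for `0 < i ≤ n = l.length` the product of the `Ξ.s e` over `l.drop i` at `t` maps `δ` to
`δ_{x_i}`, where `x_i = (j ↦ cyc (i + j))` (`x_n = x0`): downward induction on `i`: `i = n`: the empty
product. Step: `(Ξ.s e t δ_{y}) x = if x 0 = e then (if x = x0 then t else 1) * δ_y (tl x) else 0`, for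
`e = cyc i`, `y = x_{i+1}`: nonzero only if `x = x_i` (`inj`), the weight is `1` since `x_i ≠ x0`
(`px_tl_ne`, `0 < i < n`). For `i = 0`: the product over `l` maps `δ` to `t • δ_{x_0} = t • δ`.
(The product in `C(Circle, …)` evaluated at `t` is the product of the values: `ContinuousMap.mul_apply`.)
(c) `(Ξ.s e * star (Ξ.s e)) t ξ x = if x 0 = e then ξ x else 0` and
`(Ξ.p (s e)) t ξ x = if s (x 0) = s e then ξ x else 0`: equal by `px_hd`.
-/

namespace Pool.Agent.RIG

open Pool.Agent.AUE Pool.Agent.GHT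

/-- the shifted periodic path -/
def RepC_x {G : DGraph} {v : G.V} {l : List G.E} (hl : l ≠ []) (hp : IsPath G v l v) (i : ℕ) :
    PX G l hl :=
  ⟨fun j => cyc l hl (i + j), fun j => cyc_path hl hp (i + j), i * l.length - i, fun j => by
    have hn : 0 < l.length := List.length_pos_iff.2 hl
    have h1 : i ≤ i * l.length := Nat.le_mul_of_pos_right i hn
    show cyc l hl (i + (i * l.length - i + j)) = cyc l hl j
    rw [show i + (i * l.length - i + j) = i * l.length + j by omega, CyX_mul]⟩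

/-- the tail of a path -/
def RepC_tl {G : DGraph} {l : List G.E} {hl : l ≠ []} (x : PX G l hl) : PX G l hl :=
  ⟨fun i => x.1 (i + 1), fun i => x.2.1 (i + 1), by
    obtain ⟨k, hk⟩ := x.2.2
    have hn : 0 < l.length := List.length_pos_iff.2 hl
    refine ⟨k + (l.length - 1), fun i => ?_⟩
    show x.1 (k + (l.length - 1) + i + 1) = _
    rw [show k + (l.length - 1) + i + 1 = k + (l.length + i) by omega, hk, cyc_add_length]⟩

/-- prepend an edge -/
def RepC_cons {G : DGraph} {l : List G.E} {hl : l ≠ []} (e : G.E) (x : PX G l hl)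
    (h : G.r e = G.s (x.1 0)) : PX G l hl :=
  ⟨fun i => Nat.casesOn i e x.1, fun i => by
    cases i with
    | zero => exact h
    | succ i => exact x.2.1 i, by
    obtain ⟨k, hk⟩ := x.2.2
    refine ⟨k + 1, fun i => ?_⟩
    rw [show k + 1 + i = (k + i) + 1 by omega]
    exact hk i⟩

theorem RepC_inj {G : DGraph} {l : List G.E} {hl : l ≠ []} (x y : PX G l hl)
    (h0 : x.1 0 = y.1 0) (h1 : RepC_tl x = RepC_tl y) : x = y := by
  apply Subtype.ext
  funext i
  cases i with
  | zero => exact h0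
  | succ i => exact congrFun (congrArg Subtype.val h1) i

theorem RepC_tl_x {G : DGraph} {v : G.V} {l : List G.E} (hl : l ≠ []) (hp : IsPath G v l v)
    (i : ℕ) : RepC_tl (RepC_x hl hp i) = RepC_x hl hp (i + 1) := by
  apply Subtype.ext
  funext j
  show cyc l hl (i + (j + 1)) = cyc l hl (i + 1 + j)
  congr 1
  omega

open scoped Classical in
theorem RepC_step {G : DGraph} {v : G.V} {l : List G.E} (h : OnlyReturn G v l)
    (Ξ : CKFam G C(Circle, FamX_L (PX G l h.1.1)))
    (hs : ∀ e t ξ x, ((Ξ.s e t) ξ : ∀ _ : PX G l h.1.1, ℂ) x =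
        if x.1 0 = e then (if x = RepC_x h.1.1 h.1.2.1 0 then (t : ℂ) else 1) *
          (ξ : ∀ _ : PX G l h.1.1, ℂ) (RepC_tl x) else 0)
    (t : Circle) {i : ℕ} (hi : i < l.length) :
    (Ξ.s l[i] t) (lp.single 2 (RepC_x h.1.1 h.1.2.1 (i + 1)) (1 : ℂ)) =
      (if i = 0 then (t : ℂ) else 1) • lp.single 2 (RepC_x h.1.1 h.1.2.1 i) (1 : ℂ) := by
  have hl := h.1.1
  have hp := h.1.2.1
  apply lp.ext
  funext x
  rw [hs]
  rw [lp.coeFn_smul, Pi.smul_apply, lp.single_apply, lp.single_apply, Pi.single_apply,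
    Pi.single_apply]
  by_cases hx : x = RepC_x hl hp i
  · have h1 : x.1 0 = l[i] := by
      rw [hx]
      show cyc l hl (i + 0) = l[i]
      exact CyX_eq l hl (by rw [Nat.add_zero]; exact Nat.mod_eq_of_lt hi) hi
    have h2 : RepC_tl x = RepC_x hl hp (i + 1) := by rw [hx, RepC_tl_x]
    rw [if_pos h1, if_pos h2, if_pos hx, mul_one, smul_eq_mul, mul_one]
    by_cases h0 : i = 0
    · rw [if_pos h0, if_pos (by rw [hx, h0])]
    · rw [if_neg h0, if_neg]
      intro h3
      rw [hx] at h3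
      have h4 := congrArg Subtype.val h3
      apply px_tl_ne hl h (by omega : 0 < i) hi
      have h5 : (RepC_x hl hp 0).1 = cyc l hl := by
        funext j
        show cyc l hl (0 + j) = _
        rw [Nat.zero_add]
      exact h4.trans h5
  · rw [if_neg hx, smul_zero]
    by_cases h1 : x.1 0 = l[i]
    · have h2 : ¬ RepC_tl x = RepC_x hl hp (i + 1) := by
        intro h2
        apply hx
        apply RepC_inj
        · rw [h1]
          show l[i] = cyc l hl (i + 0)
          exact (CyX_eq l hl (by rw [Nat.add_zero]; exact Nat.mod_eq_of_lt hi) hi).symm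
        · rw [h2, RepC_tl_x]
      rw [if_pos h1, if_neg h2, mul_zero]
    · rw [if_neg h1]

open scoped Classical in
theorem RepC_prod {G : DGraph} {v : G.V} {l : List G.E} (h : OnlyReturn G v l)
    (Ξ : CKFam G C(Circle, FamX_L (PX G l h.1.1)))
    (hs : ∀ e t ξ x, ((Ξ.s e t) ξ : ∀ _ : PX G l h.1.1, ℂ) x =
        if x.1 0 = e then (if x = RepC_x h.1.1 h.1.2.1 0 then (t : ℂ) else 1) *
          (ξ : ∀ _ : PX G l h.1.1, ℂ) (RepC_tl x) else 0)
    (t : Circle) (m : ℕ) : ∀ i, i + m = l.length →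
    ((((l.drop i).map Ξ.s).prod) t) (lp.single 2 (RepC_x h.1.1 h.1.2.1 0) (1 : ℂ)) =
      (if i = 0 then (t : ℂ) else 1) • lp.single 2 (RepC_x h.1.1 h.1.2.1 i) (1 : ℂ) := by
  have hl := h.1.1
  have hp := h.1.2.1
  have hn : 0 < l.length := List.length_pos_iff.2 hl
  induction m with
  | zero =>
    intro i hi
    have hi' : i = l.length := by omega
    subst hi'
    rw [List.drop_length, List.map_nil, List.prod_nil, if_neg (by omega), one_smul]
    have h1 : RepC_x hl hp l.length = RepC_x hl hp 0 := by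
      apply Subtype.ext
      funext j
      show cyc l hl (l.length + j) = cyc l hl (0 + j)
      rw [cyc_add_length, Nat.zero_add]
    rw [h1]
    rfl
  | succ m ih =>
    intro i hi
    have hi' : i < l.length := by omega
    rw [List.drop_eq_getElem_cons hi', List.map_cons, List.prod_cons]
    have h1 := ih (i + 1) (by omega)
    rw [if_neg (by omega : ¬ i + 1 = 0), one_smul] at h1
    have h2 : ((Ξ.s l[i] * ((l.drop (i + 1)).map Ξ.s).prod) t)
        (lp.single 2 (RepC_x h.1.1 h.1.2.1 0) (1 : ℂ)) =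
        (Ξ.s l[i] t) ((((l.drop (i + 1)).map Ξ.s).prod t)
          (lp.single 2 (RepC_x h.1.1 h.1.2.1 0) (1 : ℂ))) := rfl
    rw [h2, h1]
    exact RepC_step h Ξ hs t hi'

theorem exists_rep {G : DGraph} {v : G.V} {l : List G.E} (h : OnlyReturn G v l) :
    ∃ (H : Type) (_ : NormedAddCommGroup H) (_ : InnerProductSpace ℂ H) (_ : CompleteSpace H)
      (Ξ : CKFam G C(Circle, H →L[ℂ] H)) (δ : H), ‖δ‖ = 1 ∧
      (∀ (t : Circle) (ξ : H), (Ξ.p v t) ξ = inner ℂ δ ξ • δ) ∧
      (∀ t : Circle, ((l.map Ξ.s).prod t) δ = (t : ℂ) • δ) ∧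
      ∀ e ∈ l, Ξ.p (G.s e) = Ξ.s e * star (Ξ.s e) := by
  classical
  have hl := h.1.1
  have hp := h.1.2.1
  obtain ⟨Ξ, h1, h2, h3⟩ := exists_famX (G := G) (X := PX G l h.1.1) (fun x => x.1 0) RepC_tl
    (fun x => x.2.1 0)
    (fun e x he => ⟨RepC_cons e x he, rfl, Subtype.ext rfl⟩)
    RepC_inj (RepC_x h.1.1 h.1.2.1 0)
  have h5 : (RepC_x hl hp 0).1 = cyc l hl := by
    funext j
    show cyc l hl (0 + j) = _
    rw [Nat.zero_add]
  have h2' : ∀ e t ξ x, ((Ξ.s e t) ξ : ∀ _ : PX G l h.1.1, ℂ) x =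
        if x.1 0 = e then (if x = RepC_x h.1.1 h.1.2.1 0 then (t : ℂ) else 1) *
          (ξ : ∀ _ : PX G l h.1.1, ℂ) (RepC_tl x) else 0 := by
    intro e t ξ x
    rw [h2]
  refine ⟨lp (fun _ : PX G l h.1.1 => ℂ) 2, inferInstance, inferInstance, inferInstance, Ξ,
    lp.single 2 (RepC_x h.1.1 h.1.2.1 0) (1 : ℂ), ?_, ?_, ?_, ?_⟩
  · rw [lp.norm_single (by norm_num), norm_one]
  · intro t ξ
    apply lp.ext
    funext x
    rw [h1, lp.inner_single_left, lp.coeFn_smul, Pi.smul_apply, lp.single_apply, Pi.single_apply]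
    by_cases hx : x = RepC_x h.1.1 h.1.2.1 0
    · rw [if_pos hx, if_pos, hx]
      · simp
      · rw [hx, h5]
        exact cyc_zero hl hp
    · rw [if_neg hx, if_neg, smul_zero]
      intro h6
      apply hx
      apply Subtype.ext
      rw [px_eq hl h x h6]
      exact h5.symm
  · intro t
    have h6 := RepC_prod h Ξ h2' t l.length 0 (by omega)
    rw [List.drop_zero, if_pos rfl] at h6
    exact h6
  · intro e he
    apply FamX_ext
    intro t ξ x
    have h7 : (((Ξ.s e * star (Ξ.s e)) t) ξ : ∀ _ : PX G l h.1.1, ℂ) x =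
        if x.1 0 = e then (ξ : ∀ _ : PX G l h.1.1, ℂ) x else 0 := h3 e t ξ x
    rw [h1, h7]
    by_cases h6 : x.1 0 = e
    · rw [if_pos h6, if_pos (by rw [h6])]
    · rw [if_neg h6, if_neg]
      intro h8
      exact h6 (px_hd hl h x he h8)

end Pool.Agent.RIG
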