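import Mathlib

/-!
# Trig: trigonometric polynomials are dense in `C(Circle, ℂ)`
-/

namespace Pool.Agent.RIG

theorem Trig_inv (z : C(Circle, ℂ)) (hz : ∀ t, z t = (t : ℂ)) : z * star z = 1 := by
  ext t
  show z t * (starRingEnd ℂ) (z t) = 1
  rw [hz, Complex.mul_conj, Complex.normSq_eq_norm_sq, Circle.norm_coe]
  norm_num

theorem trig_dense (z : C(Circle, ℂ)) (hz : ∀ t, z t = (t : ℂ)) (M : Submodule ℂ C(Circle, ℂ))
    (hM : IsClosed (M : Set C(Circle, ℂ))) (h : ∀ k : ℕ, z ^ k ∈ M ∧ star (z ^ k) ∈ M)
    (f : C(Circle, ℂ)) : f ∈ M := by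
  have hinv := Trig_inv z hz
  -- the span
  let N : Submodule ℂ C(Circle, ℂ) :=
    Submodule.span ℂ (Set.range (fun k : ℕ => z ^ k) ∪ Set.range (fun k : ℕ => (star z) ^ k))
  have hzN : ∀ k : ℕ, z ^ k ∈ N := fun k => Submodule.subset_span (Or.inl ⟨k, rfl⟩)
  have hsN : ∀ k : ℕ, (star z) ^ k ∈ N := fun k => Submodule.subset_span (Or.inr ⟨k, rfl⟩)
  have hmix : ∀ a b : ℕ, z ^ a * (star z) ^ b ∈ N := by
    intro a b
    rcases le_total b a with hab | hab
    · obtain ⟨c, rfl⟩ := Nat.exists_eq_add_of_le hab
      have : z ^ (b + c) * (star z) ^ b = z ^ c := by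
        rw [pow_add, mul_assoc, mul_comm (z ^ c), ← mul_assoc, ← mul_pow, hinv, one_pow, one_mul]
      rw [this]; exact hzN c
    · obtain ⟨c, rfl⟩ := Nat.exists_eq_add_of_le hab
      have : z ^ a * (star z) ^ (a + c) = (star z) ^ c := by
        rw [pow_add, ← mul_assoc, ← mul_pow, hinv, one_pow, one_mul]
      rw [this]; exact hsN c
  have hmul : ∀ x ∈ N, ∀ y ∈ N, x * y ∈ N := by
    intro x hx y hy
    induction hx using Submodule.span_induction with
    | mem x hx =>
      induction hy using Submodule.span_induction with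
      | mem y hy =>
        rcases hx with ⟨a, rfl⟩ | ⟨a, rfl⟩ <;> rcases hy with ⟨b, rfl⟩ | ⟨b, rfl⟩
        · show z ^ a * z ^ b ∈ N
          rw [← pow_add]; exact hzN _
        · exact hmix a b
        · show (star z) ^ a * z ^ b ∈ N
          rw [mul_comm]; exact hmix b a
        · show (star z) ^ a * (star z) ^ b ∈ N
          rw [← pow_add]; exact hsN _
      | zero => rw [mul_zero]; exact N.zero_mem
      | add u v _ _ hu hv => rw [mul_add]; exact N.add_mem hu hv
      | smul c u _ hu => rw [mul_smul_comm]; exact N.smul_mem c hu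
    | zero => rw [zero_mul]; exact N.zero_mem
    | add u v _ _ hu hv => rw [add_mul]; exact N.add_mem hu hv
    | smul c u _ hu => rw [smul_mul_assoc]; exact N.smul_mem c hu
  have hstar : ∀ x ∈ N, star x ∈ N := by
    intro x hx
    induction hx using Submodule.span_induction with
    | mem x hx =>
      rcases hx with ⟨a, rfl⟩ | ⟨a, rfl⟩
      · show star (z ^ a) ∈ N
        rw [star_pow]; exact hsN a
      · show star ((star z) ^ a) ∈ N
        rw [star_pow, star_star]; exact hzN a
    | zero => rw [star_zero]; exact N.zero_mem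
    | add u v _ _ hu hv => rw [star_add]; exact N.add_mem hu hv
    | smul c u _ hu => rw [star_smul]; exact N.smul_mem _ hu
  have hone : (1 : C(Circle, ℂ)) ∈ N := by
    have := hzN 0
    rwa [pow_zero] at this
  let S : StarSubalgebra ℂ C(Circle, ℂ) :=
    { carrier := N
      mul_mem' := fun {a b} ha hb => hmul a ha b hb
      one_mem' := hone
      add_mem' := fun {a b} ha hb => N.add_mem ha hb
      zero_mem' := N.zero_mem
      algebraMap_mem' := fun r => by
        rw [Algebra.algebraMap_eq_smul_one]
        exact N.smul_mem r hone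
      star_mem' := fun {a} ha => hstar a ha }
  have hsep : S.toSubalgebra.SeparatesPoints := by
    intro s t hst
    refine ⟨z, ⟨z, ?_, rfl⟩, ?_⟩
    · have := hzN 1
      rw [pow_one] at this
      exact this
    · rw [hz, hz]
      exact fun h' => hst (Subtype.ext h')
  have htop := ContinuousMap.starSubalgebra_topologicalClosure_eq_top_of_separatesPoints S hsep
  have hf : f ∈ S.topologicalClosure := by rw [htop]; trivial
  have hNM : (N : Set C(Circle, ℂ)) ⊆ M := by
    intro x hx
    have : N ≤ M := by
      apply Submodule.span_le.2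
      rintro y (⟨k, rfl⟩ | ⟨k, rfl⟩)
      · exact (h k).1
      · show (star z) ^ k ∈ M
        rw [← star_pow]; exact (h k).2
    exact this hx
  have hcl : closure (N : Set C(Circle, ℂ)) ⊆ M := closure_minimal hNM hM
  exact hcl hf

end Pool.Agent.RIG
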