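import Pool.Agent.RIG.EvB
import Pool.Agent.RIG.Dil
import Pool.Agent.RIG.Trig

/-!
# Tau: the section of an evaluation
-/

namespace Pool.Agent.RIG

open Pool.Agent.AUE Pool.Agent.GHT

theorem exists_tau {B : Type} [CStarAlgebra B] {p T : B} (E : Ev p T) :
    ∃ τ : C(Circle, ℂ) →ₗ[ℂ] B, (∀ h, ‖τ h‖ ≤ ‖h‖) ∧ (∀ h, τ (star h) = star (τ h)) ∧
      τ 1 = p ∧ (∀ h, p * τ h = τ h) ∧ (∀ h, τ h * p = τ h) ∧ (∀ h, E.χ (τ h) = h) ∧
      ∀ k : ℕ, τ (zC ^ k) = T ^ k * p := by
  have hL : IsLoop p T := E.toIsLoop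
  obtain ⟨τ₀, h1, h2, h3⟩ := exists_dil hL.star_one zC (fun _ => rfl)
  let τ : C(Circle, ℂ) →ₗ[ℂ] B :=
    { toFun := fun h => p * τ₀ h * p
      map_add' := fun x y => by rw [map_add, mul_add, add_mul]
      map_smul' := fun c x => by
        rw [map_smul, mul_smul_comm, smul_mul_assoc]; rfl }
  have hτ : ∀ h, τ h = p * τ₀ h * p := fun _ => rfl
  have hp1 := hL.norm_p_le
  have hn : ∀ h, ‖τ h‖ ≤ ‖h‖ := by
    intro h
    calc ‖p * τ₀ h * p‖ ≤ ‖p * τ₀ h‖ * ‖p‖ := norm_mul_le _ _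
      _ ≤ (‖p‖ * ‖τ₀ h‖) * ‖p‖ := mul_le_mul_of_nonneg_right (norm_mul_le _ _) (norm_nonneg _)
      _ ≤ (1 * ‖h‖) * 1 := by
        apply mul_le_mul (mul_le_mul hp1 (h1 h) (norm_nonneg _) zero_le_one) hp1 (norm_nonneg _)
        positivity
      _ = ‖h‖ := by ring
  have hs : ∀ h, τ (star h) = star (τ h) := by
    intro h
    rw [hτ, hτ, h2, star_mul, star_mul, hL.star_p, mul_assoc]
  have hk : ∀ k : ℕ, τ (zC ^ k) = T ^ k * p := by
    intro k
    rw [hτ, h3, hL.pow_one, mul_add, add_mul, hL.pow_p, mul_assoc (T ^ k) p p, hL.p_mul, mul_assoc p,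
      sub_mul, one_mul, hL.p_mul, sub_self, mul_zero, add_zero]
  have hone : τ 1 = p := by
    have := hk 0
    rwa [pow_zero, pow_zero, one_mul] at this
  refine ⟨τ, hn, hs, hone, ?_, ?_, ?_, hk⟩
  · intro h
    rw [hτ, ← mul_assoc, ← mul_assoc, hL.p_mul]
  · intro h
    rw [hτ, mul_assoc, hL.p_mul]
  · let M : Submodule ℂ C(Circle, ℂ) :=
      { carrier := {h | E.χ (τ h) = h}
        add_mem' := fun {a b} ha hb => by
          show E.χ (τ (a + b)) = a + b
          rw [map_add, map_add, show E.χ (τ a) = a from ha, show E.χ (τ b) = b from hb]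
        zero_mem' := by
          show E.χ (τ 0) = 0
          rw [map_zero, map_zero]
        smul_mem' := fun c a ha => by
          show E.χ (τ (c • a)) = c • a
          rw [map_smul, map_smul, show E.χ (τ a) = a from ha] }
    have hcont : Continuous fun h => E.χ (τ h) := by
      have : Continuous (E.χ.comp τ) := by
        apply AddMonoidHomClass.continuous_of_bound (E.χ.comp τ) 1
        intro h
        rw [one_mul]
        exact (E.norm_le _).trans (hn h)
      exact this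
    have hM : IsClosed (M : Set C(Circle, ℂ)) := isClosed_eq hcont continuous_id
    intro h
    have hmem : ∀ k : ℕ, zC ^ k ∈ M ∧ star (zC ^ k : C(Circle, ℂ)) ∈ M := by
      intro k
      constructor
      · show E.χ (τ (zC ^ k)) = zC ^ k
        rw [hk, E.χ_pow]
      · show E.χ (τ (star (zC ^ k))) = star (zC ^ k)
        rw [hs, hk, E.map_star, E.χ_pow]
    exact trig_dense zC (fun _ => rfl) M hM hmem h

end Pool.Agent.RIG
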